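import Pool.Agent.T2h63.CY.Pow1

/-!
# Varieties with a full symplectic Lie algebra: the Hodge classes on the powers
-/

set_option linter.unusedSectionVars false

open CategoryTheory AlgebraicGeometry TensorProduct

universe u

namespace Pool.Agent.T2h63.CY

open Module Matrix
open Pool.Agent.H914 Pool.Agent.H914.VarClass Pool.Agent.H914.VarClass.Obj
  Pool.Agent.H914.WeilCohomology
open Pool.Agent.N996.BP (rei tens AQ ce rei_rei)
open Pool.Agent.N996.BP.Geo
open Pool.Agent.Y133.Half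
open Pool.Agent.Y121.AHS (toH)
open Pool.Agent.Y121.AH (CW em em_gr em_add em_zero em_tr em_mul em_map em_smul ex_rat hodgePred
  IsHodge)
open Pool.Agent.T2h63.AH

variable {k : Type u} [Field k] {𝒱 : VarClass k} {ops : CycleOps 𝒱}
  {S : Pool.Agent.Y121.AH.HodgeTheory ops} {X : 𝒱.Obj}
  {ι : Type} [Fintype ι] [DecidableEq ι] {e : Basis ι S.W.K (S.W.H X)}

/-- The words with two letters. -/
def w2 (i j : ι) : Fin (1 + 1) → ι := Fin.snoc (α := fun _ => ι) (fun _ : Fin (0 + 1) => i) j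

lemma w2_zero (i j : ι) : w2 i j 0 = i := rfl

lemma w2_one (i j : ι) : w2 i j 1 = j := rfl

lemma w2_eta (w : Fin (1 + 1) → ι) : w2 (w 0) (w 1) = w := by
  funext l
  refine Fin.cases ?_ (fun l => ?_) l
  · rfl
  · rw [Subsingleton.elim l 0]; rfl

lemma sum_w2 {M : Type*} [AddCommMonoid M] (f : (Fin (1 + 1) → ι) → M) :
    ∑ w, f w = ∑ i, ∑ j, f (w2 i j) := by
  rw [sum_snoc 0 f, ← Equiv.sum_comp (Equiv.funUnique (Fin 1) ι).symm]
  rfl

lemma wb_w2 (i j : ι) : wb e 1 (w2 i j) = xp S.W (e i) (e j) := by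
  have h4 : wb e (0 + 1) (w2 i j) = xp S.W (e i) (e j) := by
    rw [w2, wb_snoc]
    have h5 : wb e 0 (fun _ => i) = e i := wb_zero e _
    rw [h5]
    rfl
  exact h4

lemma cls_w2 (a : (Fin (1 + 1) → ι) → ℚ) :
    cls e 1 a = ∑ i, ∑ j, ((a (w2 i j) : ℚ) : S.W.K) • xp S.W (e i) (e j) := by
  rw [cls, sum_w2]
  refine Finset.sum_congr rfl fun i _ => Finset.sum_congr rfl fun j _ => ?_
  rw [wb_w2]
  rfl

lemma cls_inj (n : ℕ) {a b : (Fin (n + 1) → ι) → ℚ} (h : cls e n a = cls e n b) : a = b := by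
  have h1 : emb e n (Pool.Agent.N996.BP.ca a) = emb e n (Pool.Agent.N996.BP.ca b) := by
    rw [← em_cls, ← em_cls, h]
  have h2 := emb_inj e n h1
  funext w
  have h3 := congrFun h2 w
  exact Rat.cast_injective (α := ℂ) h3

/-- The coefficients with respect to a basis. -/
lemma coef_inj {a b : ι → ℚ} (h : ∑ i, ((a i : ℚ) : S.W.K) • e i = ∑ i, ((b i : ℚ) : S.W.K) • e i) :
    a = b := by
  funext i
  have h1 := congrArg (fun x => e.repr x i) h
  simp only [Basis.repr_sum_self] at h1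
  exact Rat.cast_injective (α := S.W.K) h1

section Diag

variable {p : ι → Prop} [DecidablePred p]

/-- The parities. -/
def pr (p : ι → Prop) [DecidablePred p] (i : ι) : Fin 2 := if p i then 1 else 0

lemma pr_pos {i : ι} (h : p i) : (pr p i : ℕ) = 1 := by rw [pr, if_pos h]; rfl

lemma pr_neg {i : ι} (h : ¬ p i) : (pr p i : ℕ) = 0 := by rw [pr, if_neg h]; rfl

/-- The class of the diagonal has no mixed terms. -/
lemma diag_mixed (hp : ∀ j, e j ∈ PH S.W X (pr p j : ℕ)) {D : (Fin (1 + 1) → ι) → ℚ}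
    (hD : cls e 1 D = (show S.W.H (pw X 1) from S.W.push (diag X) 1)) {i j : ι}
    (hij : ¬ (p i ↔ p j)) : D (w2 i j) = 0 := by
  have h1 : S.W.push (diag X) (1 : S.W.H X) ∈ PH S.W (X.prod X) 0 := by
    have := PH.push (W := S.W) (diag X) (PH.of (S.W.one_mem X))
    exact this
  have h2 : H914.par (S.W.isInternal (X.prod X)) (S.W.push (diag X) 1) =
      S.W.push (diag X) 1 := by
    rw [PH.par h1, pow_zero, one_smul]
  have h3 : H914.par (S.W.isInternal (X.prod X)) (show S.W.H (X.prod X) from cls e 1 D) =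
      (show S.W.H (X.prod X) from
        cls e 1 (fun w => (-1) ^ ((pr p (w 0) : ℕ) + (pr p (w 1) : ℕ)) * D w)) := by
    rw [cls_w2, cls_w2]
    change H914.par (S.W.isInternal (X.prod X))
      (∑ i, ∑ j, ((D (w2 i j) : ℚ) : S.W.K) • xp S.W (e i) (e j)) = _
    rw [map_sum]
    refine Finset.sum_congr rfl fun i _ => ?_
    rw [map_sum]
    refine Finset.sum_congr rfl fun j _ => ?_
    rw [map_smul, PH.par (xp_mem (hp i) (hp j)), smul_smul, w2_zero, w2_one, Rat.cast_mul,
      Rat.cast_pow, Rat.cast_neg, Rat.cast_one, mul_comm]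
  have h4 : cls e 1 (fun w => (-1) ^ ((pr p (w 0) : ℕ) + (pr p (w 1) : ℕ)) * D w) =
      cls e 1 D := by
    rw [hD]
    refine (h3.symm.trans ?_)
    rw [hD]
    exact h2
  have h5 := congrFun (cls_inj 1 h4) (w2 i j)
  simp only [w2_zero, w2_one] at h5
  have h6 : (-1 : ℚ) ^ ((pr p i : ℕ) + (pr p j : ℕ)) = -1 := by
    by_cases hi : p i <;> by_cases hj : p j
    · exact absurd (iff_of_true hi hj) hij
    · rw [pr_pos hi, pr_neg hj]; norm_num
    · rw [pr_neg hi, pr_pos hj]; norm_num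
    · exact absurd (iff_of_false hi hj) hij
  rw [h6] at h5
  linarith

/-- The class of the diagonal and the intersection form. -/
lemma diag_inv (hp : ∀ j, e j ∈ PH S.W X (pr p j : ℕ)) {D : (Fin (1 + 1) → ι) → ℚ}
    (hD : cls e 1 D = (show S.W.H (pw X 1) from S.W.push (diag X) 1)) {G : ι → ι → ℚ}
    (hG : ∀ i j, ((G i j : ℚ) : S.W.K) = S.W.tr X (e i * e j)) (k i : ι) :
    ∑ j, (-1) ^ ((pr p k : ℕ) * (pr p i : ℕ)) * (D (w2 i j) * G k j) = if i = k then 1 else 0 := by
  have h1 : kb (e k) (S.W.push (diag X) 1) = e k := kb_diag (e k)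
  have h2 : kb (e k) (show S.W.H (X.prod X) from cls e 1 D) = ∑ i, ((∑ j,
      (-1) ^ ((pr p k : ℕ) * (pr p i : ℕ)) * (D (w2 i j) * G k j) : ℚ) : S.W.K) • e i := by
    rw [cls_w2]
    have hadd : ∀ (s : Finset ι) (f : ι → S.W.H (X.prod X)),
        kb (e k) (∑ i ∈ s, f i) = ∑ i ∈ s, kb (e k) (f i) := by
      intro s f
      rw [kb, Finset.mul_sum, map_sum]
      rfl
    have hsm : ∀ (r : S.W.K) (c : S.W.H (X.prod X)), kb (e k) (r • c) = r • kb (e k) c := by
      intro r c
      rw [kb, mul_smul_comm, map_smul]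
      rfl
    change kb (e k) (∑ i, ∑ j, ((D (w2 i j) : ℚ) : S.W.K) • xp S.W (e i) (e j)) = _
    rw [hadd]
    refine Finset.sum_congr rfl fun i _ => ?_
    rw [hadd, Rat.cast_sum, Finset.sum_smul]
    refine Finset.sum_congr rfl fun j _ => ?_
    rw [hsm, kb_xp (hp k) (hp i), smul_smul, ← hG]
    congr 1
    push_cast
    ring
  have h3 : ∑ i, (((if i = k then 1 else 0 : ℚ)) : S.W.K) • e i = e k := by
    rw [Finset.sum_eq_single k]
    · rw [if_pos rfl, Rat.cast_one, one_smul]
    · intro i _ hi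
      rw [if_neg hi, Rat.cast_zero, zero_smul]
    · intro h; exact absurd (Finset.mem_univ _) h
  have h4 := coef_inj (h2.symm.trans ((congrArg (kb (e k)) hD).trans (h1.trans h3.symm)))
  exact congrFun h4 i

end Diag

section Sy

variable {Q : ClassPred S.W} {p : ι → Prop} [DecidablePred p]

lemma xp_sum_mem (he : ∀ i, ¬ p i → e i ∈ Q.sp X) (f : ι → ι → ℚ) (hf : ∀ i j, f i j ≠ 0 →
    ¬ p i ∧ ¬ p j) : ∑ i, ∑ j, ((f i j : ℚ) : S.W.K) • xp S.W (e i) (e j) ∈
      Q.sp (X.prod X) := by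
  refine Submodule.sum_mem _ fun i _ => Submodule.sum_mem _ fun j _ => ?_
  by_cases h : f i j = 0
  · rw [h, Rat.cast_zero, zero_smul]
    exact Submodule.zero_mem _
  · exact Submodule.smul_mem _ _ (Sys.xp_mem_C Q.sys (he i (hf i j h).1) (he j (hf i j h).2))

lemma diag_mem : S.W.push (diag X) 1 ∈ Q.sp (X.prod X) := Q.sys.push _ (Q.sys.one X)

lemma dp_mem (hp : ∀ j, e j ∈ PH S.W X (pr p j : ℕ)) (he : ∀ i, ¬ p i → e i ∈ Q.sp X)
    {D : (Fin (1 + 1) → ι) → ℚ}
    (hD : cls e 1 D = (show S.W.H (pw X 1) from S.W.push (diag X) 1)) :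
    (show S.W.H (X.prod X) from dp S.W X) ∈ Q.sp (X.prod X) := by
  have h1 : (show S.W.H (X.prod X) from dp S.W X) = ∑ i, ∑ j,
      (((-1) ^ (pr p i : ℕ) * D (w2 i j) : ℚ) : S.W.K) • xp S.W (e i) (e j) := by
    have h2 : (show S.W.H (X.prod X) from dp S.W X) =
        extOp S.W (H914.par (S.W.isInternal X)) 1 (show S.W.H (X.prod X) from cls e 1 D) := by
      rw [hD]
      rfl
    rw [h2, cls_w2]
    change extOp S.W (H914.par (S.W.isInternal X)) 1
      (∑ i, ∑ j, ((D (w2 i j) : ℚ) : S.W.K) • xp S.W (e i) (e j)) = _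
    rw [map_sum]
    refine Finset.sum_congr rfl fun i _ => ?_
    rw [map_sum]
    refine Finset.sum_congr rfl fun j _ => ?_
    have h3 : extOp S.W (H914.par (S.W.isInternal X)) 1 (xp S.W (e i) (e j)) =
        xp S.W (H914.par (S.W.isInternal X) (e i)) (e j) := extOp_tmul _ _ _ _
    rw [map_smul, h3, PH.par (hp i), xp_smul_left, smul_smul]
    congr 1
    push_cast
    ring
  have h2 : (show S.W.H (X.prod X) from dp S.W X) = -S.W.push (diag X) 1 + ∑ i, ∑ j,
      ((if ¬ p i ∧ ¬ p j then 2 * D (w2 i j) else 0 : ℚ) : S.W.K) • xp S.W (e i) (e j) := by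
    have h3 : S.W.push (diag X) (1 : S.W.H X) =
        ∑ i, ∑ j, ((D (w2 i j) : ℚ) : S.W.K) • xp S.W (e i) (e j) := by
      rw [← cls_w2]
      exact hD.symm
    rw [h1, h3, ← Finset.sum_neg_distrib, ← Finset.sum_add_distrib]
    refine Finset.sum_congr rfl fun i _ => ?_
    rw [← Finset.sum_neg_distrib, ← Finset.sum_add_distrib]
    refine Finset.sum_congr rfl fun j _ => ?_
    rw [← neg_smul, ← add_smul]
    congr 1
    by_cases hi : p i <;> by_cases hj : p j
    · rw [if_neg (by tauto), pr_pos hi]; push_cast; ring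
    · rw [if_neg (by tauto), diag_mixed hp hD (by tauto)]; simp
    · rw [if_neg (by tauto), diag_mixed hp hD (by tauto)]; simp
    · rw [if_pos ⟨hi, hj⟩, pr_neg hi]; push_cast; ring
  rw [h2]
  refine Submodule.add_mem _ (Submodule.neg_mem _ diag_mem) (xp_sum_mem he _ fun i j h => ?_)
  by_contra h'
  exact h (if_neg h')

/-- The inverse of the form. -/
def Rm (p : ι → Prop) [DecidablePred p] (D : (Fin (1 + 1) → ι) → ℚ) : Matrix ι ι ℚ :=
  fun i j => if p i ∧ p j then D (w2 i j) else 0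

/-- The form. -/
def Qm (p : ι → Prop) [DecidablePred p] (G : ι → ι → ℚ) : Matrix ι ι ℚ :=
  fun i j => if p i ∧ p j then G i j else 0

lemma rm_mem (hp : ∀ j, e j ∈ PH S.W X (pr p j : ℕ)) (he : ∀ i, ¬ p i → e i ∈ Q.sp X)
    {D : (Fin (1 + 1) → ι) → ℚ}
    (hD : cls e 1 D = (show S.W.H (pw X 1) from S.W.push (diag X) 1)) :
    (show S.W.H (X.prod X) from cls e 1 (fun w => Rm p D (w 0) (w 1))) ∈ Q.sp (X.prod X) := by
  have h1 : (show S.W.H (X.prod X) from cls e 1 (fun w => Rm p D (w 0) (w 1))) =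
      S.W.push (diag X) 1 - ∑ i, ∑ j,
      ((if ¬ p i ∧ ¬ p j then D (w2 i j) else 0 : ℚ) : S.W.K) • xp S.W (e i) (e j) := by
    have h3 : S.W.push (diag X) (1 : S.W.H X) =
        ∑ i, ∑ j, ((D (w2 i j) : ℚ) : S.W.K) • xp S.W (e i) (e j) := by
      rw [← cls_w2]
      exact hD.symm
    rw [cls_w2, h3, ← Finset.sum_sub_distrib]
    refine Finset.sum_congr rfl fun i _ => ?_
    rw [← Finset.sum_sub_distrib]
    refine Finset.sum_congr rfl fun j _ => ?_
    rw [← sub_smul, w2_zero, w2_one]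
    congr 1
    rw [Rm]
    by_cases hi : p i <;> by_cases hj : p j
    · rw [if_pos ⟨hi, hj⟩, if_neg (by tauto)]; simp
    · rw [if_neg (by tauto), if_neg (by tauto), diag_mixed hp hD (by tauto)]; simp
    · rw [if_neg (by tauto), if_neg (by tauto), diag_mixed hp hD (by tauto)]; simp
    · rw [if_neg (by tauto), if_pos ⟨hi, hj⟩]; simp
  rw [h1]
  refine Submodule.sub_mem _ diag_mem (xp_sum_mem he _ fun i j h => ?_)
  by_contra h'
  exact h (if_neg h')

end Sy

/-- A matrix supported on a block which is inverse to an antisymmetric matrix is antisymmetric. -/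
lemma anti_of_inv {p : ι → Prop} [DecidablePred p] {R Q : Matrix ι ι ℚ}
    (hQ : ∀ i j, Q i j = -Q j i) (hR0 : ∀ i j, ¬ (p i ∧ p j) → R i j = 0)
    (hQ0 : ∀ i j, ¬ (p i ∧ p j) → Q i j = 0)
    (h : ∀ i k, p i → p k → ∑ j, R i j * Q j k = if i = k then 1 else 0) (i j : ι) :
    R i j = -R j i := by
  obtain ⟨P, hP⟩ : ∃ P : Matrix ι ι ℚ, P = Matrix.diagonal fun i => if p i then (1 : ℚ) else 0 :=
    ⟨_, rfl⟩
  have h1 : R * Q = P := by
    ext i k
    rw [Matrix.mul_apply, hP, Matrix.diagonal_apply]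
    by_cases hi : p i
    · by_cases hk : p k
      · rw [h i k hi hk]
        simp [hi]
      · rw [Finset.sum_eq_zero fun j _ => by rw [hQ0 j k (by tauto), mul_zero], if_neg]
        rintro rfl; exact hk hi
    · rw [Finset.sum_eq_zero fun j _ => by rw [hR0 i j (by tauto), zero_mul]]
      simp [hi]
  have h2 : Q.transpose = -Q := by
    ext i j; rw [Matrix.transpose_apply, Matrix.neg_apply, hQ]
  have hPt : P.transpose = P := by rw [hP, Matrix.diagonal_transpose]
  have h3 : Q * (-R.transpose) = P := by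
    have h4 := congrArg Matrix.transpose h1
    rw [Matrix.transpose_mul, h2, hPt] at h4
    rw [← h4, Matrix.mul_neg, Matrix.neg_mul]
  have h5 : R * P = R := by
    ext i j
    rw [hP, Matrix.mul_diagonal]
    by_cases hj : p j
    · rw [if_pos hj, mul_one]
    · rw [hR0 i j (by tauto), zero_mul]
  have h6 : P * (-R.transpose) = -R.transpose := by
    ext i j
    rw [hP, Matrix.diagonal_mul, Matrix.neg_apply, Matrix.transpose_apply]
    by_cases hi : p i
    · rw [if_pos hi, one_mul]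
    · rw [hR0 j i (by tauto), neg_zero, mul_zero]
  have h7 : R = -R.transpose := by
    calc R = R * P := h5.symm
      _ = R * (Q * (-R.transpose)) := by rw [h3]
      _ = (R * Q) * (-R.transpose) := by rw [Matrix.mul_assoc]
      _ = -R.transpose := by rw [h1, h6]
  have h8 := congrFun (congrFun h7 i) j
  rw [Matrix.neg_apply, Matrix.transpose_apply] at h8
  exact h8

/-- The Hodge classes on the powers, for general systems of classes. -/
theorem pow_gen (hfft : S_FFT) (Q : ClassPred S.W) {w : ℕ} (hd : X.dim = w) (hw : Odd w)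
    (hother : ∀ i, i ≠ w → ∀ c ∈ S.W.gr X i, c ∈ (hodgePred S).sp X)
    (hfull : ∀ x y : VV S w X, op2 (ifm S w X) x y ∈ GZ S w ∅ X)
    (hA : ∀ j c, IsHodge S X j c → Q.P X j c) (n : ℕ) {j : ℕ} {c : S.W.H (pw X n)}
    (hc : IsHodge S (pw X n) j c) : c ∈ Q.sp (pw X n) := by
  obtain ⟨ι, _, _, e, deg, hdeg⟩ := exists_gbasis S.W X
  obtain ⟨p, hpd⟩ : ∃ p : ι → Prop, p = fun i => deg i = w := ⟨_, rfl⟩
  have hpi : ∀ i, p i ↔ deg i = w := fun i => by rw [hpd]
  have : DecidablePred p := fun i => decidable_of_iff _ (hpi i).symm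
  have he0 : ∀ i, ¬ p i → e i ∈ (hodgePred S).sp X := fun i hi =>
    hother (deg i) (fun h => hi ((hpi i).2 h)) (e i) (hdeg i)
  have heQ : ∀ i, ¬ p i → e i ∈ Q.sp X := fun i hi =>
    ClassPred.sp_ind (Q := hodgePred S) (q := fun x => x ∈ Q.sp X)
      (fun j x hx => ClassPred.sp_of (Q := Q) (hA j x hx)) (Submodule.zero_mem _)
      (fun a b ha hb => Submodule.add_mem _ ha hb) (he0 i hi)
  have hdw : ∀ i, p i → e i ∈ S.W.gr X w := fun i hi => (hpi i).1 hi ▸ hdeg i
  have hp : ∀ i, e i ∈ PH S.W X (pr p i : ℕ) := by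
    intro i
    by_cases hi : p i
    · rw [pr_pos hi]
      refine PH.of' ?_ (hdw i hi)
      have := Nat.odd_iff.1 hw
      omega
    · rw [pr_neg hi]
      exact ClassPred.sp_even (he0 i hi)
  -- the intersection form
  choose G hG using fun i j => S.rat (S.W.tr X (e i * e j))
  have hGa : ∀ i j, p i → p j → G i j = -G j i := by
    intro i j hi hj
    have h1 := PH.comm (hp i) (hp j)
    rw [pr_pos hi, pr_pos hj, mul_one, pow_one, neg_smul, one_smul] at h1
    have h2 : ((G i j : ℚ) : S.W.K) = ((-G j i : ℚ) : S.W.K) := by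
      rw [hG, h1, map_neg, Rat.cast_neg, hG]
    exact Rat.cast_injective h2
  have hG0 : ∀ i j, p i → ¬ p j → G i j = 0 := by
    intro i j hi hj
    have h2 : ((G i j : ℚ) : S.W.K) = ((0 : ℚ) : S.W.K) := by
      rw [hG, Rat.cast_zero]
      refine S.W.tr_eq_zero (S.W.mul_mem (hdw i hi) (hdeg j)) ?_
      have h3 : deg j ≠ w := fun h => hj ((hpi j).2 h)
      omega
    exact Rat.cast_injective h2
  -- the diagonal
  obtain ⟨D, hD⟩ := cls_surj e 1 (show S.W.H (pw X 1) from S.W.push (diag X) 1)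
  have hQ : ∀ i j, Qm p G i j = -Qm p G j i := by
    intro i j
    rw [Qm, Qm]
    by_cases h : p i ∧ p j
    · rw [if_pos h, if_pos h.symm, hGa i j h.1 h.2]
    · rw [if_neg h, if_neg fun h' => h h'.symm, neg_zero]
  have hQ0 : ∀ i j, ¬ (p i ∧ p j) → Qm p G i j = 0 := fun i j h => if_neg h
  have hR0 : ∀ i j, ¬ (p i ∧ p j) → Rm p D i j = 0 := fun i j h => if_neg h
  have hRQ : ∀ i k, p i → p k → ∑ j, Rm p D i j * Qm p G j k = if i = k then 1 else 0 := by
    intro i k hi hk
    rw [← diag_inv hp hD hG k i]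
    refine Finset.sum_congr rfl fun j _ => ?_
    rw [pr_pos hi, pr_pos hk, hQ j k, Rm, Qm]
    by_cases hj : p j
    · rw [if_pos ⟨hi, hj⟩, if_pos ⟨hk, hj⟩]; ring
    · rw [if_neg fun h => hj h.2, hG0 k j hk hj]; ring
  have hRa := anti_of_inv hQ hR0 hQ0 hRQ
  -- the arrays
  have hdp : dp S.W X ∈ (Q.sys.csys X).C 1 := dp_mem hp heQ hD
  have hfam : PT (fun n => arrc e (Q.sys.csys X) n) :=
    { perm := fun n σ a ha => arrc_perm hp hdp n σ ha
      tens := fun n m a b ha hb => arrc_tens e n m ha hb }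
  obtain ⟨a, rfl⟩ := cls_surj e n c
  -- the relation
  have hrel : ∀ u v, p u → p v → ∀ x : Fin (n + 1) → ι,
      ∑ l, (Rm p D v (x l) * a (Function.update x l u) +
        Rm p D u (x l) * a (Function.update x l v)) = 0 := by
    intro u v hu hv x
    have hmem : ∀ u, ∑ i, cc S ((Rm p D u i : ℚ) : ℂ) • em S.W ℂ (e i) ∈ (CW S).gr X w := by
      intro u
      refine Submodule.sum_mem _ fun i _ => ?_
      by_cases hi : p i
      · exact Submodule.smul_mem _ _ (em_gr (hdw i hi))
      · rw [hR0 u i fun h => hi h.2, Rat.cast_zero]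
        have h0 : cc S 0 • em S.W ℂ (e i) = 0 := zero_smul (CW S).K _
        rw [h0]
        exact Submodule.zero_mem _
    obtain ⟨F, hF, -, h1⟩ := hfull ⟨_, hmem u⟩ ⟨_, hmem v⟩
    have htr : ∀ u j, p u → p j → (CW S).tr X ((∑ i, cc S ((Rm p D u i : ℚ) : ℂ) •
        em S.W ℂ (e i)) * em S.W ℂ (e j)) = cc S (((if u = j then 1 else 0 : ℚ)) : ℂ) := by
      intro u j hu hj
      rw [← hRQ u j hu hj, Finset.sum_mul, map_sum, Rat.cast_sum]
      have h5 : ∀ (s : ι → ℂ), cc S (∑ l, s l) = ∑ l, cc S (s l) := fun s => rfl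
      rw [h5]
      refine Finset.sum_congr rfl fun i _ => ?_
      rw [smul_mul_assoc, map_smul, ← em_mul, em_tr, ← hG, Rat.cast_mul]
      by_cases hi : p i
      · rw [Qm, if_pos ⟨hi, hj⟩]
        have h6 : Y121.AH.ex S.W ℂ ((G i j : ℚ) : S.W.K) = cc S ((G i j : ℚ) : ℂ) := ex_rat _
        rw [smul_eq_mul, h6]
        rfl
      · rw [hR0 u i fun h => hi h.2, Rat.cast_zero, zero_mul]
        exact zero_smul (CW S).K _
    have hM : ∀ j, F X (em S.W ℂ (e j)) = ∑ i, cc S ((((if u = j then Rm p D v i else 0) +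
        (if v = j then Rm p D u i else 0) : ℚ)) : ℂ) • em S.W ℂ (e i) := by
      intro j
      by_cases hj : p j
      · rw [← h1 ⟨em S.W ℂ (e j), em_gr (hdw j hj)⟩]
        have h2 : ∀ y z x : VV S w X, ((op2 (ifm S w X) y z x : VV S w X) : (CW S).H X) =
            ifm S w X y x • (z : (CW S).H X) + ifm S w X z x • (y : (CW S).H X) :=
          fun _ _ _ => rfl
        rw [h2, ifm_apply, ifm_apply]
        change (CW S).tr X ((∑ i, cc S ((Rm p D u i : ℚ) : ℂ) • em S.W ℂ (e i)) *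
          em S.W ℂ (e j)) • (∑ i, cc S ((Rm p D v i : ℚ) : ℂ) • em S.W ℂ (e i)) +
          (CW S).tr X ((∑ i, cc S ((Rm p D v i : ℚ) : ℂ) • em S.W ℂ (e i)) *
          em S.W ℂ (e j)) • (∑ i, cc S ((Rm p D u i : ℚ) : ℂ) • em S.W ℂ (e i)) = _
        rw [htr u j hu hj, htr v j hv hj, Finset.smul_sum, Finset.smul_sum,
          ← Finset.sum_add_distrib]
        refine Finset.sum_congr rfl fun i _ => ?_
        rw [smul_smul, smul_smul, ← add_smul]
        congr 1
        change ((((if u = j then 1 else 0 : ℚ)) : ℂ) * ((Rm p D v i : ℚ) : ℂ) +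
          (((if v = j then 1 else 0 : ℚ)) : ℂ) * ((Rm p D u i : ℚ) : ℂ) : ℂ) = _
        rw [← Rat.cast_mul, ← Rat.cast_mul, ← Rat.cast_add, ite_mul, ite_mul, one_mul, one_mul,
          zero_mul, zero_mul]
        rfl
      · rw [fam_sp hF (he0 j hj)]
        symm
        refine Finset.sum_eq_zero fun i _ => ?_
        rw [if_neg (by rintro rfl; exact hj hu), if_neg (by rintro rfl; exact hj hv), add_zero,
          Rat.cast_zero]
        exact zero_smul (CW S).K _
    have h3 := rel_of_der e hF.isDer (fun j i => (if u = j then Rm p D v i else 0) +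
        (if v = j then Rm p D u i else 0)) hM n a (hF.hodge hc) x
    rw [← h3]
    refine Finset.sum_congr rfl fun l _ => ?_
    simp only [add_mul, Finset.sum_add_distrib, ite_mul, zero_mul, Finset.sum_ite_eq,
      Finset.mem_univ, if_true]
  have hmain := hfft ι p (Rm p D) (Qm p G) hRa hQ hR0 hQ0 hRQ
    (fun κ => AQ (fun n => arrc e (Q.sys.csys X) n) κ)
    (fun κ l f a ha => PT.rei f ha) (fun κ l _ _ a ha b hb => hfam.tensQ ha hb)
    (fun κ _ a => PT.empty a) ?_ ?_ (Fin (n + 1)) a hrel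
  · exact hmain n (Equiv.refl _)
  · intro i hi
    refine hfam.of (n := 0) (Equiv.ofUnique Unit (Fin 1)) ?_
    change cls e 0 _ ∈ Q.sp X
    have h0 : ∀ w : Fin 1 → ι, wb e 0 w = e (w 0) := fun w => wb_zero e w
    have h1 : cls e 0 (fun w : Fin (0 + 1) → ι => if w 0 = i then (1 : ℚ) else 0) = e i := by
      rw [cls, Finset.sum_eq_single (fun _ => i)]
      · rw [if_pos rfl, Rat.cast_one, one_smul, h0]
      · intro w _ hw'
        rw [if_neg, Rat.cast_zero, zero_smul]
        intro h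
        apply hw'
        funext l
        have hl : l = 0 := Subsingleton.elim (α := Fin 1) l 0
        rw [hl]
        exact h
      · intro h; exact absurd (Finset.mem_univ _) h
    have h2 := heQ i hi
    rw [← h1] at h2
    exact h2
  · refine hfam.of (n := 1) ((Equiv.sumCongr (Equiv.ofUnique Unit (Fin 1))
      (Equiv.ofUnique Unit (Fin 1))).trans finSumFinEquiv) ?_
    exact rm_mem hp heQ hD

/-- **Varieties with a full symplectic Lie algebra.** If the classes on `X` of degree different from the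
odd dimension are combinations of Hodge classes, the Lie algebra contains all symmetric squares on the
middle cohomology and the Hodge classes on `X` are in the system, then so are those on all powers. -/
theorem abs_pow (hfft : S_FFT) {T : Pool.Agent.Y121.AHS.HodgeTheory ops} {A : ClassSystem T}
    {X : 𝒱.Obj} {w : ℕ} (hd : X.dim = w) (hw : Odd w)
    (hother : ∀ i, i ≠ w → ∀ c ∈ T.W.gr X i, c ∈ (hodgePred (toH T)).sp X)
    (hfull : ∀ x y : VV (toH T) w X, op2 (ifm (toH T) w X) x y ∈ GZ (toH T) w ∅ X)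
    (hA : AllIn A X) (n : ℕ) : AllIn A (pw X n) := by
  intro j c hc
  have h2 : c ∈ (toPred A).sp (pw X n) :=
    pow_gen (S := toH T) hfft (toPred A) hd hw hother hfull (fun j c hc => hA j c hc) n hc
  have h3 := ClassPred.sp_proj h2 j
  have h4 : H914.proj (T.W.isInternal (pw X n)) (2 * j) c = c := proj_same _ hc.1
  have h5 : (toPred A).P (pw X n) j
      (H914.proj (T.W.isInternal (pw X n)) (2 * j) c) := h3
  rw [h4] at h5
  exact h5

end Pool.Agent.T2h63.CY
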