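import Pool.Agent.T2h63.CY.Stm
import Pool.Agent.TH125.Nod.Fft2

/-! The first fundamental theorem for arrays. -/

set_option autoImplicit false
set_option linter.unusedSectionVars false

namespace Pool.Agent.T2h63.CY

open Function

section

variable {ι : Type} [Fintype ι] [DecidableEq ι] {Fm : ∀ κ : Type, Submodule ℚ ((κ → ι) → ℚ)}
  (hre : ∀ (κ l : Type) (e : κ ≃ l), ∀ a ∈ Fm κ, (fun i : l → ι => a (i ∘ e)) ∈ Fm l)
  (hpr : ∀ (κ l : Type) [Fintype κ] [Fintype l], ∀ a ∈ Fm κ, ∀ b ∈ Fm l,
    (fun i : κ ⊕ l → ι => a (i ∘ Sum.inl) * b (i ∘ Sum.inr)) ∈ Fm (κ ⊕ l))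
  (hem : ∀ (κ : Type) [IsEmpty κ] (a : (κ → ι) → ℚ), a ∈ Fm κ)

include hre hpr hem in
/-- Products of families of arrays. -/
theorem prodmem (m : ℕ) : ∀ (κ : Fin m → Type) [∀ l, Fintype (κ l)] (b : ∀ l, (κ l → ι) → ℚ)
    (_ : ∀ l, b l ∈ Fm (κ l)),
    (fun w : (Σ l, κ l) → ι => ∏ l, b l (fun k => w ⟨l, k⟩)) ∈ Fm (Σ l, κ l) := by
  induction m with
  | zero => exact fun κ _ b _ => hem _ _
  | succ m ih =>
    intro κ _ b hb
    let g : (Σ l : Fin m, κ l.castSucc) ⊕ κ (Fin.last m) → Σ l, κ l :=
      Sum.elim (fun x => ⟨x.1.castSucc, x.2⟩) (fun k => ⟨Fin.last m, k⟩)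
    have hg : Bijective g := by
      constructor
      · rintro (⟨a, x⟩ | x) (⟨b, y⟩ | y) h
        · simp only [g, Sum.elim_inl, Sigma.mk.injEq] at h
          obtain ⟨h1, h2⟩ := h
          have h3 := Fin.castSucc_injective _ h1
          subst h3
          rw [eq_of_heq h2]
        · simp only [g, Sum.elim_inl, Sum.elim_inr, Sigma.mk.injEq] at h
          exact absurd h.1 (Fin.castSucc_lt_last a).ne
        · simp only [g, Sum.elim_inl, Sum.elim_inr, Sigma.mk.injEq] at h
          exact absurd h.1.symm (Fin.castSucc_lt_last b).ne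
        · simp only [g, Sum.elim_inr, Sigma.mk.injEq, heq_eq_eq, true_and] at h
          rw [h]
      · rintro ⟨l, x⟩
        induction l using Fin.lastCases with
        | last => exact ⟨Sum.inr x, rfl⟩
        | cast l => exact ⟨Sum.inl ⟨l, x⟩, rfl⟩
    have h1 := hre _ _ (Equiv.ofBijective g hg) _
      (hpr _ _ _ (ih (fun l => κ l.castSucc) (fun l => b l.castSucc) fun l => hb _) _
        (hb (Fin.last m)))
    convert h1 using 1
    funext w
    rw [Fin.prod_univ_castSucc]
    rfl

variable {p : ι → Prop} [DecidablePred p]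
  (hba : ∀ i, ¬ p i → (fun w : Unit → ι => if w () = i then (1 : ℚ) else 0) ∈ Fm Unit)

include hre hpr hem hba in
/-- The coordinate functions of the trivial part. -/
theorem deltamem (T : Type) [Fintype T] [DecidableEq T] (w0 : T → ι) (h : ∀ k, ¬ p (w0 k)) :
    (fun w : T → ι => if w = w0 then (1 : ℚ) else 0) ∈ Fm T := by
  let e := (Fintype.equivFin T).symm
  have h1 := prodmem hre hpr hem (Fintype.card T) (fun _ => Unit)
    (fun l w => if w () = w0 (e l) then (1 : ℚ) else 0) fun l => hba _ (h _)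
  let g : (Σ _ : Fin (Fintype.card T), Unit) ≃ T :=
    (Equiv.sigmaEquivProd _ _).trans ((Equiv.prodPUnit _).trans e)
  have h2 := hre _ _ g _ h1
  convert h2 using 1
  funext w
  have hge : ∀ l, g ⟨l, ()⟩ = e l := fun l => rfl
  simp only [comp_apply, hge]
  by_cases hw : w = w0
  · rw [if_pos hw, hw]
    simp
  · rw [if_neg hw]
    obtain ⟨t, ht⟩ := Function.ne_iff.1 hw
    refine (Finset.prod_eq_zero (Finset.mem_univ (e.symm t)) ?_).symm
    rw [Equiv.apply_symm_apply, if_neg ht]

variable {R : Matrix ι ι ℚ}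
  (hR : (fun w : Unit ⊕ Unit → ι => R (w (Sum.inl ())) (w (Sum.inr ()))) ∈ Fm (Unit ⊕ Unit))

include hre hpr hem hR in
/-- Products of the form over a perfect matching. -/
theorem pairmem (T : Type) (m : ℕ) (e : Fin m × Fin 2 ≃ T) :
    (fun w : T → ι => ∏ l, R (w (e (l, 0))) (w (e (l, 1)))) ∈ Fm T := by
  have h1 := prodmem hre hpr hem m (fun _ => Unit ⊕ Unit)
    (fun _ w => R (w (Sum.inl ())) (w (Sum.inr ()))) fun _ => hR
  let q : Unit ⊕ Unit ≃ Fin 2 :=
    { toFun := Sum.elim (fun _ => 0) (fun _ => 1)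
      invFun := fun x => if x = 0 then Sum.inl () else Sum.inr ()
      left_inv := by rintro (x | x) <;> rfl
      right_inv := by
        intro x
        fin_cases x <;> rfl }
  let g : (Σ _ : Fin m, (Unit ⊕ Unit)) ≃ T :=
    (Equiv.sigmaEquivProd _ _).trans (((Equiv.refl _).prodCongr q).trans e)
  have h2 := hre _ _ g _ h1
  convert h2 using 1
  rfl

include hre hpr hem hR in
/-- Extension by zero of a combination of products of the form. -/
theorem genmem (hR0 : ∀ i j, ¬ (p i ∧ p j) → R i j = 0) (T : Type) [Fintype T] [DecidableEq T]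
    (f : (T → {i // p i}) → ℚ)
    (hf : f ∈ Pool.Agent.TH125.Nod.Gen (fun _ : {i // p i} => ())
      (R.submatrix (fun i : {i // p i} => i.1) (fun i : {i // p i} => i.1)) (fun _ : T => ())) :
    (fun w : T → ι => if h : ∀ k, p (w k) then f (fun k => ⟨w k, h k⟩) else 0) ∈ Fm T := by
  unfold Pool.Agent.TH125.Nod.Gen at hf
  induction hf using Submodule.span_induction with
  | mem f h =>
    obtain ⟨m, e, c, rfl⟩ := h
    have h1 := (Fm T).smul_mem c (pairmem hre hpr hem hR T m e)
    convert h1 using 1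
    funext w
    rw [Pi.smul_apply, smul_eq_mul]
    split_ifs with h
    · unfold Pool.Agent.TH125.Nod.gen
      rw [if_pos fun _ => rfl, smul_eq_mul, mul_comm]
      rfl
    · rw [not_forall] at h
      obtain ⟨k, hk⟩ := h
      have hz : ∏ l, R (w (e (l, 0))) (w (e (l, 1))) = 0 := by
        refine Finset.prod_eq_zero (Finset.mem_univ (e.symm k).1) (hR0 _ _ fun h2 => hk ?_)
        obtain ⟨⟨l, x⟩, hx⟩ : ∃ y, e.symm k = y := ⟨_, rfl⟩
        have hk' : e (l, x) = k := by rw [← hx, Equiv.apply_symm_apply]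
        rw [hx] at h2
        fin_cases x
        · rw [← hk']; exact h2.1
        · rw [← hk']; exact h2.2
      rw [hz, mul_zero]
  | zero =>
    convert (Fm T).zero_mem using 1
    funext w
    simp
  | add f g _ _ h1 h2 =>
    convert (Fm T).add_mem h1 h2 using 1
    funext w
    rw [Pi.add_apply]
    split_ifs with h
    · rfl
    · rw [add_zero]
  | smul c f _ h1 =>
    convert (Fm T).smul_mem c h1 using 1
    funext w
    rw [Pi.smul_apply]
    split_ifs with h
    · rfl
    · rw [smul_zero]

end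

theorem t_FFT : S_FFT := by
  intro ι _ _ p _ R Q hRa hQa hR0 hQ0 hRQ Fm hre hpr hem hba hRF κ _ _ a hinv
  let pat : ι → Option ι := fun i => if p i then none else some i
  have hdec : a = ∑ c : κ → Option ι, fun w : κ → ι => if pat ∘ w = c then a w else 0 := by
    funext w
    rw [Finset.sum_apply, Finset.sum_ite_eq, if_pos (Finset.mem_univ _)]
  rw [hdec]
  refine Submodule.sum_mem _ fun c _ => ?_
  by_cases hc : ∀ k i, c k = some i → ¬ p i
  swap
  · push Not at hc
    obtain ⟨k, i, h1, h2⟩ := hc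
    convert (Fm κ).zero_mem using 1
    funext w
    rw [if_neg, Pi.zero_apply]
    intro h
    have h3 := congrFun h k
    rw [h1] at h3
    simp only [comp_apply, pat] at h3
    split_ifs at h3 with h4
    rw [Option.some.injEq] at h3
    exact h4 (h3 ▸ h2)
  -- the letters of the trivial part
  let w0 : {k // ¬ c k = none} → ι := fun k => (c k.1).get (Option.isSome_iff_ne_none.2 k.2)
  have hw0 : ∀ k, c k.1 = some (w0 k) := fun k => (Option.some_get _).symm
  have hw0p : ∀ k, ¬ p (w0 k) := fun k => hc k.1 _ (hw0 k)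
  let gl : ({k // c k = none} → {i // p i}) → κ → ι :=
    fun J k => if h : c k = none then (J ⟨k, h⟩).1 else w0 ⟨k, h⟩
  have hgl1 : ∀ J (k : {k // c k = none}), gl J k.1 = (J k).1 := fun J k => dif_pos k.2
  have hgl2 : ∀ J (k : {k // ¬ c k = none}), gl J k.1 = w0 k := fun J k => dif_neg k.2
  have hglu : ∀ J (k : {k // c k = none}) (u : {i // p i}),
      gl (update J k u) = update (gl J) k.1 u.1 := by
    intro J k u
    funext x
    by_cases hx : x = k.1
    · subst hx
      rw [hgl1, update_self, update_self]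
    · rw [update_of_ne hx]
      by_cases h : c x = none
      · rw [hgl1 _ ⟨x, h⟩, hgl1 _ ⟨x, h⟩, update_of_ne]
        intro h2
        exact hx (congrArg Subtype.val h2)
      · rw [hgl2 _ ⟨x, h⟩, hgl2 _ ⟨x, h⟩]
  -- the first fundamental theorem
  have hkey := Pool.Agent.TH125.Nod.fft (K := ℚ) (B := {i // p i}) (ι := Unit) (M := ℚ)
    (κ := fun _ => ()) (Q := R.submatrix (fun i => i.1) (fun i => i.1))
    (R := Q.submatrix (fun i => i.1) (fun i => i.1)) (s := fun _ => -1) (fun _ => Or.inr rfl)
    (fun a b h => absurd rfl h)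
    (fun a b => by
      show R a.1 b.1 = _ * R b.1 a.1
      rw [hRa a.1 b.1]; push_cast; ring)
    (by
      ext x y
      rw [Matrix.mul_apply, Matrix.one_apply]
      show ∑ j : {i // p i}, R x.1 j.1 * Q j.1 y.1 = _
      have h1 := hRQ x.1 y.1 x.2 y.2
      have h2 : ∑ j : {i // p i}, R x.1 j.1 * Q j.1 y.1 = ∑ j, R x.1 j * Q j y.1 := by
        refine Finset.sum_of_injOn Subtype.val Subtype.val_injective.injOn (by simp) ?_ (by simp)
        intro j _ hj
        rw [hR0 _ _ fun h => hj ⟨⟨j, h.2⟩, by simp⟩, zero_mul]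
      rw [h2, h1]
      simp only [Subtype.ext_iff])
    (Fintype.card {k // c k = none}) {k // c k = none} (fun _ => ())
    (fun J => a (gl J)) rfl (fun I hI => absurd (fun _ => rfl) hI)
    (by
      intro u v _ J
      have h1 := hinv u.1 v.1 u.2 v.2 (gl J)
      have h2 : ∑ k : {k // c k = none}, (R v.1 (gl J k.1) * a (update (gl J) k.1 u.1) +
          R u.1 (gl J k.1) * a (update (gl J) k.1 v.1)) =
          ∑ k, (R v.1 (gl J k) * a (update (gl J) k u.1) +
          R u.1 (gl J k) * a (update (gl J) k v.1)) := by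
        refine Finset.sum_of_injOn Subtype.val Subtype.val_injective.injOn (by simp) ?_ (by simp)
        intro k _ hk
        have hk' : ¬ c k = none := fun h => hk ⟨⟨k, h⟩, by simp⟩
        have h3 : ∀ x : ι, R x (gl J k) = 0 := by
          intro x
          refine hR0 _ _ fun h => ?_
          have h4 := h.2
          rw [hgl2 J ⟨k, hk'⟩] at h4
          exact hw0p _ h4
        rw [h3, h3, zero_mul, zero_mul, add_zero]
      rw [← h2] at h1
      refine Eq.trans (Finset.sum_congr rfl fun k _ => ?_) h1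
      show R v.1 (J k).1 * a (gl (update J k u)) -
        (((-1 : ℤ) : ℚ) * R u.1 (J k).1) * a (gl (update J k v)) = _
      rw [hglu, hglu, hgl1]
      push_cast
      ring)
    (fun i hi => by norm_num at hi)
  have h1 := genmem hre hpr hem hRF hR0 _ _ hkey
  have h2 := deltamem hre hpr hem hba _ w0 hw0p
  have h3 := hre _ _ (Equiv.sumCompl fun k => c k = none) _ (hpr _ _ _ h1 _ h2)
  convert h3 using 1
  funext w
  by_cases hw : pat ∘ w = c
  · have e1 : ∀ k : {k // c k = none}, p (w k.1) := by
      intro k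
      have := congrFun hw k.1
      rw [k.2] at this
      simp only [comp_apply, pat] at this
      by_contra hn
      rw [if_neg hn] at this
      exact absurd this (by simp)
    have e2 : ∀ k : {k // ¬ c k = none}, w k.1 = w0 k := by
      intro k
      have := congrFun hw k.1
      rw [hw0 k] at this
      simp only [comp_apply, pat] at this
      split_ifs at this
      exact Option.some.inj this
    have e3 : (w ∘ (Equiv.sumCompl fun k => c k = none)) ∘ Sum.inr = w0 := funext e2
    have e4 : ∀ k, p (((w ∘ (Equiv.sumCompl fun k => c k = none)) ∘ Sum.inl) k) := e1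
    have e5 : ∀ J : {k // c k = none} → {i // p i}, (∀ k, (J k).1 = w k.1) → w = gl J := by
      intro J hJ
      funext k
      by_cases h : c k = none
      · exact ((hgl1 J ⟨k, h⟩).trans (hJ ⟨k, h⟩)).symm
      · exact ((hgl2 J ⟨k, h⟩).trans (e2 ⟨k, h⟩).symm).symm
    rw [if_pos hw, dif_pos e4, if_pos e3, mul_one]
    have e6 := e5 (fun k => ⟨w k.1, e1 k⟩) fun k => rfl
    exact congrArg a e6
  · rw [if_neg hw]
    by_contra hne
    apply hw
    have hA : ∀ k, p (((w ∘ (Equiv.sumCompl fun k => c k = none)) ∘ Sum.inl) k) := by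
      by_contra hn
      rw [dif_neg hn, zero_mul] at hne
      exact hne rfl
    have hB : (w ∘ (Equiv.sumCompl fun k => c k = none)) ∘ Sum.inr = w0 := by
      by_contra hn
      rw [if_neg hn, mul_zero] at hne
      exact hne rfl
    funext k
    by_cases h : c k = none
    · rw [h]
      simp only [comp_apply, pat]
      exact if_pos (hA ⟨k, h⟩)
    · have h4 : w k = w0 ⟨k, h⟩ := congrFun hB ⟨k, h⟩
      rw [hw0 ⟨k, h⟩]
      simp only [comp_apply, pat]
      rw [h4]
      exact if_neg (hw0p _)

end Pool.Agent.T2h63.CY
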