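import Pool.Agent.T2h63.AH.LA

/-! Complements from a sesquilinear form. -/

set_option autoImplicit false

namespace Pool.Agent.T2h63.CY

open Module Polynomial

section

variable {L V : Type*} [Field L] [AddCommGroup V] [Module L V]

theorem aeval_stable {N : Module.End L V} {U : Submodule L V} (h : ∀ x ∈ U, N x ∈ U) (P : L[X]) :
    ∀ x ∈ U, aeval N P x ∈ U := by
  induction P using Polynomial.induction_on' with
  | add p q hp hq =>
    intro x hx
    rw [map_add, LinearMap.add_apply]
    exact U.add_mem (hp x hx) (hq x hx)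
  | monomial n a =>
    induction n with
    | zero =>
      intro x hx
      rw [monomial_zero_left, aeval_C]
      exact U.smul_mem a hx
    | succ n ih =>
      intro x hx
      rw [← monomial_mul_X, map_mul, aeval_X, Module.End.mul_apply]
      exact ih _ (h x hx)

/-- The components of an element of a stable subspace. -/
theorem exists_comp {ι : Type*} {N : Module.End L V} {E : ι → Submodule L V} {μ : ι → L}
    (hμ : Function.Injective μ) (hE : ∀ r, ∀ x ∈ E r, N x = μ r • x) (htop : ⨆ r, E r = ⊤)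
    {U : Submodule L V} (hU : ∀ x ∈ U, N x ∈ U) {x : V} (hx : x ∈ U) :
    ∃ (s : Finset ι) (f : ι → V), (∀ i, f i ∈ E i) ∧ (∀ i ∈ s, f i ∈ U) ∧ ∑ i ∈ s, f i = x := by
  classical
  have h1 : x ∈ ⨆ r, E r := by rw [htop]; trivial
  obtain ⟨f, hf, hfx⟩ := (Submodule.mem_iSup_iff_exists_finsupp E x).1 h1
  refine ⟨f.support, f, hf, ?_, hfx⟩
  intro i hi
  have h2 : aeval N (Lagrange.basis f.support μ i) x = f i := by
    rw [← hfx, Finsupp.sum, map_sum, Finset.sum_eq_single i]
    · rw [AH.aeval_eigen (hE i _ (hf i)), Lagrange.eval_basis_self hμ.injOn hi, one_smul]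
    · intro j hj hji
      rw [AH.aeval_eigen (hE j _ (hf j)), Lagrange.eval_basis_of_ne hji.symm hj, zero_smul]
    · intro h
      exact absurd hi h
  rw [← h2]
  exact aeval_stable hU _ x hx

/-- Stable complements. -/
theorem abs_compl {ι : Type*} [FiniteDimensional L V] {N : Module.End L V}
    {G : Set (Module.End L V)} (hN : N ∈ G) {E : ι → Submodule L V} {μ : ι → L}
    (hμ : Function.Injective μ) (hE : ∀ r, ∀ x ∈ E r, N x = μ r • x) (htop : ⨆ r, E r = ⊤)
    (σ : L → L) (b : V → V →ₗ[L] L) (hb1 : ∀ x y, b (x + y) = b x + b y)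
    (hb2 : ∀ (c : L) x, b (c • x) = σ c • b x)
    (horth : ∀ r s, r ≠ s → ∀ x ∈ E r, ∀ y ∈ E s, b x y = 0)
    (hpos : ∀ r, ∀ x ∈ E r, b x x = 0 → x = 0)
    (hadj : ∀ A ∈ G, ∃ A' ∈ G, ∀ z y, b z (A y) = - b (A' z) y)
    {U : Submodule L V} (hU : ∀ A ∈ G, ∀ x ∈ U, A x ∈ U) :
    ∃ P : Module.End L V, (∀ x, P x ∈ U) ∧ (∀ x ∈ U, P x = x) ∧ ∀ A ∈ G, P * A = A * P := by
  classical
  have hb0 : b 0 = 0 := by
    have := hb1 0 0
    rwa [add_zero, left_eq_add] at this
  -- the form is nondegenerate on the subspace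
  have hnd : ∀ u ∈ U, (∀ z ∈ U, b z u = 0) → u = 0 := by
    intro u hu h
    obtain ⟨s, f, h1, h2, h3⟩ := exists_comp hμ hE htop (fun x hx => hU N hN x hx) hu
    rw [← h3]
    refine Finset.sum_eq_zero fun i hi => hpos i _ (h1 i) ?_
    have h4 := h (f i) (h2 i hi)
    rw [← h3, map_sum, Finset.sum_eq_single i] at h4
    · exact h4
    · intro j _ hji
      exact horth i j hji.symm _ (h1 i) _ (h1 j)
    · intro h'
      exact absurd hi h'
  let z := Module.finBasis L U
  let Λ : V →ₗ[L] (Fin (finrank L U) → L) := LinearMap.pi fun i => b (z i)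
  have hker : ∀ y, Λ y = 0 → ∀ v ∈ U, b v y = 0 := by
    intro y hy v hv
    have h1 : ∀ i, b (z i) y = 0 := fun i => congrFun hy i
    have h2 := z.sum_repr ⟨v, hv⟩
    have h3 : v = ∑ i, (z.repr ⟨v, hv⟩ i) • ((z i : U) : V) := by
      have := congrArg Subtype.val h2
      rw [AddSubmonoidClass.coe_finset_sum] at this
      exact this.symm
    rw [h3]
    have h4 : ∀ (s : Finset (Fin (finrank L U))),
        b (∑ i ∈ s, (z.repr ⟨v, hv⟩ i) • ((z i : U) : V)) y = 0 := by
      intro s
      induction s using Finset.induction_on with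
      | empty => rw [Finset.sum_empty, hb0, LinearMap.zero_apply]
      | insert i s hi ih =>
        rw [Finset.sum_insert hi, hb1, LinearMap.add_apply, ih, hb2, LinearMap.smul_apply, h1,
          smul_zero, add_zero]
    exact h4 _
  have hinj : Function.Injective (Λ ∘ₗ U.subtype) := by
    rw [← LinearMap.ker_eq_bot, LinearMap.ker_eq_bot']
    intro u hu
    exact Subtype.ext (hnd u.1 u.2 (hker u.1 hu))
  have hbij : Function.Bijective (Λ ∘ₗ U.subtype) :=
    ⟨hinj, (LinearMap.injective_iff_surjective_of_finrank_eq_finrank (by simp)).1 hinj⟩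
  let e := LinearEquiv.ofBijective _ hbij
  let P : Module.End L V := U.subtype ∘ₗ e.symm.toLinearMap ∘ₗ Λ
  have hP1 : ∀ x, P x ∈ U := fun x => (e.symm (Λ x)).2
  have hP2 : ∀ x ∈ U, P x = x := by
    intro x hx
    have h1 : e ⟨x, hx⟩ = Λ x := rfl
    show ((e.symm (Λ x) : U) : V) = x
    rw [← h1, LinearEquiv.symm_apply_apply]
  have hP3 : ∀ x, Λ (P x) = Λ x := fun x => e.apply_symm_apply (Λ x)
  refine ⟨P, hP1, hP2, fun A hA => LinearMap.ext fun y => ?_⟩
  rw [Module.End.mul_apply, Module.End.mul_apply]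
  have h1 : Λ (A (y - P y)) = 0 := by
    obtain ⟨A', hA', hadj'⟩ := hadj A hA
    have h2 := hker (y - P y) (by rw [map_sub, hP3, sub_self])
    funext i
    show b (z i) (A (y - P y)) = 0
    rw [hadj', h2 _ (hU A' hA' _ (z i).2), neg_zero]
  have h2 : P (A (y - P y)) = 0 := by
    show ((e.symm (Λ (A (y - P y))) : U) : V) = 0
    rw [h1, map_zero, ZeroMemClass.coe_zero]
  have h3 : A y = A (P y) + A (y - P y) := by rw [← map_add, add_sub_cancel]
  rw [h3, map_add, h2, add_zero, hP2 _ (hU A hA _ (hP1 y))]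

end

end Pool.Agent.T2h63.CY
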