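import Pool.Agent.T2h63.CY.ALL

/-! The level gap. -/

set_option autoImplicit false

namespace Pool.Agent.T2h63.CY

open Module

theorem t_GAP : S_GAP := by
  intro L V _ _ _ _ ψ G N hL hS hI w hw Ω Ω' hT h0 B hBG hB
  have hN := hS N hL.mem
  have hanti : ∀ x y, ψ x y = - ψ y x := by
    intro x y
    have h := hT.alt (x + y)
    simp only [map_add, LinearMap.add_apply, hT.alt, zero_add, add_zero] at h
    linear_combination h
  have hO : Ω ≠ 0 := by
    intro h
    have := hT.pair
    rw [h, map_zero, LinearMap.zero_apply] at this
    exact zero_ne_one this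
  have haV : Vec N (w - 2) (B Ω') := by
    have := hB.vec hT.vec'
    rwa [show -w + 2 * (w - 1) = w - 2 by ring] at this
  have hBa : B = op2 ψ (B Ω') Ω := by
    refine hT.ext fun j y h1 h2 h3 h4 => ?_
    rw [op2_apply]
    by_cases hj : j = -w
    · subst hj
      obtain ⟨d, rfl⟩ := hT.bot y h4
      rw [map_smul, map_smul, map_smul, orth hN (by omega) haV hT.vec', hT.pair, smul_zero,
        zero_smul, zero_add, smul_eq_mul, mul_one]
    · rw [pair' hT hN (by omega) j y hj h4, zero_smul, add_zero]
      by_cases hj2 : j = -w + 2
      · subst hj2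
        obtain ⟨c, hc⟩ := hT.top (B y) (by
          have := hB.vec h4
          rwa [show -w + 2 + 2 * (w - 1) = w by ring] at this)
        have h5 := hS B hBG y Ω'
        rw [hc, map_smul, LinearMap.smul_apply, hT.pair, smul_eq_mul, mul_one, hanti y] at h5
        rw [hc]
        congr 1
        linear_combination h5
      · have hj3 : j ≠ -w + 1 := by
          rintro rfl
          rw [Int.even_iff] at h3
          omega
        rw [hT.van (hB.vec h4) (by omega), orth hN (by omega) haV h4, zero_smul]
  set P : Set V := {a | Vec N (w - 2) a ∧ op2 ψ a Ω ∈ G} with hP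
  obtain ⟨U, hU1, hU2, hU3⟩ := t_WORD L V G N hL P (w - 2) (fun b hb => hb.1) (by
    rintro a ⟨ha1, ha2⟩ m hm C hC hd
    have hbr := hL.bra C hC _ ha2
    rw [op2_comm (hS C hC)] at hbr
    rcases eq_or_lt_of_le hm with h | h
    · subst h
      obtain ⟨c, hc⟩ := hT.top (C Ω) (by
        have := hd.vec hT.vec
        rwa [add_zero] at this)
      refine Submodule.subset_span ⟨?_, ?_⟩
      · have := hd.vec ha1
        rwa [add_zero] at this
      · rw [hc, op2_smul'] at hbr
        have := G.sub_mem hbr (G.smul_mem c ha2)
        rwa [add_sub_cancel_right] at this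
    · have hCO : C Ω = 0 := hT.van (hd.vec hT.vec) (by omega)
      have hCa : C a = 0 := by
        by_cases h2 : m = 2
        · subst h2
          obtain ⟨c, hc⟩ := hT.top (C a) (by
            have := hd.vec ha1
            rwa [show w - 2 + 2 = w by ring] at this)
          have hz : op2 ψ a (0 : V) = 0 := by
            have := op2_smul' (ψ := ψ) 0 a 0
            rwa [zero_smul, zero_smul] at this
          rw [hCO, hz, add_zero, hc, op2_smul] at hbr
          have hdeg : Deg N (2 * w) (c • op2 ψ Ω Ω) := by
            unfold Deg
            have h5 := op2_comm (ψ := ψ) hN Ω Ω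
            have h6 : N Ω = (w : L) • Ω := hT.vec
            rw [h6, op2_smul, op2_smul'] at h5
            rw [mul_smul_comm, smul_mul_assoc, ← smul_sub, h5]
            push_cast
            module
          have h7 := h0 _ hbr hdeg
          have h8 := congrArg (fun f : Module.End L V => f Ω') h7
          simp only [LinearMap.smul_apply, op2_apply, hT.pair, one_smul, LinearMap.zero_apply] at h8
          rw [hc]
          rcases smul_eq_zero.1 h8 with h9 | h9
          · rw [h9, zero_smul]
          · exfalso
            rw [← two_smul L, smul_eq_zero] at h9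
            rcases h9 with h9 | h9
            · exact two_ne_zero h9
            · exact hO h9
        · refine hT.van (hd.vec ha1) ?_
          rintro ⟨-, h3, h4⟩
          rw [Int.even_iff] at h4
          omega
      rw [hCa]
      exact Submodule.zero_mem _)
  have hUO : Ω ∉ U := by
    intro h
    refine hO (vec_zero (N := N) (k := w) (fun m => m < w) (lt_irrefl _) hT.vec ?_)
    have hle : Submodule.span L P ⊔ Submodule.span L {y | ∃ m : ℤ, m < w - 2 ∧ Vec N m y} ≤
        Submodule.span L {y | ∃ m : ℤ, m < w ∧ Vec N m y} := by
      refine sup_le (Submodule.span_mono ?_) (Submodule.span_mono ?_)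
      · rintro y ⟨h1, -⟩
        exact ⟨w - 2, by omega, h1⟩
      · rintro y ⟨m, h1, h2⟩
        exact ⟨m, by omega, h2⟩
    exact hle (hU3 h)
  rcases hI U hU2 with h | h
  · have h1 : B Ω' ∈ U := hU1 ⟨haV, by rw [← hBa]; exact hBG⟩
    rw [h, Submodule.mem_bot] at h1
    rw [hBa, h1]
    have := op2_smul (ψ := ψ) 0 0 Ω
    rwa [zero_smul, zero_smul] at this
  · exact absurd (by rw [h]; trivial) hUO

end Pool.Agent.T2h63.CY
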