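import Pool.Agent.T2h63.CY.ALL

/-! Skew operators are combinations of symmetric squares. -/

set_option autoImplicit false

namespace Pool.Agent.T2h63.CY

open Module

variable {L V : Type} [Field L] [CharZero L] [AddCommGroup V] [Module L V]

theorem skew_mem [Module.Finite L V] {ψ : LinearMap.BilinForm L V} (halt : ∀ x, ψ x x = 0)
    (hnd : ∀ x, (∀ y, ψ x y = 0) → x = 0) {A : Module.End L V}
    (hA : ∀ x y, ψ (A x) y + ψ x (A y) = 0) {a : Submodule L (Module.End L V)}
    (ha : ∀ x y, op2 ψ x y ∈ a) : A ∈ a := by
  have hanti : ∀ x y, ψ x y = - ψ y x := by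
    intro x y
    have h := halt (x + y)
    simp only [map_add, LinearMap.add_apply, halt, zero_add, add_zero] at h
    linear_combination h
  have hnd' : ψ.Nondegenerate := by
    constructor
    · exact hnd
    · intro y h
      refine hnd y fun x => ?_
      rw [hanti, h x, neg_zero]
  let b := Module.finBasis L V
  let e := LinearMap.BilinForm.dualBasis ψ hnd' b
  have he : ∀ i j, ψ (e i) (b j) = if j = i then 1 else 0 := fun i j =>
    LinearMap.BilinForm.apply_dualBasis_left hnd' b i j
  have hy : ∀ y, ∑ i, ψ y (b i) • e i = y := by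
    intro y
    rw [← sub_eq_zero]
    refine hnd _ fun x => ?_
    rw [← b.sum_repr x, map_sum]
    refine Finset.sum_eq_zero fun j _ => ?_
    rw [map_smul, map_sub, LinearMap.sub_apply, map_sum, LinearMap.sum_apply,
      Finset.sum_eq_single j]
    · rw [map_smul, LinearMap.smul_apply, he, if_pos rfl, smul_eq_mul, smul_eq_mul, mul_one,
        sub_self, mul_zero]
    · intro i _ hij
      rw [map_smul, LinearMap.smul_apply, he, if_neg (Ne.symm hij), smul_zero]
    · intro h; exact absurd (Finset.mem_univ j) h
  have key : A = (2 : L)⁻¹ • ∑ i, op2 ψ (e i) (A (b i)) := by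
    refine b.ext fun j => ?_
    rw [LinearMap.smul_apply, LinearMap.sum_apply]
    have h1 : ∑ i, op2 ψ (e i) (A (b i)) (b j) = A (b j) + A (b j) := by
      have h2 : ∀ i, op2 ψ (e i) (A (b i)) (b j) =
          (if j = i then (1 : L) else 0) • A (b i) + ψ (A (b j)) (b i) • e i := by
        intro i
        rw [op2_apply, he]
        have h3 : ψ (A (b i)) (b j) = ψ (A (b j)) (b i) := by
          rw [hanti (A (b j)) (b i)]
          linear_combination hA (b i) (b j)
        rw [h3]
      rw [Finset.sum_congr rfl fun i _ => h2 i, Finset.sum_add_distrib, hy]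
      simp
    rw [h1, ← two_smul L, smul_smul, inv_mul_cancel₀ two_ne_zero, one_smul]
  rw [key]
  exact Submodule.smul_mem _ _ (Submodule.sum_mem _ fun i _ => ha _ _)

end Pool.Agent.T2h63.CY
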