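import Mathlib

/-!
# Lie algebras with a one-dimensional top eigenspace: statements

`G` is a Lie algebra of operators on a vector space `V` (over any field of characteristic zero), and
`N` an element of `G` for which the elements of `G` are sums of homogeneous ones (`Deg N m A`:
`N A - A N = m A`).
-/

set_option autoImplicit false

namespace Pool.Agent.T2h63.CY

open Module

section Defs

variable {L : Type} {V : Type} [Field L] [AddCommGroup V] [Module L V]

/-- The operator `x ↦ ψ(a, x) b + ψ(b, x) a`. -/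
def op2 (ψ : LinearMap.BilinForm L V) (a b : V) : Module.End L V :=
  (ψ a).smulRight b + (ψ b).smulRight a

/-- The operator `A` is homogeneous of degree `m` for `N`. -/
def Deg (N : Module.End L V) (m : ℤ) (A : Module.End L V) : Prop := N * A - A * N = (m : L) • A

/-- The vector `x` has degree `m` for `N`. -/
def Vec (N : Module.End L V) (m : ℤ) (x : V) : Prop := N x = (m : L) • x

/-- The representation is irreducible. -/
def Irr (G : Submodule L (Module.End L V)) : Prop :=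
  ∀ U : Submodule L V, (∀ A ∈ G, ∀ x ∈ U, A x ∈ U) → U = ⊥ ∨ U = ⊤

/-- `G` is a Lie algebra of operators spanned by elements which are homogeneous for `N`. -/
structure LieS (G : Submodule L (Module.End L V)) (N : Module.End L V) : Prop where
  bra : ∀ A ∈ G, ∀ B ∈ G, A * B - B * A ∈ G
  mem : N ∈ G
  hom : ∀ A ∈ G, A ∈ Submodule.span L {B | B ∈ G ∧ ∃ m : ℤ, Deg N m B}

/-- The elements of `G` are skew for the form. -/
def Skew (ψ : LinearMap.BilinForm L V) (G : Submodule L (Module.End L V)) : Prop :=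
  ∀ A ∈ G, ∀ x y, ψ (A x) y + ψ x (A y) = 0

/-- The data of the level gap: the eigenvalues of `N` are integers of absolute value at most `w` and of
the parity of `w`, the eigenspaces for `w` and `-w` are spanned by `Ω` and `Ω'`, and `ψ` is a
nondegenerate alternating form with `ψ(Ω, Ω') = 1`. -/
structure TopData (ψ : LinearMap.BilinForm L V) (N : Module.End L V) (w : ℤ) (Ω Ω' : V) :
    Prop where
  alt : ∀ x, ψ x x = 0
  nondeg : ∀ x, (∀ y, ψ x y = 0) → x = 0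
  total : ∀ x, x ∈ Submodule.span L {y | ∃ m : ℤ, -w ≤ m ∧ m ≤ w ∧ Even (m - w) ∧ Vec N m y}
  pair : ψ Ω Ω' = 1
  vec : Vec N w Ω
  vec' : Vec N (-w) Ω'
  top : ∀ x, Vec N w x → ∃ c : L, x = c • Ω
  bot : ∀ x, Vec N (-w) x → ∃ c : L, x = c • Ω'

end Defs

/-- **ALL.** An irreducible Lie algebra of skew operators with an ideal which contains the squares of two
vectors which are not orthogonal contains all symmetric squares. -/
def S_ALL : Prop := ∀ (L V : Type) [Field L] [CharZero L] [AddCommGroup V] [Module L V]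
  (ψ : LinearMap.BilinForm L V) (_ : ∀ x, ψ x x = 0) (G a : Submodule L (Module.End L V))
  (_ : Skew ψ G) (_ : Irr G) (_ : a ≤ G) (_ : ∀ A ∈ G, ∀ B ∈ a, A * B - B * A ∈ a) (Ω Ω' : V)
  (_ : ψ Ω Ω' = 1) (_ : op2 ψ Ω Ω ∈ a) (_ : op2 ψ Ω' Ω' ∈ a), ∀ x y, op2 ψ x y ∈ a

/-- **WORD.** The submodule generated by vectors of degree `t` which are killed, up to combinations, by
the elements of nonnegative degree. -/
def S_WORD : Prop := ∀ (L V : Type) [Field L] [CharZero L] [AddCommGroup V] [Module L V]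
  (G : Submodule L (Module.End L V)) (N : Module.End L V) (_ : LieS G N) (P : Set V) (t : ℤ)
  (_ : ∀ b ∈ P, Vec N t b)
  (_ : ∀ b ∈ P, ∀ m : ℤ, 0 ≤ m → ∀ C ∈ G, Deg N m C → C b ∈ Submodule.span L P),
  ∃ U : Submodule L V, P ⊆ U ∧ (∀ A ∈ G, ∀ x ∈ U, A x ∈ U) ∧
    U ≤ Submodule.span L P ⊔ Submodule.span L {y | ∃ m : ℤ, m < t ∧ Vec N m y}

/-- **TOP.** Elements of degree at least `2 w`. -/
def S_TOP : Prop := ∀ (L V : Type) [Field L] [CharZero L] [AddCommGroup V] [Module L V]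
  (ψ : LinearMap.BilinForm L V) (G : Submodule L (Module.End L V)) (N : Module.End L V)
  (_ : LieS G N) (_ : Skew ψ G) (w : ℤ) (_ : 3 ≤ w) (Ω Ω' : V) (_ : TopData ψ N w Ω Ω'),
  (∀ (m : ℤ) (B : Module.End L V), 2 * w < m → Deg N m B → B = 0) ∧
  (∀ B ∈ G, Deg N (2 * w) B → ∃ c : L, B = c • op2 ψ Ω Ω)

/-- **GAP.** The level gap: if there are no nonzero elements of degree `2 w` then there are none of
degree `2 (w - 1)`. -/
def S_GAP : Prop := ∀ (L V : Type) [Field L] [CharZero L] [AddCommGroup V] [Module L V]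
  (ψ : LinearMap.BilinForm L V) (G : Submodule L (Module.End L V)) (N : Module.End L V)
  (_ : LieS G N) (_ : Skew ψ G) (_ : Irr G) (w : ℤ) (_ : 3 ≤ w) (Ω Ω' : V)
  (_ : TopData ψ N w Ω Ω') (_ : ∀ B ∈ G, Deg N (2 * w) B → B = 0),
  ∀ B ∈ G, Deg N (2 * (w - 1)) B → B = 0

/-- **ISO.** Two irreducible representations with one-dimensional top eigenspaces and the same
character on them have a nonzero morphism. -/
def S_ISO : Prop := ∀ (L V V' : Type) [Field L] [CharZero L] [AddCommGroup V] [Module L V]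
  [AddCommGroup V'] [Module L V'] (G : Submodule L (Module.End L V × Module.End L V'))
  (N : Module.End L V) (N' : Module.End L V')
  (_ : ∀ A ∈ G, ∀ B ∈ G, (A.1 * B.1 - B.1 * A.1, A.2 * B.2 - B.2 * A.2) ∈ G) (_ : (N, N') ∈ G)
  (_ : ∀ A ∈ G, A ∈ Submodule.span L {B | B ∈ G ∧ ∃ m : ℤ, Deg N m B.1 ∧ Deg N' m B.2})
  (_ : ∀ U : Submodule L V, (∀ A ∈ G, ∀ x ∈ U, A.1 x ∈ U) → U = ⊥ ∨ U = ⊤)
  (_ : ∀ U : Submodule L V', (∀ A ∈ G, ∀ x ∈ U, A.2 x ∈ U) → U = ⊥ ∨ U = ⊤)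
  (w : ℤ) (Ω : V) (Ω' : V') (_ : Ω ≠ 0) (_ : Ω' ≠ 0) (_ : Vec N w Ω) (_ : Vec N' w Ω')
  (_ : ∀ x, x ∈ Submodule.span L {y | ∃ m : ℤ, m ≤ w ∧ Vec N m y})
  (_ : ∀ x, x ∈ Submodule.span L {y | ∃ m : ℤ, m ≤ w ∧ Vec N' m y})
  (_ : ∀ x, Vec N w x → ∃ c : L, x = c • Ω) (_ : ∀ x, Vec N' w x → ∃ c : L, x = c • Ω')
  (_ : ∀ A ∈ G, Deg N 0 A.1 → Deg N' 0 A.2 → ∃ c : L, A.1 Ω = c • Ω ∧ A.2 Ω' = c • Ω'),
  ∃ φ : V →ₗ[L] V', φ ≠ 0 ∧ ∀ A ∈ G, φ ∘ₗ A.1 = A.2 ∘ₗ φ

/-- **FFT.** The first fundamental theorem for the symplectic Lie algebra, for arrays: the indices with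
the property `p` are those of a basis of the symplectic space, with the inverse `R` of the matrix of
the form; the others are those of trivial representations. A family of arrays stable under
reindexing and products, which contains the basis vectors of the trivial part and `R`, contains all
invariant arrays. -/
def S_FFT : Prop := ∀ (ι : Type) [Fintype ι] [DecidableEq ι] (p : ι → Prop) [DecidablePred p]
  (R Q : Matrix ι ι ℚ) (_ : ∀ i j, R i j = -R j i) (_ : ∀ i j, Q i j = -Q j i)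
  (_ : ∀ i j, ¬ (p i ∧ p j) → R i j = 0) (_ : ∀ i j, ¬ (p i ∧ p j) → Q i j = 0)
  (_ : ∀ i k, p i → p k → ∑ j, R i j * Q j k = if i = k then 1 else 0)
  (Fm : ∀ κ : Type, Submodule ℚ ((κ → ι) → ℚ))
  (_ : ∀ (κ l : Type) (e : κ ≃ l), ∀ a ∈ Fm κ, (fun i : l → ι => a (i ∘ e)) ∈ Fm l)
  (_ : ∀ (κ l : Type) [Fintype κ] [Fintype l], ∀ a ∈ Fm κ, ∀ b ∈ Fm l,
    (fun i : κ ⊕ l → ι => a (i ∘ Sum.inl) * b (i ∘ Sum.inr)) ∈ Fm (κ ⊕ l))
  (_ : ∀ (κ : Type) [IsEmpty κ] (a : (κ → ι) → ℚ), a ∈ Fm κ)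
  (_ : ∀ i, ¬ p i → (fun w : Unit → ι => if w () = i then (1 : ℚ) else 0) ∈ Fm Unit)
  (_ : (fun w : Unit ⊕ Unit → ι => R (w (Sum.inl ())) (w (Sum.inr ()))) ∈ Fm (Unit ⊕ Unit))
  (κ : Type) [Fintype κ] [DecidableEq κ] (a : (κ → ι) → ℚ)
  (_ : ∀ u v, p u → p v → ∀ w : κ → ι,
    ∑ k, (R v (w k) * a (Function.update w k u) + R u (w k) * a (Function.update w k v)) = 0),
  a ∈ Fm κ

end Pool.Agent.T2h63.CY
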