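import Pool.Agent.T2h63.CY.TOP

/-! Symmetric squares in an ideal. -/

set_option autoImplicit false
set_option linter.unusedSectionVars false

namespace Pool.Agent.T2h63.CY

open Module

section

variable {L : Type} {V : Type} [Field L] [CharZero L] [AddCommGroup V] [Module L V]
variable {ψ : LinearMap.BilinForm L V}

/-- The commutator with a symmetric square. -/
theorem op2_comm {A : Module.End L V} (hA : ∀ x y, ψ (A x) y + ψ x (A y) = 0) (a b : V) :
    A * op2 ψ a b - op2 ψ a b * A = op2 ψ (A a) b + op2 ψ a (A b) := by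
  refine LinearMap.ext fun x => ?_
  simp only [LinearMap.sub_apply, LinearMap.add_apply, Module.End.mul_apply, op2_apply, map_add,
    map_smul]
  have h1 : ψ a (A x) = - ψ (A a) x := by linear_combination hA a x
  have h2 : ψ b (A x) = - ψ (A b) x := by linear_combination hA b x
  rw [h1, h2, neg_smul, neg_smul]
  abel

theorem op2_symm (a b : V) : op2 ψ a b = op2 ψ b a := by
  unfold op2; exact add_comm _ _

theorem op2_add (a b c : V) : op2 ψ (a + b) c = op2 ψ a c + op2 ψ b c := by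
  refine LinearMap.ext fun x => ?_
  simp only [LinearMap.add_apply, op2_apply, map_add, smul_add, add_smul]
  abel

theorem op2_smul (k : L) (a b : V) : op2 ψ (k • a) b = k • op2 ψ a b := by
  refine LinearMap.ext fun x => ?_
  simp only [LinearMap.smul_apply, op2_apply, map_smul, smul_add, smul_eq_mul, smul_smul]
  rw [mul_comm k (ψ b x)]

theorem op2_add' (a b c : V) : op2 ψ c (a + b) = op2 ψ c a + op2 ψ c b := by
  rw [op2_symm, op2_add, op2_symm a, op2_symm b]

theorem op2_smul' (k : L) (a b : V) : op2 ψ a (k • b) = k • op2 ψ a b := by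
  rw [op2_symm, op2_smul, op2_symm]

end

theorem t_ALL : S_ALL := by
  intro L V _ _ _ _ ψ halt G a hS hI haG hid Ω Ω' hp ha ha'
  have hanti : ∀ x y, ψ x y = - ψ y x := by
    intro x y
    have h := halt (x + y)
    simp only [map_add, LinearMap.add_apply, halt, zero_add, add_zero] at h
    linear_combination h
  have hp' : ψ Ω' Ω = -1 := by rw [hanti, hp]
  have hc : ∀ A ∈ G, ∀ x y, op2 ψ x y ∈ a → op2 ψ (A x) y + op2 ψ x (A y) ∈ a := by
    intro A hA x y hxy
    rw [← op2_comm (hS A hA)]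
    exact hid A hA _ hxy
  have hsm : ∀ (k : L) (A : Module.End L V), k ≠ 0 → k • A ∈ a → A ∈ a := by
    intro k A hk h
    have := a.smul_mem k⁻¹ h
    rwa [smul_smul, inv_mul_cancel₀ hk, one_smul] at this
  -- the mixed square
  have hH : op2 ψ Ω Ω' ∈ a := by
    have h := hc _ (haG ha) Ω' Ω' ha'
    rw [op2_apply, hp, one_smul, op2_symm Ω' (Ω + Ω), op2_add] at h
    refine hsm 4 _ (by norm_num) ?_
    convert h using 1
    module
  -- the submodule
  let W : Submodule L V :=
    { carrier := {x | op2 ψ x Ω ∈ a ∧ op2 ψ x Ω' ∈ a}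
      add_mem' := by
        rintro x y ⟨h1, h2⟩ ⟨h3, h4⟩
        exact ⟨by rw [op2_add]; exact a.add_mem h1 h3, by rw [op2_add]; exact a.add_mem h2 h4⟩
      zero_mem' := by
        have h : ∀ y : V, op2 ψ 0 y = 0 := fun y => by
          have := op2_smul (ψ := ψ) 0 0 y
          rwa [zero_smul, zero_smul] at this
        exact ⟨by rw [h]; exact a.zero_mem, by rw [h]; exact a.zero_mem⟩
      smul_mem' := by
        rintro k x ⟨h1, h2⟩
        exact ⟨by rw [op2_smul]; exact a.smul_mem k h1, by rw [op2_smul]; exact a.smul_mem k h2⟩ }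
  have hW : ∀ x, x ∈ W ↔ op2 ψ x Ω ∈ a ∧ op2 ψ x Ω' ∈ a := fun x => Iff.rfl
  have hWO : Ω ∈ W := (hW Ω).2 ⟨ha, hH⟩
  have hWO' : Ω' ∈ W := (hW Ω').2 ⟨by rw [op2_symm]; exact hH, ha'⟩
  -- orthogonal vectors
  have hor : ∀ u, ψ Ω u = 0 → ψ Ω' u = 0 → (op2 ψ u Ω ∈ a ↔ op2 ψ u Ω' ∈ a) := by
    intro u h1 h2
    constructor
    · intro h
      have h3 := hc _ (haG ha') u Ω h
      rw [op2_apply, op2_apply, h2, hp', zero_smul, add_zero] at h3
      refine hsm (-2) _ (by norm_num) ?_
      convert h3 using 1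
      rw [show (0 : V) = (0 : L) • (0 : V) by simp, op2_smul, ← add_smul, op2_smul']
      module
    · intro h
      have h3 := hc _ (haG ha) u Ω' h
      rw [op2_apply, op2_apply, h1, hp, zero_smul, add_zero] at h3
      refine hsm 2 _ (by norm_num) ?_
      convert h3 using 1
      rw [show (0 : V) = (0 : L) • (0 : V) by simp, op2_smul, ← add_smul, op2_smul']
      module
  have hdec : ∀ x, ∃ (α β : L) (u : V), x = α • Ω + β • Ω' + u ∧ ψ Ω u = 0 ∧ ψ Ω' u = 0 := by
    intro x
    refine ⟨- ψ Ω' x, ψ Ω x, x - ((- ψ Ω' x) • Ω + ψ Ω x • Ω'), by abel, ?_, ?_⟩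
    · simp only [map_sub, map_add, map_smul, halt, hp, smul_eq_mul]
      ring
    · simp only [map_sub, map_add, map_smul, halt, hp', smul_eq_mul]
      ring
  -- products of two elements of the submodule
  have hWW : ∀ x ∈ W, ∀ y ∈ W, op2 ψ x y ∈ a := by
    intro x hx y hy
    obtain ⟨α, β, u, rfl, h1, h2⟩ := hdec x
    obtain ⟨γ, δ, v, rfl, h3, h4⟩ := hdec y
    have hu : u ∈ W := by
      have := W.sub_mem hx (W.add_mem (W.smul_mem α hWO) (W.smul_mem β hWO'))
      rwa [add_sub_cancel_left] at this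
    have hv : v ∈ W := by
      have := W.sub_mem hy (W.add_mem (W.smul_mem γ hWO) (W.smul_mem δ hWO'))
      rwa [add_sub_cancel_left] at this
    have huv : op2 ψ u v ∈ a := by
      have h5 := hc _ (haG ((hW u).1 hu).1) v Ω' ((hW v).1 hv).2
      rw [op2_apply, op2_apply, h3, hp, zero_smul, add_zero, hanti u Ω', h2, neg_zero, zero_smul,
        zero_add, one_smul, op2_smul, op2_symm v u] at h5
      have h6 := a.sub_mem h5 (a.smul_mem (ψ u v) hH)
      rwa [add_sub_cancel_left] at h6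
    have e1 := (hW _).1 hy
    have e2 := (hW _).1 hu
    rw [op2_add, op2_add, op2_smul, op2_smul, op2_add' _ v u, op2_add' (γ • Ω) _ u, op2_smul',
      op2_smul', op2_symm Ω, op2_symm Ω']
    exact a.add_mem (a.add_mem (a.smul_mem α e1.1) (a.smul_mem β e1.2))
      (a.add_mem (a.add_mem (a.smul_mem γ e2.1) (a.smul_mem δ e2.2)) huv)
  -- images of the two vectors
  have hAO : ∀ A ∈ G, A Ω ∈ W := by
    intro A hA
    have h1 := hc A hA Ω Ω ha
    have h2 : op2 ψ (A Ω) Ω ∈ a := by
      refine hsm 2 _ (by norm_num) ?_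
      convert h1 using 1
      rw [op2_symm Ω (A Ω)]
      module
    refine (hW _).2 ⟨h2, ?_⟩
    obtain ⟨α, β, u, h3, h4, h5⟩ := hdec (A Ω)
    have hu : u = A Ω - (α • Ω + β • Ω') := by rw [h3]; abel
    have h6 : op2 ψ u Ω ∈ a := by
      rw [hu, sub_eq_add_neg, ← neg_one_smul L, op2_add, op2_smul]
      exact a.add_mem h2 (a.smul_mem _ ((hW _).1 (W.add_mem (W.smul_mem α hWO)
        (W.smul_mem β hWO'))).1)
    have h7 := (hor u h4 h5).1 h6
    rw [h3, op2_add]
    exact a.add_mem ((hW _).1 (W.add_mem (W.smul_mem α hWO) (W.smul_mem β hWO'))).2 h7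
  have hAO' : ∀ A ∈ G, A Ω' ∈ W := by
    intro A hA
    have h1 := hc A hA Ω' Ω' ha'
    have h2 : op2 ψ (A Ω') Ω' ∈ a := by
      refine hsm 2 _ (by norm_num) ?_
      convert h1 using 1
      rw [op2_symm Ω' (A Ω')]
      module
    refine (hW _).2 ⟨?_, h2⟩
    obtain ⟨α, β, u, h3, h4, h5⟩ := hdec (A Ω')
    have hu : u = A Ω' - (α • Ω + β • Ω') := by rw [h3]; abel
    have h6 : op2 ψ u Ω' ∈ a := by
      rw [hu, sub_eq_add_neg, ← neg_one_smul L, op2_add, op2_smul]
      exact a.add_mem h2 (a.smul_mem _ ((hW _).1 (W.add_mem (W.smul_mem α hWO)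
        (W.smul_mem β hWO'))).2)
    have h7 := (hor u h4 h5).2 h6
    rw [h3, op2_add]
    exact a.add_mem ((hW _).1 (W.add_mem (W.smul_mem α hWO) (W.smul_mem β hWO'))).1 h7
  have hstab : ∀ A ∈ G, ∀ x ∈ W, A x ∈ W := by
    intro A hA x hx
    obtain ⟨h1, h2⟩ := (hW x).1 hx
    refine (hW _).2 ⟨?_, ?_⟩
    · have := a.sub_mem (hc A hA x Ω h1) (hWW x hx _ (hAO A hA))
      rwa [add_sub_cancel_right] at this
    · have := a.sub_mem (hc A hA x Ω' h2) (hWW x hx _ (hAO' A hA))
      rwa [add_sub_cancel_right] at this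
  rcases hI W hstab with h | h
  · exfalso
    rw [h, Submodule.mem_bot] at hWO
    rw [hWO, map_zero, LinearMap.zero_apply] at hp
    exact zero_ne_one hp
  · intro x y
    exact hWW x (by rw [h]; trivial) y (by rw [h]; trivial)

end Pool.Agent.T2h63.CY
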