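import Pool.Agent.T2h63.AH.Main1
import Pool.Agent.T2h63.CY.Stm

/-!
# The cohomology in one degree and the restrictions of the natural families
-/

open CategoryTheory AlgebraicGeometry TensorProduct

universe u v

namespace Pool.Agent.T2h63.CY

open Module
open Pool.Agent.H914 Pool.Agent.H914.VarClass Pool.Agent.H914.VarClass.Obj
  Pool.Agent.H914.WeilCohomology
open Pool.Agent.Y121.AH (CW)
open Pool.Agent.T2h63.AH

variable {k : Type u} [Field k] {𝒱 : VarClass k} {ops : CycleOps 𝒱}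
  (S : Pool.Agent.Y121.AH.HodgeTheory ops)

/-- The cohomology of degree `w` with complex coefficients. -/
abbrev VV (w : ℕ) (X : 𝒱.Obj) : Type := ↥((CW S).gr X w)

/-- The intersection form on the cohomology of degree `w`. -/
noncomputable def ifm (w : ℕ) (X : 𝒱.Obj) : LinearMap.BilinForm (CW S).K (VV S w X) :=
  LinearMap.mk₂ (CW S).K (fun x y => (CW S).tr X ((x : (CW S).H X) * (y : (CW S).H X)))
    (fun x y z => by rw [Submodule.coe_add, add_mul, map_add])
    (fun c x y => by rw [Submodule.coe_smul, smul_mul_assoc, map_smul])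
    (fun x y z => by rw [Submodule.coe_add, mul_add, map_add])
    (fun c x y => by rw [Submodule.coe_smul, mul_smul_comm, map_smul])

lemma ifm_apply (w : ℕ) (X : 𝒱.Obj) (x y : VV S w X) :
    ifm S w X x y = (CW S).tr X ((x : (CW S).H X) * (y : (CW S).H X)) := rfl

/-- The restrictions to the cohomology of degree `w` of `X` of the natural families which vanish on
the varieties in `𝒵`. -/
def GZ (w : ℕ) (𝒵 : Set 𝒱.Obj) (X : 𝒱.Obj) :
    Submodule (CW S).K (Module.End (CW S).K (VV S w X)) where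
  carrier := {A | ∃ F, FamLie S F ∧ (∀ Z ∈ 𝒵, F Z = 0) ∧
    ∀ x : VV S w X, ((A x : VV S w X) : (CW S).H X) = F X (x : (CW S).H X)}
  add_mem' := by
    rintro A B ⟨F, hF, h1, h2⟩ ⟨G, hG, h3, h4⟩
    refine ⟨_, hF.add hG, fun Z hZ => by rw [h1 Z hZ, h3 Z hZ, add_zero], fun x => ?_⟩
    rw [LinearMap.add_apply, LinearMap.add_apply, Submodule.coe_add, h2, h4]
  zero_mem' := ⟨_, FamLie.nop.smul 0, fun Z _ => zero_smul _ _, fun x => by
    rw [LinearMap.zero_apply, zero_smul, LinearMap.zero_apply, Submodule.coe_zero]⟩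
  smul_mem' := by
    rintro c A ⟨F, hF, h1, h2⟩
    refine ⟨_, hF.smul c, fun Z hZ => by rw [h1 Z hZ, smul_zero], fun x => ?_⟩
    rw [LinearMap.smul_apply, LinearMap.smul_apply, Submodule.coe_smul, h2]

variable {S}

lemma mem_GZ {w : ℕ} {𝒵 : Set 𝒱.Obj} {X : 𝒱.Obj} {A : Module.End (CW S).K (VV S w X)} :
    A ∈ GZ S w 𝒵 X ↔ ∃ F, FamLie S F ∧ (∀ Z ∈ 𝒵, F Z = 0) ∧
      ∀ x : VV S w X, ((A x : VV S w X) : (CW S).H X) = F X (x : (CW S).H X) := Iff.rfl

/-- The restriction of an operator of a family. -/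
noncomputable def rs (w : ℕ) (X : 𝒱.Obj) {F : Fam (CW S)} (hF : FamLie S F) :
    Module.End (CW S).K (VV S w X) := (F X).restrict fun _ hx => hF.gr hx

lemma rs_apply {w : ℕ} {X : 𝒱.Obj} {F : Fam (CW S)} (hF : FamLie S F) (x : VV S w X) :
    ((rs w X hF x : VV S w X) : (CW S).H X) = F X (x : (CW S).H X) := rfl

lemma rs_mem {w : ℕ} {𝒵 : Set 𝒱.Obj} {X : 𝒱.Obj} {F : Fam (CW S)} (hF : FamLie S F)
    (h : ∀ Z ∈ 𝒵, F Z = 0) : rs w X hF ∈ GZ S w 𝒵 X := ⟨F, hF, h, fun _ => rfl⟩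

end Pool.Agent.T2h63.CY
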