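import Pool.Agent.T2h63.CY.Geo1
import Pool.Agent.T2h63.AH.FF
import Pool.Agent.T2h63.AH.Split
import Pool.Agent.W437.HD.Fixed

/-! Maps which commute with the natural families. -/

set_option linter.unusedSectionVars false

open CategoryTheory AlgebraicGeometry TensorProduct

universe u v

namespace Pool.Agent.T2h63.CY

open Module
open Pool.Agent.H914 Pool.Agent.H914.VarClass Pool.Agent.H914.VarClass.Obj
  Pool.Agent.H914.WeilCohomology
open Pool.Agent.Y121.AH (CW em em_gr em_add em_zero hodgePred)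
open Pool.Agent.Y133.Half (ClassPred)
open Pool.Agent.T2h63.AH

variable {k : Type u} [Field k] {𝒱 : VarClass k} {ops : CycleOps 𝒱}
  {S : Pool.Agent.Y121.AH.HodgeTheory ops} {X Y Z : 𝒱.Obj}

section Co

variable {n : ℕ} (b : Fin n → S.W.H Z)

/-- The class with coordinates `v`. -/
noncomputable def val (v : Fin n → ℂ) : (CW S).H Z :=
  ∑ i, (show (CW S).K from v i) • em S.W ℂ (b i)

lemma val_add (v w : Fin n → ℂ) : val b (v + w) = val b v + val b w := by
  unfold val
  rw [← Finset.sum_add_distrib]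
  exact Finset.sum_congr rfl fun i _ => add_smul (show (CW S).K from v i)
    (show (CW S).K from w i) _

lemma val_smul (c : ℂ) (v : Fin n → ℂ) : val b (c • v) = (show (CW S).K from c) • val b v := by
  unfold val
  rw [Finset.smul_sum]
  exact Finset.sum_congr rfl fun i _ => mul_smul (show (CW S).K from c)
    (show (CW S).K from v i) _

lemma val_zero : val b (0 : Fin n → ℂ) = 0 := by
  have := val_smul b 0 0
  rw [zero_smul] at this
  rw [this]
  exact zero_smul (CW S).K _

lemma val_sg (τ : ℂ ≃ₐ[S.W.K] ℂ) (v : Fin n → ℂ) :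
    val b (fun i => τ (v i)) = sg S τ Z (val b v) := by
  unfold val
  rw [map_sum]
  refine Finset.sum_congr rfl fun i _ => ?_
  rw [sg_smul, sg_em]
  rfl

lemma val_rat (u : Fin n → ℚ) :
    val b (fun i => (u i : ℂ)) = em S.W ℂ (∑ i, (u i : S.W.K) • b i) := by
  have h1 : ∀ s : Finset (Fin n), ∑ i ∈ s, (show (CW S).K from ((u i : ℚ) : ℂ)) • em S.W ℂ (b i) =
      em S.W ℂ (∑ i ∈ s, (u i : S.W.K) • b i) := by
    intro s
    induction s using Finset.induction_on with
    | empty => rw [Finset.sum_empty, Finset.sum_empty, em_zero]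
    | insert i s hi ih =>
      rw [Finset.sum_insert hi, Finset.sum_insert hi, em_add, ih]
      congr 1
      have h2 : ((u i : ℚ) : ℂ) • ((1 : ℂ) ⊗ₜ[S.W.K] b i) =
          (1 : ℂ) ⊗ₜ[S.W.K] ((u i : S.W.K) • b i) := by
        rw [TensorProduct.tmul_smul, TensorProduct.smul_tmul', TensorProduct.smul_tmul']
        congr 1
        rw [smul_eq_mul, Algebra.smul_def, map_ratCast]
      exact h2
  exact h1 Finset.univ

end Co

/-- Classes killed by all families are combinations of Hodge classes. -/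
theorem fixed_span {x : (CW S).H Z} (hx : ∀ F, FamLie S F → F Z x = 0) :
    x ∈ Submodule.span (CW S).K {y | ∃ (j : ℕ) (h : S.W.H Z),
      Pool.Agent.Y121.AH.IsHodge S Z j h ∧ em S.W ℂ h = y} := by
  classical
  set n := finrank S.W.K (S.W.H Z) with hn
  let b := Module.finBasis S.W.K (S.W.H Z)
  let C : Submodule ℂ (Fin n → ℂ) :=
    { carrier := {v | ∀ F, FamLie S F → F Z (val b v) = 0}
      add_mem' := fun {v w} hv hw F hF => by
        rw [val_add, map_add, hv F hF, hw F hF, add_zero]
      zero_mem' := fun F hF => by rw [val_zero, map_zero]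
      smul_mem' := fun c v hv F hF => by rw [val_smul, map_smul, hv F hF, smul_zero] }
  have hC : ∀ (σ : ℂ ≃+* ℂ), ∀ v ∈ C, (fun i => σ (v i)) ∈ C := by
    intro σ v hv F hF
    let τ : ℂ ≃ₐ[S.W.K] ℂ := AlgEquiv.ofRingEquiv (f := σ) fun r => by
      obtain ⟨q, rfl⟩ := S.rat r
      rw [map_ratCast, map_ratCast]
    have h1 : val b (fun i => σ (v i)) = sg S τ Z (val b v) := val_sg b τ v
    rw [h1]
    have h2 := hv _ (hF.conj τ.symm)
    rw [cop_apply] at h2
    have h3 := congrArg (sg S τ Z) h2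
    rw [sg_symm, map_zero] at h3
    exact h3
  have key : ∀ v ∈ C, val b v ∈ Submodule.span (CW S).K {y | ∃ (j : ℕ) (h : S.W.H Z),
      Pool.Agent.Y121.AH.IsHodge S Z j h ∧ em S.W ℂ h = y} := by
    intro v hv
    rw [Pool.Agent.W437.HD.span_rational C hC] at hv
    induction hv using Submodule.span_induction with
    | mem w h =>
      obtain ⟨h1, u, rfl⟩ := h
      rw [val_rat]
      have h2 := h1 _ FamLie.nop
      rw [val_rat] at h2
      have h3 : (∑ i, (u i : S.W.K) • b i) ∈ (hodgePred S).sp Z := kerN_le (mem_kerN.2 h2)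
      refine ClassPred.sp_ind (Q := hodgePred S) (q := fun a => em S.W ℂ a ∈
        Submodule.span (CW S).K {y | ∃ (j : ℕ) (h : S.W.H Z),
          Pool.Agent.Y121.AH.IsHodge S Z j h ∧ em S.W ℂ h = y}) ?_ ?_ ?_ h3
      · intro j a ha
        exact Submodule.subset_span ⟨j, a, ha, rfl⟩
      · rw [em_zero]; exact Submodule.zero_mem _
      · intro a c ha hc
        rw [em_add]; exact Submodule.add_mem _ ha hc
    | zero => rw [val_zero]; exact Submodule.zero_mem _
    | add v w _ _ h1 h2 => rw [val_add]; exact Submodule.add_mem _ h1 h2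
    | smul c v _ h => rw [val_smul]; exact Submodule.smul_mem _ _ h
  let B := b.baseChange ℂ
  have hBx : val b (fun i => B.repr (show ℂ ⊗[S.W.K] S.W.H Z from x) i) = x := by
    have h1 := B.sum_repr (show ℂ ⊗[S.W.K] S.W.H Z from x)
    have h2 : ∀ i, B i = (1 : ℂ) ⊗ₜ[S.W.K] b i := fun i => Basis.baseChange_apply _ _ _
    simp only [h2] at h1
    exact h1
  rw [← hBx]
  refine key _ fun F hF => ?_
  rw [hBx]
  exact hx F hF

lemma corr_fam {F : Fam (CW S)} (hF : FamLie S F) (c : (CW S).H (X.prod Y)) :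
    (CW S).corr (F (X.prod Y) c) = F Y ∘ₗ (CW S).corr c - (CW S).corr c ∘ₗ F X := by
  refine LinearMap.ext fun x => ?_
  rw [LinearMap.sub_apply, LinearMap.comp_apply, LinearMap.comp_apply, corr_apply, corr_apply,
    corr_apply, fam_push hF, hF.isDer.mul, hF.isDer.map, map_add, add_sub_cancel_right]

/-- The part of degree `w` of the image of a class of degree `w` by the operator of a Hodge class. -/
lemma proj_corr {w j : ℕ} {h : S.W.H (X.prod Y)}
    (hh : Pool.Agent.Y121.AH.IsHodge S (X.prod Y) j h) {x : (CW S).H X} (hx : x ∈ (CW S).gr X w) :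
    H914.proj ((CW S).isInternal Y) w ((CW S).corr (em S.W ℂ h) x) =
      if j = X.dim then (CW S).corr (em S.W ℂ h) x else 0 := by
  rw [gr_eq] at hx
  refine Submodule.iSup_induction
    (fun r : {r : ℤ × ℤ // r.1 + r.2 = w} => S.pq X r.1.1 r.1.2)
    (motive := fun x => H914.proj ((CW S).isInternal Y) w ((CW S).corr (em S.W ℂ h) x) =
      if j = X.dim then (CW S).corr (em S.W ℂ h) x else 0) hx ?_ ?_ ?_
  · rintro ⟨⟨p, q⟩, hpq⟩ x hx
    have hpq' : p + q = w := hpq
    have h1 := type_of_hodge (s := (j : ℤ) - X.dim) (by ring) hh hx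
    rw [bc_corr] at h1
    replace h1 : (CW S).corr (em S.W ℂ h) x ∈
      S.pq Y (p + ((j : ℤ) - X.dim)) (q + ((j : ℤ) - X.dim)) := h1
    by_cases hj : j = X.dim
    · rw [if_pos hj]
      refine proj_same _ (S.dec.le Y ?_ h1)
      rw [hj]
      omega
    · rw [if_neg hj]
      by_cases hneg : p + ((j : ℤ) - X.dim) + (q + ((j : ℤ) - X.dim)) < 0
      · rw [pq_neg hneg h1, map_zero]
      · obtain ⟨i, hi⟩ := Int.eq_ofNat_of_zero_le (not_lt.1 hneg)
        exact proj_ne _ (S.dec.le Y hi h1) (by omega)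
  · rw [map_zero, map_zero]; simp
  · intro x y hx hy
    rw [map_add, map_add, hx, hy]
    split_ifs
    · rfl
    · rw [add_zero]

/-- **Maps which commute with the natural families.** -/
theorem comm_span {B : (CW S).H X →ₗ[(CW S).K] (CW S).H Y}
    (hB : ∀ F, FamLie S F → B ∘ₗ F X = F Y ∘ₗ B) {w : ℕ}
    (hw : ∀ x ∈ (CW S).gr X w, B x ∈ (CW S).gr Y w) :
    ∃ (n : ℕ) (c : Fin n → (CW S).K) (f : Fin n → (S.W.H X →ₗ[S.W.K] S.W.H Y)),
      (∀ (i) (p q : ℤ), ∀ x ∈ S.pq X p q, bc S (f i) x ∈ S.pq Y p q) ∧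
      ∀ x ∈ (CW S).gr X w, B x = ∑ i, c i • bc S (f i) x := by
  classical
  obtain ⟨c, hc⟩ := corr_surj (CW S) B
  have h1 : ∀ F, FamLie S F → F (X.prod Y) c = 0 := by
    intro F hF
    apply corr_inj (W := CW S)
    rw [corr_fam hF, hc, ← hB F hF, sub_self]
  have h2 := fixed_span h1
  set π := H914.proj ((CW S).isInternal X) w with hπ
  set ρ := H914.proj ((CW S).isInternal Y) w with hρ
  set M : Set ((CW S).H X →ₗ[(CW S).K] (CW S).H Y) :=
    {g | ∃ f : S.W.H X →ₗ[S.W.K] S.W.H Y, (∀ (p q : ℤ), ∀ x ∈ S.pq X p q,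
      bc S f x ∈ S.pq Y p q) ∧ bc S f ∘ₗ π = g} with hM
  have key : ∀ c ∈ Submodule.span (CW S).K {y | ∃ (j : ℕ) (h : S.W.H (X.prod Y)),
      Pool.Agent.Y121.AH.IsHodge S (X.prod Y) j h ∧ em S.W ℂ h = y},
      ρ ∘ₗ (CW S).corr c ∘ₗ π ∈ Submodule.span (CW S).K M := by
    intro c hc
    induction hc using Submodule.span_induction with
    | mem c h =>
      obtain ⟨j, h, hh, rfl⟩ := h
      by_cases hj : j = X.dim
      · have h3 : ρ ∘ₗ (CW S).corr (em S.W ℂ h) ∘ₗ π = bc S (S.W.corr h) ∘ₗ π := by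
          refine LinearMap.ext fun x => ?_
          have := proj_corr hh (H914.proj_mem ((CW S).isInternal X) w x)
          rw [if_pos hj] at this
          rw [bc_corr]
          exact this
        rw [h3]
        refine Submodule.subset_span ⟨_, fun p q x hx => ?_, rfl⟩
        have := type_of_hodge (s := 0) (by rw [hj, add_zero]) hh hx
        rwa [add_zero, add_zero] at this
      · have h3 : ρ ∘ₗ (CW S).corr (em S.W ℂ h) ∘ₗ π = 0 := by
          refine LinearMap.ext fun x => ?_
          have := proj_corr hh (H914.proj_mem ((CW S).isInternal X) w x)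
          rw [if_neg hj] at this
          exact this
        rw [h3]
        exact Submodule.zero_mem _
    | zero =>
      rw [corr_zero, LinearMap.zero_comp, LinearMap.comp_zero]
      exact Submodule.zero_mem _
    | add c d _ _ h3 h4 =>
      rw [corr_add, LinearMap.add_comp, LinearMap.comp_add]
      exact Submodule.add_mem _ h3 h4
    | smul z c _ h3 =>
      rw [corr_smul, LinearMap.smul_comp, LinearMap.comp_smul]
      exact Submodule.smul_mem _ _ h3
  obtain ⟨n, z, g, hg⟩ := Submodule.mem_span_set'.1 (key c h2)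
  choose f hf1 hf2 using fun i => (g i).2
  refine ⟨n, z, f, hf1, fun x hx => ?_⟩
  have h3 := congrArg (fun A : (CW S).H X →ₗ[(CW S).K] (CW S).H Y => A x) hg
  simp only [LinearMap.sum_apply, LinearMap.smul_apply, LinearMap.comp_apply] at h3
  have h4 : π x = x := proj_same _ hx
  rw [h4, hc] at h3
  have h5 : ρ (B x) = B x := proj_same _ (hw x hx)
  rw [h5] at h3
  rw [← h3]
  refine Finset.sum_congr rfl fun i _ => ?_
  rw [← hf2 i, LinearMap.comp_apply, h4]

end Pool.Agent.T2h63.CY
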