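import Pool.Agent.T2h63.CY.Geo4
import Pool.Agent.T2h63.CY.Comm

/-!
# Irreducibility and morphisms
-/

set_option linter.unusedSectionVars false

open CategoryTheory AlgebraicGeometry TensorProduct

universe u v

namespace Pool.Agent.T2h63.CY

open Module
open Pool.Agent.H914 Pool.Agent.H914.VarClass Pool.Agent.H914.VarClass.Obj
  Pool.Agent.H914.WeilCohomology
open Pool.Agent.Y121.AHS (toH)
open Pool.Agent.Y121.AH (CW em em_gr em_add em_zero em_tr em_smul ex hodgePred pq_ind tmul_eq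
  top_eq exists_tr_hodge tmul_ind)
open Pool.Agent.T2h63.AH

variable {k : Type u} [Field k] {𝒱 : VarClass k} {ops : CycleOps 𝒱}

section Gen

variable {S : Pool.Agent.Y121.AH.HodgeTheory ops} {w : ℕ} {X Y : 𝒱.Obj}

lemma fam_prj {F : Fam (CW S)} (hF : FamLie S F) (i : ℕ) (x : (CW S).H X) :
    F X (H914.proj ((CW S).isInternal X) i x) =
      H914.proj ((CW S).isInternal X) i (F X x) := by
  refine gr_induction ((CW S).isInternal X) (p := fun x =>
    F X (H914.proj ((CW S).isInternal X) i x) =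
      H914.proj ((CW S).isInternal X) i (F X x)) ?_ ?_ x
  · intro j x hx
    by_cases hij : j = i
    · subst hij
      rw [proj_same _ hx, proj_same _ (hF.gr hx)]
    · rw [proj_ne _ hx hij, proj_ne _ (hF.gr hx) hij, map_zero]
  · intro a b ha hb
    rw [map_add, map_add, ha, hb, map_add, map_add]

/-- The projection to the cohomology of degree `w`. -/
noncomputable def prV (S : Pool.Agent.Y121.AH.HodgeTheory ops) (w : ℕ) (X : 𝒱.Obj) :
    (CW S).H X →ₗ[(CW S).K] VV S w X :=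
  LinearMap.codRestrict ((CW S).gr X w) (H914.proj ((CW S).isInternal X) w)
    fun x => proj_mem _ w x

lemma prV_apply (x : (CW S).H X) :
    ((prV S w X x : VV S w X) : (CW S).H X) = H914.proj ((CW S).isInternal X) w x := rfl

lemma prV_coe (x : VV S w X) : prV S w X (x : (CW S).H X) = x :=
  Subtype.ext (proj_same _ x.2)

/-- Equivariant maps are combinations of morphisms of Hodge structures. -/
lemma equi_span {P : VV S w X →ₗ[(CW S).K] VV S w Y}
    (hP : ∀ (F : Fam (CW S)) (hF : FamLie S F), P ∘ₗ rs w X hF = rs w Y hF ∘ₗ P) :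
    ∃ (n : ℕ) (c : Fin n → (CW S).K) (f : Fin n → (S.W.H X →ₗ[S.W.K] S.W.H Y)),
      (∀ (i) (p q : ℤ), ∀ x ∈ S.pq X p q, bc S (f i) x ∈ S.pq Y p q) ∧
      ∀ x : VV S w X, ((P x : VV S w Y) : (CW S).H Y) = ∑ i, c i • bc S (f i) x := by
  obtain ⟨n, c, f, hf, h⟩ := comm_span (S := S) (X := X) (Y := Y)
    (B := ((CW S).gr Y w).subtype ∘ₗ P ∘ₗ prV S w X) (fun F hF => by
      refine LinearMap.ext fun x => ?_
      have h1 : prV S w X (F X x) = rs w X hF (prV S w X x) := Subtype.ext (by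
        rw [prV_apply, rs_apply, prV_apply, fam_prj hF])
      have h2 := congrArg (fun B => B (prV S w X x)) (hP F hF)
      simp only [LinearMap.comp_apply] at h2
      simp only [LinearMap.comp_apply]
      rw [h1, h2]
      rfl) (w := w) (fun x _ => (P (prV S w X x)).2)
  refine ⟨n, c, f, hf, fun x => ?_⟩
  rw [← h x x.2]
  simp only [LinearMap.comp_apply]
  rw [prV_coe]
  rfl

lemma bc_scalar {f : S.W.H X →ₗ[S.W.K] S.W.H X} {r : S.W.K}
    (h : ∀ x ∈ S.W.gr X w, f x = r • x) (x : VV S w X) :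
    bc S f x = ex S.W ℂ r • (x : (CW S).H X) := by
  have hx' : (x : (CW S).H X) ∈ (S.W.gr X w).baseChange ℂ := x.2
  refine base_induction (P := fun x : ℂ ⊗[S.W.K] S.W.H X => bc S f (show (CW S).H X from x) =
    ex S.W ℂ r • (show (CW S).H X from x)) ?_ ?_ ?_ hx'
  · exact (map_zero (bc S f)).trans (smul_zero (ex S.W ℂ r)).symm
  · intro x y hx hy
    exact (map_add (bc S f) (show (CW S).H X from x) (show (CW S).H X from y)).trans
      ((congrArg₂ (· + ·) hx hy).trans (smul_add (ex S.W ℂ r) (show (CW S).H X from x)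
        (show (CW S).H X from y)).symm)
  · intro l a ha
    have h1 := tmul_eq (W := S.W) (L := ℂ) l a
    have h2 : bc S f (show (CW S).H X from (l ⊗ₜ[S.W.K] a)) =
        ex S.W ℂ r • (show (CW S).H X from (l ⊗ₜ[S.W.K] a)) := by
      rw [h1, map_smul, bc_em, h a ha, em_smul, smul_comm]
    exact h2

lemma bc_zero' {f : S.W.H X →ₗ[S.W.K] S.W.H Y}
    (h : ∀ x ∈ S.W.gr X w, f x = 0) (x : VV S w X) : bc S f x = 0 := by
  have hx' : (x : (CW S).H X) ∈ (S.W.gr X w).baseChange ℂ := x.2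
  refine base_induction (P := fun x : ℂ ⊗[S.W.K] S.W.H X => bc S f (show (CW S).H X from x) =
    0) ?_ ?_ ?_ hx'
  · exact (map_zero (bc S f))
  · intro x y hx hy
    exact (map_add (bc S f) (show (CW S).H X from x) (show (CW S).H X from y)).trans
      ((congrArg₂ (· + ·) hx hy).trans (add_zero _))
  · intro l a ha
    have h1 := tmul_eq (W := S.W) (L := ℂ) l a
    have h2 : bc S f (show (CW S).H X from (l ⊗ₜ[S.W.K] a)) = 0 := by
      rw [h1, map_smul, bc_em, h a ha, em_zero, smul_zero]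
    exact h2

lemma noMor_of (h : ∀ f : S.W.H X →ₗ[S.W.K] S.W.H Y,
    (∀ (p q : ℤ), ∀ x ∈ S.pq X p q, bc S f x ∈ S.pq Y p q) → ∀ x ∈ S.W.gr X w, f x = 0) :
    NoMor S w X Y := by
  intro φ hφ
  obtain ⟨n, c, f, hf, h1⟩ := equi_span hφ
  refine LinearMap.ext fun x => Subtype.ext ?_
  rw [h1]
  exact Finset.sum_eq_zero fun i _ => by rw [bc_zero' (h _ (hf i)), smul_zero]

lemma irr_of (hsc : ∀ f : S.W.H X →ₗ[S.W.K] S.W.H X,
    (∀ (p q : ℤ), ∀ x ∈ S.pq X p q, bc S f x ∈ S.pq X p q) →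
      ∃ r : S.W.K, ∀ x ∈ S.W.gr X w, f x = r • x)
    (hc : ∀ U : Submodule (CW S).K (VV S w X), (∀ A ∈ GZ S w ∅ X, ∀ x ∈ U, A x ∈ U) →
      ∃ P : Module.End (CW S).K (VV S w X), (∀ x, P x ∈ U) ∧ (∀ x ∈ U, P x = x) ∧
        ∀ A ∈ GZ S w ∅ X, P * A = A * P) : Irr (GZ S w ∅ X) := by
  intro U hU
  obtain ⟨P, hP1, hP2, hP3⟩ := hc U hU
  obtain ⟨n, c, f, hf, h1⟩ := equi_span (P := P) fun F hF => hP3 _ (rs_mem hF (by simp))
  choose r hr using fun i => hsc (f i) (hf i)
  have h2 : ∀ x, P x = (∑ i, c i * ex S.W ℂ (r i)) • x := by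
    intro x
    refine Subtype.ext ?_
    rw [h1, Submodule.coe_smul, Finset.sum_smul]
    refine Finset.sum_congr rfl fun i _ => ?_
    rw [bc_scalar (hr i), smul_smul]
  by_cases hb : U = ⊥
  · exact Or.inl hb
  right
  obtain ⟨x, hx, hx0⟩ := (Submodule.ne_bot_iff U).1 hb
  have h3 : (∑ i, c i * ex S.W ℂ (r i)) = 1 := by
    have h4 := hP2 x hx
    rw [h2] at h4
    exact smul_left_injective (CW S).K hx0 (h4.trans (one_smul _ x).symm)
  rw [eq_top_iff]
  intro y _
  have h4 := hP1 y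
  rwa [h2, h3, one_smul] at h4

end Gen

end Pool.Agent.T2h63.CY
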