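import Pool.Agent.T2h63.CY.Base
import Pool.Agent.T2h63.CY.Cpa
import Pool.Agent.T2h63.AH.Lift

/-! Complements from the polarisation. -/

open CategoryTheory AlgebraicGeometry TensorProduct

universe u

namespace Pool.Agent.T2h63.CY

open Module
open Pool.Agent.H914 Pool.Agent.H914.VarClass Pool.Agent.H914.VarClass.Obj
  Pool.Agent.H914.WeilCohomology
open Pool.Agent.Y121.AHS (toH Ext)
open Pool.Agent.Y121.AH (CW pq_ind)
open Pool.Agent.N996.BP (Bil IsRat extConj extBil conjK)
open Pool.Agent.T2h63.AH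

section Ex

variable {K A : Type} [Field K] [Algebra K ℂ] [Ring A] [Algebra K A]

lemma extBil_add (ψ : Bil K A) (x y z : Ext K ℂ A) :
    extBil ψ (x + y) z = extBil ψ x z + extBil ψ y z :=
  LinearMap.congr_fun ((LinearMap.BilinForm.baseChange ℂ ψ : LinearMap.BilinForm ℂ
    (ℂ ⊗[K] A)).map_add x y) z

lemma extBil_smul (ψ : Bil K A) (c : ℂ) (x z : Ext K ℂ A) :
    extBil ψ (c • x) z = c * extBil ψ x z :=
  LinearMap.congr_fun ((LinearMap.BilinForm.baseChange ℂ ψ : LinearMap.BilinForm ℂ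
    (ℂ ⊗[K] A)).map_smul c x) z

lemma extBil_add' (ψ : Bil K A) (x y z : Ext K ℂ A) :
    extBil ψ z (x + y) = extBil ψ z x + extBil ψ z y :=
  ((LinearMap.BilinForm.baseChange ℂ ψ : LinearMap.BilinForm ℂ (ℂ ⊗[K] A)) z).map_add x y

lemma extBil_smul' (ψ : Bil K A) (c : ℂ) (x z : Ext K ℂ A) :
    extBil ψ z (c • x) = c * extBil ψ z x :=
  ((LinearMap.BilinForm.baseChange ℂ ψ : LinearMap.BilinForm ℂ (ℂ ⊗[K] A)) z).map_smul c x

lemma extBil_gal (ψ : Bil K A) (τ : ℂ ≃ₐ[K] ℂ) (x y : Ext K ℂ A) :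
    extBil ψ (extGal τ x) (extGal τ y) = τ (extBil ψ x y) := by
  have h0 : ∀ x y : ℂ ⊗[K] A, (LinearMap.BilinForm.baseChange ℂ ψ : LinearMap.BilinForm ℂ
      (ℂ ⊗[K] A)) (TensorProduct.map τ.toLinearMap LinearMap.id x)
      (TensorProduct.map τ.toLinearMap LinearMap.id y) =
      τ ((LinearMap.BilinForm.baseChange ℂ ψ : LinearMap.BilinForm ℂ (ℂ ⊗[K] A)) x y) := by
    intro x y
    induction x using TensorProduct.induction_on with
    | zero => simp
    | add a b ha hb => rw [map_add, map_add, map_add, LinearMap.add_apply, LinearMap.add_apply, ha,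
        hb, map_add]
    | tmul l a =>
      induction y using TensorProduct.induction_on with
      | zero => simp
      | add c d hc hd => rw [map_add, map_add, map_add, hc, hd, map_add]
      | tmul m c =>
        rw [TensorProduct.map_tmul, TensorProduct.map_tmul, LinearMap.BilinForm.baseChange_tmul,
          LinearMap.BilinForm.baseChange_tmul]
        simp [Algebra.smul_def]
  exact h0 x y

/-- The complex conjugation. -/
noncomputable def cjE (h : IsRat K) : ℂ ≃ₐ[K] ℂ :=
  AlgEquiv.ofRingEquiv (f := (starRingAut : ℂ ≃+* ℂ)) fun r => by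
    obtain ⟨q, rfl⟩ := h r
    rw [map_ratCast, map_ratCast]

lemma cjE_cjE (h : IsRat K) (z : ℂ) : cjE h (cjE h z) = z := star_star z

lemma extConj_eq (h : IsRat K) (x : Ext K ℂ A) : extConj h x = extGal (cjE h) x := by
  have h1 : conjK h = (cjE h).toLinearMap := LinearMap.ext fun _ => rfl
  unfold extConj extGal
  rw [h1]

end Ex

variable {k : Type u} [Field k] {𝒱 : VarClass k} {ops : CycleOps 𝒱}

section Gl

variable (S : Pool.Agent.Y121.AH.HodgeTheory ops)

/-- The automorphisms of the field of complex numbers. -/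
abbrev GalS : Type := ℂ ≃ₐ[S.W.K] ℂ

/-- The complex conjugation. -/
noncomputable def cjS : GalS S :=
  AlgEquiv.ofRingEquiv (f := (starRingAut : ℂ ≃+* ℂ)) fun r => by
    obtain ⟨q, rfl⟩ := S.rat r
    rw [map_ratCast, map_ratCast]

lemma cjS_symm : (cjS S).symm = cjS S := by
  ext z
  rw [AlgEquiv.symm_apply_eq]
  exact (star_star z).symm

lemma cjS_cjS {X : 𝒱.Obj} (x : (CW S).H X) : sg S (cjS S) X (sg S (cjS S) X x) = x := by
  have h2 := sg_symm (cjS S) x
  rwa [cjS_symm] at h2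

end Gl

variable {T : Pool.Agent.Y121.AHS.HodgeTheory ops} {X : 𝒱.Obj}

lemma conj_cjS (x : (CW (toH T)).H X) :
    extConj T.rat (ofX x) = ofX (sg (toH T) (cjS (toH T)) X x) := by
  have h := extConj_eq (K := T.W.K) T.rat (ofX x)
  exact h

/-- The extension of the form. -/
noncomputable def Bf (ψ : Bil T.W.K (T.W.H X)) (x y : (CW (toH T)).H X) : (CW (toH T)).K :=
  toK (T := T) (extBil ψ (ofX x) (ofX y))

variable {ψ : Bil T.W.K (T.W.H X)}

lemma Bf_add (x y z : (CW (toH T)).H X) : Bf ψ (x + y) z = Bf ψ x z + Bf ψ y z :=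
  extBil_add ψ _ _ _

lemma Bf_smul (c : (CW (toH T)).K) (x z : (CW (toH T)).H X) : Bf ψ (c • x) z = c * Bf ψ x z :=
  extBil_smul ψ _ _ _

lemma Bf_add' (x y z : (CW (toH T)).H X) : Bf ψ z (x + y) = Bf ψ z x + Bf ψ z y :=
  extBil_add' ψ _ _ _

lemma Bf_smul' (c : (CW (toH T)).K) (x z : (CW (toH T)).H X) : Bf ψ z (c • x) = c * Bf ψ z x :=
  extBil_smul' ψ _ _ _

lemma Bf_zero (z : (CW (toH T)).H X) : Bf ψ 0 z = 0 := by
  have := Bf_smul (ψ := ψ) 0 0 z
  rwa [zero_smul, zero_mul] at this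

lemma Bf_zero' (z : (CW (toH T)).H X) : Bf ψ z 0 = 0 := by
  have := Bf_smul' (ψ := ψ) 0 0 z
  rwa [zero_smul, zero_mul] at this

lemma Bf_sg (τ : GalS (toH T)) (x y : (CW (toH T)).H X) :
    Bf ψ (sg (toH T) τ X x) (sg (toH T) τ X y) = sc (toH T) τ (Bf ψ x y) :=
  extBil_gal ψ (show ℂ ≃ₐ[T.W.K] ℂ from τ) (ofX x) (ofX y)

lemma Bf_orth (hψ : IsPol T X ψ) {p q r s : ℤ} {x y : (CW (toH T)).H X}
    (hx : x ∈ (toH T).pq X p q) (hy : y ∈ (toH T).pq X r s) (h : r ≠ q ∨ s ≠ p) : Bf ψ x y = 0 :=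
  hψ.orth p q r s (ofX x) (ofX y) hx hy h

/-- The form is invariant. -/
theorem Bf_skew (hψ : IsPol T X ψ) {F : Fam (CW (toH T))} (hF : FamLie (toH T) F) :
    ∀ x y, Bf ψ (F X x) y + Bf ψ x (F X y) = 0 := by
  induction hF with
  | gen τ =>
    have h0 : ∀ x y, Bf ψ (nop (toH T) X x) y + Bf ψ x (nop (toH T) X y) = 0 := by
      intro x y
      refine pq_ind (toH T)
        (p := fun x => Bf ψ (nop (toH T) X x) y + Bf ψ x (nop (toH T) X y) = 0) ?_ ?_ ?_ x
      · intro p q x hx
        refine pq_ind (toH T)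
          (p := fun y => Bf ψ (nop (toH T) X x) y + Bf ψ x (nop (toH T) X y) = 0) ?_ ?_ ?_ y
        · intro r s y hy
          rw [nop_pq hx, nop_pq hy, Bf_smul, Bf_smul']
          by_cases h : r = q ∧ s = p
          · rw [h.1, h.2, ← add_mul, ← Int.cast_add, show p - q + (q - p) = 0 by ring,
              Int.cast_zero, zero_mul]
          · rw [Bf_orth hψ hx hy (by tauto), mul_zero, mul_zero, add_zero]
        · intro a b ha hb
          rw [map_add, Bf_add', Bf_add']
          linear_combination ha + hb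
        · rw [map_zero, Bf_zero', Bf_zero', add_zero]
      · intro a b ha hb
        rw [map_add, Bf_add, Bf_add]
        linear_combination ha + hb
      · rw [map_zero, Bf_zero, Bf_zero, add_zero]
    intro x y
    have h1 := h0 (sg (toH T) τ.symm X x) (sg (toH T) τ.symm X y)
    have h2 := congrArg (sc (toH T) τ) h1
    have h3 : ∀ a b : (CW (toH T)).K, sc (toH T) τ (a + b) = sc (toH T) τ a + sc (toH T) τ b :=
      fun a b => map_add τ a b
    have h4 : sc (toH T) τ 0 = 0 := map_zero τ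
    rw [h3, h4, ← Bf_sg, ← Bf_sg, sg_symm, sg_symm] at h2
    exact h2
  | add _ _ h h' =>
    intro x y
    rw [LinearMap.add_apply, LinearMap.add_apply, Bf_add, Bf_add']
    linear_combination h x y + h' x y
  | smul c _ h =>
    intro x y
    rw [LinearMap.smul_apply, LinearMap.smul_apply, Bf_smul, Bf_smul']
    linear_combination c * h x y
  | @bra F G _ _ h h' =>
    intro x y
    have hs : ∀ a b c : (CW (toH T)).H X, Bf ψ (a - b) c = Bf ψ a c - Bf ψ b c := by
      intro a b c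
      rw [sub_eq_add_neg, ← neg_one_smul (CW (toH T)).K b, Bf_add, Bf_smul]
      ring
    have hs' : ∀ a b c : (CW (toH T)).H X, Bf ψ c (a - b) = Bf ψ c a - Bf ψ c b := by
      intro a b c
      rw [sub_eq_add_neg, ← neg_one_smul (CW (toH T)).K b, Bf_add', Bf_smul']
      ring
    simp only [LinearMap.sub_apply, Module.End.mul_apply]
    rw [hs, hs']
    linear_combination h (G X x) y - h' (F X x) y - h' x (F X y) + h x (G X y)

/-- **Complements from the polarisation.** -/
theorem exists_compl {w : ℕ} (hψ : IsPol T X ψ)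
    (U : Submodule (CW (toH T)).K (VV (toH T) w X))
    (hU : ∀ A ∈ GZ (toH T) w ∅ X, ∀ x ∈ U, A x ∈ U) :
    ∃ P : Module.End (CW (toH T)).K (VV (toH T) w X), (∀ x, P x ∈ U) ∧ (∀ x ∈ U, P x = x) ∧
      ∀ A ∈ GZ (toH T) w ∅ X, P * A = A * P := by
  let cj : GalS (toH T) := cjS (toH T)
  have hcj2 : ∀ x : (CW (toH T)).H X, sg (toH T) cj X (sg (toH T) cj X x) = x := cjS_cjS (toH T)
  have hcjpq : ∀ {p q : ℤ} {x : (CW (toH T)).H X}, x ∈ (toH T).pq X p q →
      sg (toH T) cj X x ∈ (toH T).pq X q p := by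
    intro p q x hx
    have h1 := hψ.conj p q (ofX x) hx
    have h2 : Mem (T.pq X) q p (ofX (sg (toH T) cj X x)) := (conj_cjS x) ▸ h1
    exact h2
  let b : VV (toH T) w X → VV (toH T) w X →ₗ[(CW (toH T)).K] (CW (toH T)).K := fun z =>
    { toFun := fun y => Bf ψ (sg (toH T) cj X (z : (CW (toH T)).H X)) (y : (CW (toH T)).H X)
      map_add' := fun x y => Bf_add' _ _ _
      map_smul' := fun c x => Bf_smul' _ _ _ }
  let E : {r : ℤ × ℤ // r.1 + r.2 = w} → Submodule (CW (toH T)).K (VV (toH T) w X) :=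
    fun r => ((toH T).pq X r.1.1 r.1.2).comap (Submodule.subtype _)
  have hEpq : ∀ (r : {r : ℤ × ℤ // r.1 + r.2 = w}), ∀ x ∈ E r,
      (x : (CW (toH T)).H X) ∈ (toH T).pq X r.1.1 r.1.2 := fun r x hx => hx
  refine abs_compl (N := rs w X FamLie.nop) (G := {A | A ∈ GZ (toH T) w ∅ X})
    (rs_mem FamLie.nop fun Z hZ => absurd hZ (Set.notMem_empty Z)) (E := E)
    (μ := fun r => ((r.1.1 - r.1.2 : ℤ) : (CW (toH T)).K)) ?_ ?_ ?_ (sc (toH T) cj) b ?_ ?_ ?_ ?_
    ?_ hU
  · intro r s h
    have h1 : (r.1.1 - r.1.2 : ℤ) = s.1.1 - s.1.2 := Int.cast_injective h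
    have h2 := r.2
    have h3 := s.2
    exact Subtype.ext (Prod.ext (by omega) (by omega))
  · intro r x hx
    refine Subtype.ext ?_
    rw [rs_apply, nop_pq (hEpq r x hx)]
    rfl
  · have h1 : (⨆ r, E r).map (Submodule.subtype _) = (⊤ : Submodule _ _).map
        (Submodule.subtype ((CW (toH T)).gr X w)) := by
      rw [Submodule.map_iSup, Submodule.map_subtype_top]
      conv_rhs => rw [gr_eq]
      refine iSup_congr fun r => ?_
      rw [Submodule.map_comap_subtype]
      exact inf_eq_right.2 ((toH T).dec.le X r.2)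
    exact Submodule.map_injective_of_injective (Submodule.subtype_injective _) h1
  · intro x y
    refine LinearMap.ext fun z => ?_
    show Bf ψ (sg (toH T) cj X ((x : (CW (toH T)).H X) + y)) z = _
    rw [map_add, Bf_add]
    rfl
  · intro c x
    refine LinearMap.ext fun z => ?_
    show Bf ψ (sg (toH T) cj X (c • (x : (CW (toH T)).H X))) z = _
    rw [sg_smul, Bf_smul]
    rfl
  · intro r s hrs x hx y hy
    refine Bf_orth hψ (hcjpq (hEpq r x hx)) (hEpq s y hy) ?_
    by_contra h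
    push Not at h
    exact hrs (Subtype.ext (Prod.ext h.1.symm h.2.symm))
  · intro r x hx h0
    by_contra hne
    have hxpq := hEpq r x hx
    have h1 : sg (toH T) cj X (x : (CW (toH T)).H X) ≠ 0 := by
      intro h
      have h2 := hcj2 (x : (CW (toH T)).H X)
      rw [h, map_zero] at h2
      exact hne (Subtype.ext h2.symm)
    obtain ⟨t, ht, h3⟩ := hψ.pos _ _ (ofX (sg (toH T) cj X (x : (CW (toH T)).H X)))
      (hcjpq hxpq) h1
    have h4 : extConj T.rat (ofX (sg (toH T) cj X (x : (CW (toH T)).H X))) =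
        ofX (x : (CW (toH T)).H X) := by
      have h7 := conj_cjS (sg (toH T) cj X (x : (CW (toH T)).H X))
      exact h7.trans (congrArg ofX (hcj2 _))
    rw [h4] at h3
    have h5 : extBil ψ (ofX (sg (toH T) cj X (x : (CW (toH T)).H X)))
        (ofX (x : (CW (toH T)).H X)) = 0 := h0
    rw [h5, mul_zero] at h3
    have h6 : (t : ℂ) = 0 := h3.symm
    rw [Complex.ofReal_eq_zero] at h6
    exact ht.ne' h6
  · rintro A ⟨F, hF, -, hA⟩
    refine ⟨rs w X (hF.conj cj), rs_mem _ fun Z hZ => absurd hZ (Set.notMem_empty Z), ?_⟩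
    intro z y
    show Bf ψ (sg (toH T) cj X (z : (CW (toH T)).H X)) ((A y : VV (toH T) w X) : (CW (toH T)).H X)
      = - Bf ψ (sg (toH T) cj X (cop cj (F X) (z : (CW (toH T)).H X))) (y : (CW (toH T)).H X)
    have h1 : sg (toH T) cj X (cop cj (F X) (z : (CW (toH T)).H X)) =
        F X (sg (toH T) cj X (z : (CW (toH T)).H X)) := by
      rw [cop_apply, hcj2]
      have h2 : cj.symm = cj := cjS_symm (toH T)
      rw [h2]
    rw [h1, hA]
    linear_combination Bf_skew hψ hF (sg (toH T) cj X (z : (CW (toH T)).H X))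
      (y : (CW (toH T)).H X)

end Pool.Agent.T2h63.CY
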