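import Pool.Agent.T2h63.AH.Defs

/-!
# Varieties of Calabi-Yau type: definitions
-/

open CategoryTheory AlgebraicGeometry TensorProduct

universe u

namespace Pool.Agent.T2h63.CY

open Pool.Agent.H914 Pool.Agent.H914.VarClass Pool.Agent.H914.VarClass.Obj
  Pool.Agent.H914.WeilCohomology
open Pool.Agent.Y121.AHS Pool.Agent.N996.BP Pool.Agent.T2h63.AH

section Alg

variable {K A B : Type} [Field K] [Algebra K ℂ] [Ring A] [Algebra K A] [Ring B] [Algebra K B]

/-- The subspaces of `A`. -/
abbrev Sub (K A : Type) [Field K] [Ring A] [Algebra K A] : Type := Submodule K A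

/-- The linear map `f` is a morphism of rational Hodge structures: it maps the elements of type
`(a, b)` to elements of type `(a, b)`. -/
def IsHodgeMor (pq : Decomp K A) (pq' : Decomp K B) (f : LinHom K A B) : Prop :=
  ∀ a b x, Mem pq a b x → Mem pq' a b (extMap K ℂ f x)

/-- All endomorphisms of the Hodge structure act on the subspace `V` as rational numbers. -/
def IsScalarOn (pq : Decomp K A) (V : Sub K A) : Prop :=
  ∀ f, IsHodgeMor pq pq f → ∃ r : K, ∀ x ∈ V, f x = r • x

/-- All morphisms of Hodge structures are zero on the subspace `V`. -/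
def IsZeroOn (pq : Decomp K A) (pq' : Decomp K B) (V : Sub K A) : Prop :=
  ∀ f, IsHodgeMor pq pq' f → ∀ x ∈ V, f x = 0

/-- The space `pq p q` is of dimension one. -/
def IsLine (pq : Decomp K A) (p q : ℤ) : Prop := Module.finrank ℂ (pq p q) = 1

/-- The elements of degree different from `n` are combinations of elements with the property `P`. -/
def SpanOutside (gr : ℕ → Sub K A) (P : A → Prop) (n : ℕ) : Prop :=
  ∀ i, i ≠ n → ∀ c ∈ gr i, c ∈ Submodule.span K {c | P c}

/-- The operator `F` kills the classes of degree different from `n`, maps the classes of degree `n`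
to classes of degree `n`, and is skew for the form `tr(x y)`. -/
structure IsSkewOp (gr : ℕ → Sub K A) (tr : A →ₗ[K] K) (n : ℕ) (F : LinOp (Ext K ℂ A)) : Prop where
  zero : ∀ i, i ≠ n → ∀ x ∈ extSub K ℂ (gr i), F x = 0
  deg : ∀ x ∈ extSub K ℂ (gr n), F x ∈ extSub K ℂ (gr n)
  skew : ∀ x y, extForm K ℂ tr (extMul K ℂ (F x) y) + extForm K ℂ tr (extMul K ℂ x (F y)) = 0

/-- The Hodge Lie algebra contains all these operators. -/
def AllSkew (pq : Decomp K A) (gr : ℕ → Sub K A) (tr : A →ₗ[K] K) (n : ℕ) : Prop :=
  ∀ F, IsSkewOp gr tr n F → LieOf pq F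

end Alg

variable {k : Type u} [Field k] {𝒱 : VarClass k} {ops : CycleOps 𝒱}

/-- `X` is of Calabi-Yau type: its dimension `n` is odd and at least `3`, `H(X)` is polarised, the
classes of degree different from `n` are combinations of Hodge classes, the space `H^(n,0)` is
one-dimensional, and the endomorphisms of the Hodge structure `H^n(X)` are the rational numbers. -/
structure IsCY (T : HodgeTheory ops) (X : 𝒱.Obj) : Prop where
  odd : Odd X.dim
  three : 3 ≤ X.dim
  polar : ∃ ψ, IsPol T X ψ
  other : SpanOutside (T.W.gr X) (IsSomeHodge T X) X.dim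
  one : IsLine (T.pq X) X.dim 0
  scalar : IsScalarOn (T.pq X) (T.W.gr X X.dim)

/-- The Hodge Lie algebra of `X` contains the symplectic Lie algebra of the intersection form on
`H^n(X)`, `n = dim X`: the Hodge group is as large as possible. -/
def FullSymplectic (T : HodgeTheory ops) (X : 𝒱.Obj) : Prop :=
  AllSkew (T.pq X) (T.W.gr X) (T.W.tr X) X.dim

/-- Any two different varieties in the class `𝒳` of the same dimension `n` have no nonzero morphisms
between the Hodge structures on their cohomology of degree `n`. -/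
def PairwiseDistinct (T : HodgeTheory ops) (𝒳 : Set 𝒱.Obj) : Prop :=
  ∀ X ∈ 𝒳, ∀ Y ∈ 𝒳, X ≠ Y → X.dim = Y.dim → IsZeroOn (T.pq X) (T.pq Y) (T.W.gr X X.dim)

end Pool.Agent.T2h63.CY
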