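import Pool.Agent.T2h63.CY.TOP

/-! Irreducible representations with the same character on the top eigenspace. -/

set_option autoImplicit false
set_option linter.unusedSectionVars false

namespace Pool.Agent.T2h63.CY

open Module

section

variable {L : Type} {V V' : Type} [Field L] [CharZero L] [AddCommGroup V] [Module L V]
  [AddCommGroup V'] [Module L V']

/-- The diagonal operator. -/
def dg : (Module.End L V × Module.End L V') →ₗ[L] Module.End L (V × V') where
  toFun A := A.1.prodMap A.2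
  map_add' A B := by ext <;> simp
  map_smul' c A := by ext <;> simp

theorem dg_apply (A : Module.End L V × Module.End L V') (x : V × V') :
    dg A x = (A.1 x.1, A.2 x.2) := rfl

theorem dg_comm (A B : Module.End L V × Module.End L V') : dg A * dg B - dg B * dg A =
    dg (A.1 * B.1 - B.1 * A.1, A.2 * B.2 - B.2 * A.2) := by
  refine LinearMap.ext fun x => ?_
  simp only [LinearMap.sub_apply, Module.End.mul_apply, dg_apply, Prod.mk_sub_mk]

theorem dg_deg {N A : Module.End L V} {N' A' : Module.End L V'} {m : ℤ} :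
    Deg (dg (N, N')) m (dg (A, A')) ↔ Deg N m A ∧ Deg N' m A' := by
  unfold Deg
  rw [dg_comm, ← map_smul, Prod.smul_mk]
  constructor
  · intro h
    constructor
    · refine LinearMap.ext fun x => ?_
      have := congrArg (fun f : Module.End L (V × V') => (f (x, 0)).1) h
      simpa only [dg_apply] using this
    · refine LinearMap.ext fun x => ?_
      have := congrArg (fun f : Module.End L (V × V') => (f (0, x)).2) h
      simpa only [dg_apply] using this
  · rintro ⟨h1, h2⟩
    rw [h1, h2]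

theorem dg_vec {N : Module.End L V} {N' : Module.End L V'} {m : ℤ} {x : V} {y : V'} :
    Vec (dg (N, N')) m (x, y) ↔ Vec N m x ∧ Vec N' m y := by
  unfold Vec
  rw [dg_apply, Prod.smul_mk, Prod.mk.injEq]

end

theorem t_ISO : S_ISO := by
  intro L V V' _ _ _ _ _ _ G N N' hbr hNG hhom hI hI' w Ω Ω' hO hO' hv hv' htot htot' htop htop'
    hchar
  have hG : LieS (G.map dg) (dg (N, N')) := by
    refine ⟨?_, ⟨_, hNG, rfl⟩, ?_⟩
    · rintro _ ⟨A, hA, rfl⟩ _ ⟨B, hB, rfl⟩
      exact ⟨_, hbr A hA B hB, (dg_comm A B).symm⟩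
    · rintro _ ⟨A, hA, rfl⟩
      have h1 := Submodule.mem_map_of_mem (f := dg) (hhom A hA)
      rw [Submodule.map_span] at h1
      refine Submodule.span_mono ?_ h1
      rintro _ ⟨B, ⟨hB, m, hm⟩, rfl⟩
      exact ⟨⟨B, hB, rfl⟩, m, dg_deg.2 hm⟩
  obtain ⟨U, hU1, hU2, hU3⟩ := t_WORD L (V × V') (G.map dg) (dg (N, N')) hG {(Ω, Ω')} w (by
    rintro _ rfl
    exact dg_vec.2 ⟨hv, hv'⟩) (by
    rintro _ rfl m hm _ ⟨C, hC, rfl⟩ hd
    obtain ⟨hd1, hd2⟩ := dg_deg.1 hd
    rw [dg_apply]
    rcases eq_or_lt_of_le hm with h | h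
    · subst h
      obtain ⟨c, hc, hc'⟩ := hchar C hC hd1 hd2
      have h1 : (C.1 (Ω, Ω').1, C.2 (Ω, Ω').2) = c • (Ω, Ω') := by
        rw [Prod.smul_mk]
        exact Prod.ext hc hc'
      rw [h1]
      exact (Submodule.span L {(Ω, Ω')}).smul_mem c (Submodule.mem_span_singleton_self _)
    · have e1 : C.1 Ω = 0 := vec_zero (fun m => m ≤ w) (by omega) (hd1.vec hv) (htot _)
      have e2 : C.2 Ω' = 0 := vec_zero (fun m => m ≤ w) (by omega) (hd2.vec hv') (htot' _)
      simp only [e1, e2]
      exact Submodule.zero_mem _)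
  have hst : ∀ A ∈ G, ∀ x ∈ U, (A.1 x.1, A.2 x.2) ∈ U := fun A hA x hx => hU2 _ ⟨A, hA, rfl⟩ x hx
  have hOU : (Ω, Ω') ∈ U := hU1 rfl
  -- components of top degree
  have key : ∀ x y, Vec N w x → Vec N' w y → (x, y) ∈ U → ∃ c : L, x = c • Ω ∧ y = c • Ω' := by
    intro x y hx hy h
    obtain ⟨a, ha, z, hz, hxy⟩ := Submodule.mem_sup.1 (hU3 h)
    obtain ⟨c, rfl⟩ := Submodule.mem_span_singleton.1 ha
    have hz' : z = (x - c • Ω, y - c • Ω') := by
      rw [← add_right_inj (c • (Ω, Ω')), hxy, Prod.smul_mk, Prod.mk_add_mk]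
      simp
    have h0 : z = 0 := by
      refine vec_zero (N := dg (N, N')) (k := w) (fun m => m < w) (lt_irrefl _) ?_ hz
      rw [hz']
      refine dg_vec.2 ⟨?_, ?_⟩
      · unfold Vec at hx hv ⊢
        rw [map_sub, map_smul, hx, hv, smul_sub, smul_comm]
      · unfold Vec at hy hv' ⊢
        rw [map_sub, map_smul, hy, hv', smul_sub, smul_comm]
    rw [h0] at hz'
    have h1 := congrArg Prod.fst hz'
    have h2 := congrArg Prod.snd hz'
    exact ⟨c, (sub_eq_zero.1 h1.symm), (sub_eq_zero.1 h2.symm)⟩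
  have hv0 : Vec N w (0 : V) := by unfold Vec; rw [map_zero, smul_zero]
  have hv0' : Vec N' w (0 : V') := by unfold Vec; rw [map_zero, smul_zero]
  have hK1 : ∀ x, (x, (0 : V')) ∈ U → x = 0 := by
    rcases hI (U.comap (LinearMap.inl L V V')) (fun A hA x hx => by
      have := hst A hA (x, 0) hx
      rw [map_zero] at this
      exact this) with h | h
    · intro x hx
      have : x ∈ U.comap (LinearMap.inl L V V') := hx
      rwa [h, Submodule.mem_bot] at this
    · exfalso
      have h1 : Ω ∈ U.comap (LinearMap.inl L V V') := by rw [h]; trivial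
      obtain ⟨c, h2, h3⟩ := key Ω 0 hv hv0' h1
      rcases smul_eq_zero.1 h3.symm with h4 | h4
      · rw [h4, zero_smul] at h2; exact hO h2
      · exact hO' h4
  have hK2 : ∀ y, ((0 : V), y) ∈ U → y = 0 := by
    rcases hI' (U.comap (LinearMap.inr L V V')) (fun A hA x hx => by
      have := hst A hA (0, x) hx
      rw [map_zero] at this
      exact this) with h | h
    · intro x hx
      have : x ∈ U.comap (LinearMap.inr L V V') := hx
      rwa [h, Submodule.mem_bot] at this
    · exfalso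
      have h1 : Ω' ∈ U.comap (LinearMap.inr L V V') := by rw [h]; trivial
      obtain ⟨c, h2, h3⟩ := key 0 Ω' hv0 hv' h1
      rcases smul_eq_zero.1 h2.symm with h4 | h4
      · rw [h4, zero_smul] at h3; exact hO' h3
      · exact hO h4
  have hsurj : ∀ x, ∃ y, (x, y) ∈ U := by
    rcases hI (U.map (LinearMap.fst L V V')) (by
      rintro A hA _ ⟨x, hx, rfl⟩
      exact ⟨_, hst A hA x hx, rfl⟩) with h | h
    · exfalso
      have : Ω ∈ U.map (LinearMap.fst L V V') := ⟨_, hOU, rfl⟩
      rw [h, Submodule.mem_bot] at this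
      exact hO this
    · intro x
      have : x ∈ U.map (LinearMap.fst L V V') := by rw [h]; trivial
      obtain ⟨⟨a, b⟩, h1, rfl⟩ := this
      exact ⟨b, h1⟩
  let f : U →ₗ[L] V := (LinearMap.fst L V V') ∘ₗ U.subtype
  have hf : Function.Bijective f := by
    constructor
    · rw [← LinearMap.ker_eq_bot, LinearMap.ker_eq_bot']
      rintro ⟨⟨a, b⟩, hab⟩ h
      have ha : a = 0 := h
      subst ha
      have := hK2 b hab
      subst this
      rfl
    · intro x
      obtain ⟨y, hy⟩ := hsurj x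
      exact ⟨⟨(x, y), hy⟩, rfl⟩
  let e := LinearEquiv.ofBijective f hf
  let φ : V →ₗ[L] V' := (LinearMap.snd L V V') ∘ₗ U.subtype ∘ₗ e.symm.toLinearMap
  have hφ : ∀ x y, (x, y) ∈ U → φ x = y := by
    intro x y h
    have h1 : e ⟨(x, y), h⟩ = x := rfl
    have h2 : e.symm x = ⟨(x, y), h⟩ := by rw [LinearEquiv.symm_apply_eq, h1]
    show ((e.symm x : U) : V × V').2 = y
    rw [h2]
  refine ⟨φ, ?_, ?_⟩
  · intro h
    have := hφ Ω Ω' hOU
    rw [h, LinearMap.zero_apply] at this
    exact hO' this.symm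
  · intro A hA
    refine LinearMap.ext fun x => ?_
    obtain ⟨y, hy⟩ := hsurj x
    have h1 : φ (A.1 x) = A.2 y := hφ _ _ (hst A hA _ hy)
    have h2 : φ x = y := hφ x y hy
    show φ (A.1 x) = A.2 (φ x)
    rw [h1, h2]

end Pool.Agent.T2h63.CY
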