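import Pool.Agent.T2h63.CY.Base
import Pool.Agent.T2h63.CY.GAP
import Pool.Agent.T2h63.CY.ISO
import Pool.Agent.Y121.AH.Fix

/-!
# Homogeneous decompositions and the intersection form
-/

set_option linter.unusedSectionVars false

open CategoryTheory AlgebraicGeometry TensorProduct

universe u v

namespace Pool.Agent.T2h63.CY

open Module Polynomial
open Pool.Agent.H914 Pool.Agent.H914.VarClass Pool.Agent.H914.VarClass.Obj
  Pool.Agent.H914.WeilCohomology
open Pool.Agent.Y121.AHS (toH)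
open Pool.Agent.Y121.AH (CW em em_gr em_add em_zero em_tr hodgePred pq_ind tmul_eq top_eq
  exists_tr_hodge tmul_ind)
open Pool.Agent.Y133.Half (ClassPred)
open Pool.Agent.T2h63.AH

variable {k : Type u} [Field k] {𝒱 : VarClass k} {ops : CycleOps 𝒱}

section Lag

variable {L V : Type*} [Field L] [CharZero L] [AddCommGroup V] [Module L V]

lemma zp_mono {M M' : ℕ} (h : M ≤ M') {N A : Module.End L V}
    (hA : adP N (zp L (Finset.Icc (-M : ℤ) M)) A = 0) :
    adP N (zp L (Finset.Icc (-M' : ℤ) M')) A = 0 := by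
  have hsub : Finset.Icc (-M : ℤ) M ⊆ Finset.Icc (-M' : ℤ) M' := by
    apply Finset.Icc_subset_Icc <;> omega
  rw [zp, ← Finset.prod_sdiff hsub, ← zp, ← zp, adP_mul, hA, adP_zero_right]

/-- The polynomials of Lagrange. -/
noncomputable def lag (L : Type*) [Field L] (s : Finset ℤ) (j : ℤ) : L[X] :=
  C ((zp L (s.erase j)).eval ((2 * j : ℤ) : L))⁻¹ * zp L (s.erase j)

lemma lag_eval (s : Finset ℤ) (j : ℤ) : (lag L s j).eval ((2 * j : ℤ) : L) = 1 := by
  rw [lag, eval_mul, eval_C, inv_mul_cancel₀ (zp_eval_ne (Finset.notMem_erase j s))]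

lemma lag_eval_ne {s : Finset ℤ} {i j : ℤ} (hi : i ∈ s) (hij : i ≠ j) :
    (lag L s j).eval ((2 * i : ℤ) : L) = 0 := by
  rw [lag, eval_mul, zp_eval (Finset.mem_erase.2 ⟨hij, hi⟩), mul_zero]

lemma lag_lin {s : Finset ℤ} {j : ℤ} (hj : j ∈ s) :
    (X - C ((2 * j : ℤ) : L)) * lag L s j =
      C ((zp L (s.erase j)).eval ((2 * j : ℤ) : L))⁻¹ * zp L s := by
  rw [lag, mul_left_comm]
  congr 1
  rw [zp, zp, Finset.mul_prod_erase s (fun j => X - C ((2 * j : ℤ) : L)) hj]

lemma natDegree_zp (s : Finset ℤ) : (zp L s).natDegree = s.card := by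
  rw [zp, natDegree_finsetProd_X_sub_C_eq_card]

lemma sum_lag {s : Finset ℤ} (hs : s.Nonempty) : ∑ j ∈ s, lag L s j = 1 := by
  have hinj : Function.Injective fun j : ℤ => ((2 * j : ℤ) : L) := by
    intro a b h
    have h1 : (2 * a : ℤ) = 2 * b := Int.cast_injective h
    omega
  refine eq_of_degree_sub_lt_of_eval_index_eq s (v := fun j : ℤ => ((2 * j : ℤ) : L))
    hinj.injOn ?_ ?_
  · refine (degree_sub_le _ _).trans_lt (max_lt ?_ ?_)
    · refine (degree_sum_le _ _).trans_lt ?_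
      rw [Finset.sup_lt_iff (by rw [bot_lt_iff_ne_bot]; exact WithBot.coe_ne_bot)]
      intro j hj
      rw [lag, ← smul_eq_C_mul]
      refine (degree_smul_le _ _).trans_lt ?_
      refine degree_le_natDegree.trans_lt ?_
      rw [natDegree_zp, Finset.card_erase_of_mem hj]
      have := Finset.card_pos.2 hs
      exact_mod_cast Nat.sub_lt this one_pos
    · rw [degree_one]
      exact_mod_cast Finset.card_pos.2 hs
  · intro i hi
    rw [eval_finsetSum, Finset.sum_eq_single i]
    · rw [lag_eval, eval_one]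
    · intro j _ hj
      exact lag_eval_ne hi (Ne.symm hj)
    · intro h; exact absurd hi h

lemma adP_sum {N A : Module.End L V} {s : Finset ℤ} (P : ℤ → L[X]) :
    adP N (∑ j ∈ s, P j) A = ∑ j ∈ s, adP N (P j) A := by
  rw [adP, map_sum, LinearMap.sum_apply]
  rfl

end Lag

variable {T : Pool.Agent.Y121.AHS.HodgeTheory ops} {w : ℕ} {X Y : 𝒱.Obj} {𝒵 : Set 𝒱.Obj}

/-- The homogeneous parts of a family for two varieties. -/
lemma exists_hom {F : Fam (CW (toH T))} (hF : FamLie (toH T) F) (X Y : 𝒱.Obj) (w : ℕ) :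
    ∃ s : Finset ℤ, (w : ℤ) ∈ s ∧ s.Nonempty ∧
      (∀ j ∈ s, ∀ Z, Z = X ∨ Z = Y → nop (toH T) Z * adP (nop (toH T) Z) (lag _ s j) (F Z) -
        adP (nop (toH T) Z) (lag _ s j) (F Z) * nop (toH T) Z =
          ((2 * j : ℤ) : (CW (toH T)).K) • adP (nop (toH T) Z) (lag _ s j) (F Z)) := by
  obtain ⟨M, hM, h1⟩ := exists_zp w hF X
  obtain ⟨M', hM', h2⟩ := exists_zp w hF Y
  refine ⟨Finset.Icc (-(max M M' : ℕ) : ℤ) (max M M' : ℕ), ?_, ?_, fun j hj Z hZ => ?_⟩
  · rw [Finset.mem_Icc]; omega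
  · exact ⟨0, by rw [Finset.mem_Icc]; omega⟩
  · have h3 : adP (nop (toH T) Z) (zp (CW (toH T)).K
        (Finset.Icc (-(max M M' : ℕ) : ℤ) (max M M' : ℕ))) (F Z) = 0 := by
      rcases hZ with rfl | rfl
      · exact zp_mono (le_max_left _ _) h1
      · exact zp_mono (le_max_right _ _) h2
    have h4 := adP_lin (nop (toH T) Z) (adP (nop (toH T) Z) (lag (CW (toH T)).K
      (Finset.Icc (-(max M M' : ℕ) : ℤ) (max M M' : ℕ)) j) (F Z))
      ((2 * j : ℤ) : (CW (toH T)).K)
    rw [← adP_mul, lag_lin hj, adP_mul, h3, adP_zero_right] at h4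
    exact (sub_eq_zero.1 h4.symm)

lemma sum_hom (F : Fam (CW (toH T))) (Z : 𝒱.Obj) {s : Finset ℤ} (hs : s.Nonempty) :
    F Z = ∑ j ∈ s, adP (nop (toH T) Z) (lag (CW (toH T)).K s j) (F Z) := by
  rw [← adP_sum, sum_lag hs, adP_one]

/-- The Hodge operator on the cohomology of degree `w`. -/
noncomputable def nV (S : Pool.Agent.Y121.AH.HodgeTheory ops) (w : ℕ) (X : 𝒱.Obj) :
    Module.End (CW S).K (VV S w X) := rs w X FamLie.nop

/-- The classes of degree different from `w` are combinations of Hodge classes. -/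
def Other (S : Pool.Agent.Y121.AH.HodgeTheory ops) (w : ℕ) (X : 𝒱.Obj) : Prop :=
  ∀ i, i ≠ w → ∀ c ∈ S.W.gr X i, c ∈ (hodgePred S).sp X

section Gen

variable {S : Pool.Agent.Y121.AH.HodgeTheory ops}

lemma deg_of_eq {F : Fam (CW S)} (hF : FamLie S F) {m : ℤ}
    (h : nop S X * F X - F X * nop S X = (m : (CW S).K) • F X) :
    Deg (nV S w X) m (rs w X hF) := by
  refine LinearMap.ext fun x => Subtype.ext ?_
  exact congrArg (fun A : Module.End (CW S).K ((CW S).H X) => A x) h

lemma vec_iff {m : ℤ} {x : VV S w X} : Vec (nV S w X) m x ↔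
    nop S X (x : (CW S).H X) = (m : (CW S).K) • (x : (CW S).H X) :=
  ⟨fun h => congrArg Subtype.val h, fun h => Subtype.ext h⟩

lemma fam_sp {F : Fam (CW S)} (hF : FamLie S F) {c : S.W.H X}
    (hc : c ∈ (hodgePred S).sp X) : F X (em S.W ℂ c) = 0 := by
  refine ClassPred.sp_ind (Q := hodgePred S) (q := fun c => F X (em S.W ℂ c) = 0)
    (fun j a ha => hF.hodge ha) ?_ ?_ hc
  · rw [em_zero, map_zero]
  · intro x y hx hy
    rw [em_add, map_add, hx, hy, add_zero]

/-- The families vanish on the cohomology of the other degrees. -/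
lemma fam_other (hX : Other S w X) {F : Fam (CW S)} (hF : FamLie S F) {i : ℕ}
    (hi : i ≠ w) {x : (CW S).H X} (hx : x ∈ (CW S).gr X i) : F X x = 0 := by
  have hx' : x ∈ (S.W.gr X i).baseChange ℂ := hx
  refine base_induction (P := fun x : ℂ ⊗[S.W.K] S.W.H X => F X (show (CW S).H X from x) = 0)
    ?_ ?_ ?_ hx'
  · exact map_zero (F X)
  · intro x y hx hy
    exact (map_add (F X) (show (CW S).H X from x) (show (CW S).H X from y)).trans
      ((congrArg₂ (· + ·) hx hy).trans (add_zero _))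
  · intro l a ha
    have h := tmul_eq (W := S.W) (L := ℂ) l a
    have h2 : F X (show (CW S).H X from (l ⊗ₜ[S.W.K] a)) = 0 := by
      rw [h, map_smul, fam_sp hF (hX i hi a ha), smul_zero]
    exact h2

/-- Families which agree on the cohomology of degree `w` agree. -/
lemma fam_ext (hX : Other S w X) {F G : Fam (CW S)} (hF : FamLie S F)
    (hG : FamLie S G) (h : ∀ x : VV S w X, F X x = G X x) : F X = G X := by
  apply LinearMap.ext
  intro x
  refine gr_induction ((CW S).isInternal X) (p := fun x => F X x = G X x) ?_ ?_ x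
  · intro i x hx
    by_cases hi : i = w
    · subst hi
      exact h ⟨x, hx⟩
    · rw [fam_other hX hF hi hx, fam_other hX hG hi hx]
  · intro a b ha hb
    rw [map_add, map_add, ha, hb]

/-- The commutator with the Hodge operator on `X`. -/
lemma eq_of_deg (hX : Other S w X) {F : Fam (CW S)} (hF : FamLie S F) {m : ℤ}
    (h : Deg (nV S w X) m (rs w X hF)) :
    nop S X * F X - F X * nop S X = (m : (CW S).K) • F X := by
  refine fam_ext hX (FamLie.nop.bra hF) (hF.smul (m : (CW S).K)) fun x => ?_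
  exact congrArg (fun A : Module.End (CW S).K (VV S w X) => ((A x : VV S w X) : (CW S).H X)) h

/-- The traces vanish on the images of the families. -/
lemma fam_tr {F : Fam (CW S)} (hF : FamLie S F) (x : (CW S).H X) :
    (CW S).tr X (F X x) = 0 := by
  rcases subsingleton_or_nontrivial (S.W.H X) with hs | hn
  · have h1 : ∀ x : (CW S).H X, x = 0 := by
      intro x
      refine tmul_ind (p := fun x => x = 0) rfl ?_ ?_ x
      · rintro x y rfl rfl; rw [add_zero]
      · intro l a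
        rw [tmul_eq, Subsingleton.elim a 0, em_zero, smul_zero]
    rw [h1 (F X x), map_zero]
  · obtain ⟨l, hl, hl1⟩ := exists_tr_hodge S X
    refine gr_induction ((CW S).isInternal X) (p := fun x => (CW S).tr X (F X x) = 0) ?_ ?_ x
    · intro i x hx
      by_cases hi : i = 2 * X.dim
      · subst hi
        have h1 : (CW S).tr X (em S.W ℂ l) = 1 := by
          rw [em_tr, hl1]; exact map_one (algebraMap S.W.K ℂ)
        have h2 := top_eq (W := CW S) (em_gr hl.1) h1 hx
        rw [h2, map_smul, hF.hodge hl, smul_zero, map_zero]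
      · exact (CW S).tr_eq_zero (hF.gr hx) hi
    · intro a b ha hb; rw [map_add, map_add, ha, hb, add_zero]

/-- The families are skew for the intersection form. -/
lemma fam_skew {F : Fam (CW S)} (hF : FamLie S F) (x y : (CW S).H X) :
    (CW S).tr X (F X x * y) + (CW S).tr X (x * F X y) = 0 := by
  rw [← map_add, ← hF.isDer.mul, fam_tr hF]

lemma skew (w : ℕ) (𝒵 : Set 𝒱.Obj) (X : 𝒱.Obj) : Skew (ifm S w X) (GZ S w 𝒵 X) := by
  rintro A ⟨F, hF, -, h⟩ x y
  rw [ifm_apply, ifm_apply, h, h]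
  exact fam_skew hF _ _

/-- The families commute with push-forward. -/
lemma fam_push {F : Fam (CW S)} (hF : FamLie S F) (f : X ⟶ Y) (x : (CW S).H X) :
    F Y ((CW S).push f x) = (CW S).push f (F X x) := by
  apply (CW S).tr_ext
  intro y
  have h1 := fam_skew hF ((CW S).push f x) y
  have h2 := fam_skew hF x ((CW S).map f y)
  rw [(CW S).tr_push, ← hF.isDer.map] at h1
  rw [(CW S).tr_push]
  exact (add_right_cancel (h1.trans h2.symm))

/-- Elements of ideals. -/
lemma bra_mem {𝒵 : Set 𝒱.Obj} {A B : Module.End (CW S).K (VV S w X)} (hA : A ∈ GZ S w ∅ X)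
    (hB : B ∈ GZ S w 𝒵 X) : A * B - B * A ∈ GZ S w 𝒵 X := by
  obtain ⟨F, hF, -, h1⟩ := hA
  obtain ⟨G, hG, h3, h2⟩ := hB
  refine ⟨_, hF.bra hG, fun Z hZ => by rw [h3 Z hZ, mul_zero, zero_mul, sub_zero], fun x => ?_⟩
  rw [LinearMap.sub_apply, LinearMap.sub_apply, Module.End.mul_apply, Module.End.mul_apply,
    Module.End.mul_apply, Module.End.mul_apply, Submodule.coe_sub, h1, h2, h2, h1]

lemma GZ_mono {𝒵 𝒵' : Set 𝒱.Obj} (h : 𝒵 ⊆ 𝒵') : GZ S w 𝒵' X ≤ GZ S w 𝒵 X := by
  rintro A ⟨F, hF, h1, h2⟩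
  exact ⟨F, hF, fun Z hZ => h1 Z (h hZ), h2⟩

lemma GZ_le {𝒵 : Set 𝒱.Obj} : GZ S w 𝒵 X ≤ GZ S w ∅ X := GZ_mono (Set.empty_subset _)

end Gen

/-- The Lie algebra is spanned by homogeneous elements. -/
lemma lieS (T : Pool.Agent.Y121.AHS.HodgeTheory ops) (w : ℕ) (X : 𝒱.Obj) :
    LieS (GZ (toH T) w ∅ X) (nV (toH T) w X) where
  bra A hA B hB := bra_mem hA hB
  mem := rs_mem FamLie.nop (by simp)
  hom := by
    rintro A ⟨F, hF, -, h1⟩
    obtain ⟨s, -, hs, h2⟩ := exists_hom hF X X 0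
    have h3 : A = ∑ j ∈ s, rs w X (hF.adP (lag (CW (toH T)).K s j)) := by
      refine LinearMap.ext fun x => Subtype.ext ?_
      rw [h1, LinearMap.sum_apply, Submodule.coe_sum]
      conv_lhs => rw [sum_hom F X hs]
      rw [LinearMap.sum_apply]
      rfl
    rw [h3]
    refine Submodule.sum_mem _ fun j hj => Submodule.subset_span ⟨rs_mem _ (by simp), 2 * j, ?_⟩
    exact deg_of_eq (hF.adP (lag (CW (toH T)).K s j)) (h2 j hj X (Or.inl rfl))

end Pool.Agent.T2h63.CY
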