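import Pool.Agent.T2h63.CY.Geo1

/-!
# The cohomology of Calabi-Yau type
-/

set_option linter.unusedSectionVars false

open CategoryTheory AlgebraicGeometry TensorProduct

universe u v

namespace Pool.Agent.T2h63.CY

open Module
open Pool.Agent.H914 Pool.Agent.H914.VarClass Pool.Agent.H914.VarClass.Obj
  Pool.Agent.H914.WeilCohomology
open Pool.Agent.Y121.AH (CW em em_gr em_add em_zero em_tr hodgePred pq_ind tmul_eq top_eq
  exists_tr_hodge tmul_ind)
open Pool.Agent.T2h63.AH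

variable {k : Type u} [Field k] {𝒱 : VarClass k} {ops : CycleOps 𝒱}
  {S : Pool.Agent.Y121.AH.HodgeTheory ops} {w : ℕ} {X Y : 𝒱.Obj}

/-- The conditions on `X`; `τ` is the complex conjugation. -/
structure CYS (S : Pool.Agent.Y121.AH.HodgeTheory ops) (τ : ℂ ≃ₐ[S.W.K] ℂ) (w : ℕ)
    (X : 𝒱.Obj) : Prop where
  dim : X.dim = w
  other : Other S w X
  one : ∃ Ω ∈ S.pq X w 0, Ω ≠ 0 ∧ ∀ x ∈ S.pq X w 0, ∃ c : (CW S).K, x = c • Ω
  range : ∀ (p q : ℤ) (x : (CW S).H X), x ∈ S.pq X p q → x ≠ 0 → 0 ≤ p ∧ 0 ≤ q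
  conj : ∀ (p q : ℤ) (x : (CW S).H X), x ∈ S.pq X p q → sg S τ X x ∈ S.pq X q p
  irr : Irr (GZ S w ∅ X)

lemma ifm_alt (hw : Odd w) (x : VV S w X) : ifm S w X x x = 0 := by
  have h1 := (CW S).comm x.2 x.2
  rw [(hw.mul hw).neg_one_pow, neg_smul, one_smul] at h1
  have h2 := congrArg ((CW S).tr X) h1
  rw [map_neg] at h2
  rw [ifm_apply]
  have h3 : (2 : (CW S).K) * (CW S).tr X ((x : (CW S).H X) * x) = 0 := by
    linear_combination h2
  exact (mul_eq_zero.1 h3).resolve_left two_ne_zero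

lemma ifm_nondeg (hd : X.dim = w) {x : VV S w X} (h : ∀ y, ifm S w X x y = 0) : x = 0 := by
  refine Subtype.ext ((CW S).nondeg _ fun b => ?_)
  refine gr_induction ((CW S).isInternal X)
    (p := fun b => (CW S).tr X ((x : (CW S).H X) * b) = 0) ?_ ?_ b
  · intro i b hb
    by_cases hi : i = w
    · subst hi
      exact h ⟨b, hb⟩
    · exact (CW S).tr_eq_zero ((CW S).mul_mem x.2 hb) (by omega)
  · intro a b ha hb
    rw [mul_add, map_add, ha, hb, add_zero]

/-- Induction over the types. -/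
lemma VV_ind {p : VV S w X → Prop} (h : ∀ (r s : ℤ) (hrs : r + s = w) (y : (CW S).H X)
    (hy : y ∈ S.pq X r s), y ≠ 0 → p ⟨y, S.dec.le X hrs hy⟩) (h0 : p 0)
    (hadd : ∀ x y, p x → p y → p (x + y)) (x : VV S w X) : p x := by
  have hx : (x : (CW S).H X) ∈ (⨆ r : {r : ℤ × ℤ // r.1 + r.2 = w}, S.pq X r.1.1 r.1.2 :
      Submodule (CW S).K ((CW S).H X)) := (gr_eq X w) ▸ x.2
  have key : ∀ y : (CW S).H X, y ∈ (⨆ r : {r : ℤ × ℤ // r.1 + r.2 = w}, S.pq X r.1.1 r.1.2 :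
      Submodule (CW S).K ((CW S).H X)) → ∃ hy : y ∈ (CW S).gr X w, p ⟨y, hy⟩ := by
    intro y hy
    refine Submodule.iSup_induction
      (fun r : {r : ℤ × ℤ // r.1 + r.2 = w} => S.pq X r.1.1 r.1.2)
      (motive := fun y => ∃ hy : y ∈ (CW S).gr X w, p ⟨y, hy⟩) hy ?_ ?_ ?_
    · rintro ⟨⟨r, s⟩, hrs⟩ y hy
      refine ⟨S.dec.le X hrs hy, ?_⟩
      by_cases hy0 : y = 0
      · subst hy0
        exact h0
      · exact h r s hrs y hy hy0
    · exact ⟨Submodule.zero_mem _, h0⟩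
    · rintro a b ⟨ha, ha'⟩ ⟨hb, hb'⟩
      exact ⟨Submodule.add_mem _ ha hb, hadd _ _ ha' hb'⟩
  obtain ⟨_, h1⟩ := key x hx
  exact h1

lemma vec_pq {r s : ℤ} (hrs : r + s = w) {y : (CW S).H X} (hy : y ∈ S.pq X r s) :
    Vec (nV S w X) (r - s) ⟨y, S.dec.le X hrs hy⟩ := vec_iff.2 (nop_pq hy)

lemma pq_vec {r s : ℤ} (hrs : r + s = w) {x : VV S w X} (hx : Vec (nV S w X) (r - s) x) :
    (x : (CW S).H X) ∈ S.pq X r s := pq_of_eigen x.2 (vec_iff.1 hx) hrs rfl

/-- The data of the level gap for the cohomology of `X`. -/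
theorem topData {τ : ℂ ≃ₐ[S.W.K] ℂ} (hw : Odd w) (hX : CYS S τ w X) :
    ∃ Ω Ω' : VV S w X, TopData (ifm S w X) (nV S w X) w Ω Ω' := by
  obtain ⟨Ω, hΩ, hΩ0, hΩ1⟩ := hX.one
  have hN : ∀ x y, ifm S w X (nV S w X x) y + ifm S w X x (nV S w X y) = 0 :=
    skew w ∅ X _ (rs_mem FamLie.nop (by simp))
  have hw0 : (w : ℤ) + 0 = w := by omega
  have hw0' : (0 : ℤ) + w = w := by omega
  set O : VV S w X := ⟨Ω, S.dec.le X hw0 hΩ⟩ with hO
  have hOv : Vec (nV S w X) w O := by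
    have := vec_pq hw0 hΩ
    rwa [sub_zero] at this
  have hex : ∃ z ∈ S.pq X 0 w, (CW S).tr X (Ω * z) ≠ 0 := by
    by_contra hcon
    push Not at hcon
    apply hΩ0
    refine congrArg Subtype.val (ifm_nondeg hX.dim (x := O) fun y => ?_)
    refine VV_ind (p := fun y => ifm S w X O y = 0) ?_ (map_zero _) ?_ y
    · intro r s hrs y hy _
      by_cases hr : r = 0
      · subst hr
        obtain rfl : s = w := by omega
        exact hcon y hy
      · exact orth hN (by omega) hOv (vec_pq hrs hy)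
    · intro x y hx hy; rw [map_add, hx, hy, add_zero]
  obtain ⟨z, hz, hz0⟩ := hex
  set O' : VV S w X := ((CW S).tr X (Ω * z))⁻¹ • ⟨z, S.dec.le X hw0' hz⟩ with hO'
  have hO'v : Vec (nV S w X) (-w) O' := by
    have h1 := vec_pq hw0' hz
    rw [zero_sub] at h1
    rw [hO', Vec, map_smul, h1, smul_comm]
  have hpair : ifm S w X O O' = 1 := by
    rw [hO', map_smul, smul_eq_mul]
    exact inv_mul_cancel₀ hz0
  have htotal : ∀ x, x ∈ Submodule.span (CW S).K {y : VV S w X | ∃ m : ℤ, -w ≤ m ∧ m ≤ w ∧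
      Even (m - w) ∧ Vec (nV S w X) m y} := by
    intro x
    refine VV_ind (p := fun x => x ∈ Submodule.span (CW S).K {y : VV S w X | ∃ m : ℤ,
      -w ≤ m ∧ m ≤ w ∧ Even (m - w) ∧ Vec (nV S w X) m y}) ?_ (Submodule.zero_mem _)
      (fun _ _ => Submodule.add_mem _) x
    intro r s hrs y hy hy0
    obtain ⟨h1, h2⟩ := hX.range r s y hy hy0
    exact Submodule.subset_span ⟨r - s, by omega, by omega, ⟨-s, by omega⟩, vec_pq hrs hy⟩
  have htop : ∀ x, Vec (nV S w X) w x → ∃ c : (CW S).K, x = c • O := by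
    intro x hx
    obtain ⟨c, hc⟩ := hΩ1 x (pq_vec hw0 (by rwa [sub_zero]))
    exact ⟨c, Subtype.ext hc⟩
  have hanti : ∀ x y, ifm S w X x y = -ifm S w X y x := by
    intro x y
    have h := ifm_alt hw (x + y)
    simp only [map_add, LinearMap.add_apply, ifm_alt hw, zero_add, add_zero] at h
    linear_combination h
  refine ⟨O, O', ifm_alt hw, fun x h => ifm_nondeg hX.dim h, htotal, hpair, hOv, hO'v, htop, ?_⟩
  intro x hx
  refine ⟨ifm S w X O x, ?_⟩
  rw [← sub_eq_zero]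
  refine ifm_nondeg hX.dim fun y => ?_
  have hv : Vec (nV S w X) (-w) (x - ifm S w X O x • O') := by
    rw [Vec] at hx hO'v ⊢
    rw [map_sub, map_smul, hx, hO'v, smul_sub, smul_comm]
  refine VV_ind (p := fun y => ifm S w X (x - ifm S w X O x • O') y = 0) ?_ (map_zero _) ?_ y
  · intro r s hrs y hy _
    by_cases hs : s = 0
    · subst hs
      obtain rfl : r = w := by omega
      obtain ⟨c, hc⟩ := htop ⟨y, S.dec.le X hrs hy⟩ (by
        have := vec_pq hrs hy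
        rwa [sub_zero] at this)
      rw [hc, map_smul, hanti, map_sub, map_smul, hpair]
      simp
    · exact orth hN (by omega) hv (vec_pq hrs hy)
  · intro x y hx hy; rw [map_add, hx, hy, add_zero]

end Pool.Agent.T2h63.CY
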