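import Pool.Agent.T2h63.CY.Geo2
import Pool.Agent.T2h63.CY.Sp

/-!
# Squares of holomorphic forms in the Hodge Lie algebra and the separation
-/

set_option linter.unusedSectionVars false

open CategoryTheory AlgebraicGeometry TensorProduct

universe u v

namespace Pool.Agent.T2h63.CY

open Module Polynomial
open Pool.Agent.H914 Pool.Agent.H914.VarClass Pool.Agent.H914.VarClass.Obj
  Pool.Agent.H914.WeilCohomology
open Pool.Agent.Y121.AHS (toH)
open Pool.Agent.Y121.AH (CW em em_gr em_add em_zero em_tr ex hodgePred pq_ind tmul_eq top_eq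
  exists_tr_hodge tmul_ind)
open Pool.Agent.T2h63.AH

variable {k : Type u} [Field k] {𝒱 : VarClass k} {ops : CycleOps 𝒱}

section Gen

variable {S : Pool.Agent.Y121.AH.HodgeTheory ops} {w : ℕ} {X Y : 𝒱.Obj} {τ : ℂ ≃ₐ[S.W.K] ℂ}

lemma sg_tr (τ : ℂ ≃ₐ[S.W.K] ℂ) (x : (CW S).H X) :
    (CW S).tr X (sg S τ X x) = sc S τ ((CW S).tr X x) := by
  refine tmul_ind (p := fun x => (CW S).tr X (sg S τ X x) = sc S τ ((CW S).tr X x)) ?_ ?_ ?_ x
  · rw [map_zero, map_zero]; exact (map_zero τ).symm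
  · intro x y hx hy
    rw [map_add, map_add, hx, hy, map_add]; exact (map_add τ _ _).symm
  · intro l a
    rw [tmul_eq, sg_smul, sg_em, map_smul, map_smul, em_tr]
    have h2 : sc S τ (ex S.W ℂ (S.W.tr X a)) = ex S.W ℂ (S.W.tr X a) := τ.commutes _
    have h3 : sc S τ ((show (CW S).K from l) • ex S.W ℂ (S.W.tr X a)) =
        sc S τ (show (CW S).K from l) * sc S τ (ex S.W ℂ (S.W.tr X a)) := map_mul τ _ _
    rw [h3, h2]
    rfl

/-- The conjugate of the Hodge operator by the complex conjugation. -/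
lemma cop_nop (hc : ∀ (p q : ℤ) (x : (CW S).H X), x ∈ S.pq X p q → sg S τ X x ∈ S.pq X q p) :
    cop τ (nop S X) = -nop S X := by
  refine eq_of_sg τ fun y => ?_
  rw [cop_sg]
  refine pq_ind S (p := fun y => sg S τ X (nop S X y) = (-nop S X) (sg S τ X y)) ?_ ?_ ?_ y
  · intro p q x hx
    rw [nop_pq hx, sg_smul, sc_int, LinearMap.neg_apply, nop_pq (hc p q x hx), ← neg_smul,
      ← Int.cast_neg, neg_sub]
  · intro a b ha hb; rw [map_add, map_add, ha, hb, map_add, map_add]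
  · rw [map_zero, map_zero, map_zero]

lemma cop_deg (hc : ∀ (p q : ℤ) (x : (CW S).H X), x ∈ S.pq X p q → sg S τ X x ∈ S.pq X q p)
    {A : Module.End (CW S).K ((CW S).H X)} {m : ℤ}
    (h : nop S X * A - A * nop S X = (m : (CW S).K) • A) :
    nop S X * cop τ A - cop τ A * nop S X = ((-m : ℤ) : (CW S).K) • cop τ A := by
  have h1 := congrArg (cop τ) h
  rw [cop_sub, cop_mul, cop_mul, cop_smul, sc_int, cop_nop hc] at h1
  refine LinearMap.ext fun x => ?_
  have h2 := congrArg (fun B : Module.End (CW S).K ((CW S).H X) => B x) h1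
  simp only [LinearMap.sub_apply, Module.End.mul_apply, LinearMap.neg_apply,
    LinearMap.smul_apply, map_neg] at h2 ⊢
  rw [Int.cast_neg, neg_smul, ← h2]
  abel

lemma cop_inj {A : Module.End (CW S).K ((CW S).H X)} (h : cop τ A = 0) : A = 0 := by
  refine LinearMap.ext fun x => ?_
  have h1 := congrArg (fun B : Module.End (CW S).K ((CW S).H X) => B (sg S τ X x)) h
  simp only [LinearMap.zero_apply] at h1
  rw [cop_sg] at h1
  have h2 := congrArg (sg S τ.symm X) h1
  rw [sg_symm', map_zero] at h2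
  rw [h2, LinearMap.zero_apply]

lemma fam_eq_zero (hX : Other S w X) {F : Fam (CW S)} (hF : FamLie S F)
    (h : rs w X hF = 0) : F X = 0 := by
  have h1 := fam_ext hX hF (hF.smul 0) fun x => by
    rw [zero_smul, LinearMap.zero_apply]
    exact congrArg (fun A : Module.End (CW S).K (VV S w X) => ((A x : VV S w X) : (CW S).H X)) h
  rw [h1, zero_smul]

lemma sq_deg {m : ℤ} {Ω Ω' : VV S w X} (hT : TopData (ifm S w X) (nV S w X) m Ω Ω') :
    Deg (nV S w X) (2 * m) (op2 (ifm S w X) Ω Ω) := by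
  have hN := skew w ∅ X (nV S w X) (rs_mem FamLie.nop (by simp))
  have h := hT.vec
  rw [Vec] at h
  rw [Deg, op2_comm hN, h, op2_smul, op2_smul', ← add_smul]
  congr 1
  push_cast
  ring

lemma sq_ne {m : ℤ} {Ω Ω' : VV S w X} (hT : TopData (ifm S w X) (nV S w X) m Ω Ω') :
    op2 (ifm S w X) Ω Ω ≠ 0 := by
  intro h
  have h1 := congrArg (fun A : Module.End (CW S).K (VV S w X) => ifm S w X (A Ω') Ω') h
  simp only [op2_apply, hT.pair, one_smul, map_add, LinearMap.add_apply, LinearMap.zero_apply,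
    map_zero] at h1
  norm_num at h1

end Gen

variable {T : Pool.Agent.Y121.AHS.HodgeTheory ops} {w : ℕ} {X Y : 𝒱.Obj}
  {τ : ℂ ≃ₐ[(toH T).W.K] ℂ} {𝒵 : Set 𝒱.Obj}

section Gap

variable (hw3 : 3 ≤ w) (hX : CYS (toH T) τ w X) {Ω Ω' : VV (toH T) w X}
  (hT : TopData (ifm (toH T) w X) (nV (toH T) w X) w Ω Ω')

include hw3 hX hT

lemma sq_of_deg {B : Module.End (CW (toH T)).K (VV (toH T) w X)}
    (hB : B ∈ GZ (toH T) w ∅ X) (hB0 : B ≠ 0) {j : ℤ} (hj : (w : ℤ) - 2 < j)
    (hd : Deg (nV (toH T) w X) (2 * j) B) :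
    op2 (ifm (toH T) w X) Ω Ω ∈ GZ (toH T) w ∅ X := by
  obtain ⟨h1, h2⟩ := t_TOP _ _ _ _ _ (lieS T w X) (skew w ∅ X) w (by omega) Ω Ω' hT
  have key : ∀ C ∈ GZ (toH T) w ∅ X, C ≠ 0 → Deg (nV (toH T) w X) (2 * w) C →
      op2 (ifm (toH T) w X) Ω Ω ∈ GZ (toH T) w ∅ X := by
    intro C hC hC0 hCd
    obtain ⟨c, hc⟩ := h2 C hC hCd
    have hc0 : c ≠ 0 := by
      rintro rfl
      rw [zero_smul] at hc
      exact hC0 hc
    have h3 := Submodule.smul_mem _ c⁻¹ hC
    rwa [hc, smul_smul, inv_mul_cancel₀ hc0, one_smul] at h3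
  rcases lt_trichotomy j w with h | h | h
  · obtain rfl : j = w - 1 := by omega
    by_contra hcon
    refine hB0 (t_GAP _ _ _ _ _ (lieS T w X) (skew w ∅ X) hX.irr w (by omega) Ω Ω' hT
      (fun C hC hCd => ?_) B hB hd)
    by_contra hC0
    exact hcon (key C hC hC0 hCd)
  · subst h
    exact key B hB hB0 hd
  · exact absurd (h1 _ B (by omega) hd) hB0

/-- **The level gap.** -/
lemma sq_mem (hlev : ¬ LevelLE T X (w - 2)) :
    op2 (ifm (toH T) w X) Ω Ω ∈ GZ (toH T) w ∅ X := by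
  have h1 : ∃ A, IsHigh (T.pq X) (w - 2) A ∧ ¬ IsZeroOp A := by
    by_contra hcon
    push Not at hcon
    exact hlev hcon
  obtain ⟨A, ⟨hA, j, hj, hA'⟩, hA0⟩ := h1
  obtain ⟨F, hF, hFA⟩ := exists_fam hA
  have he := eigen_of_type hA'
  rw [← hFA] at he
  have hF0 : F X ≠ 0 := by
    intro h
    rw [h] at hFA
    apply hA0
    have h2 : ofC (toC A) = ofC (0 : Module.End (CW (toH T)).K ((CW (toH T)).H X)) := by
      rw [← hFA]
    rwa [ofC_toC, ofC_zero] at h2
  rcases lt_or_ge 0 j with hj0 | hj0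
  · rw [abs_of_pos hj0] at hj
    refine sq_of_deg hw3 hX hT (rs_mem hF (by simp)) (fun h => hF0 (fam_eq_zero hX.other hF h))
      (j := j) (by omega) (deg_of_eq hF he)
  · rw [abs_of_nonpos hj0] at hj
    have he' := cop_deg hX.conj he
    refine sq_of_deg hw3 hX hT (rs_mem (hF.conj τ) (by simp))
      (fun h => hF0 (cop_inj (fam_eq_zero hX.other (hF.conj τ) h))) (j := -j) (by omega)
      (deg_of_eq (hF.conj τ) ?_)
    rw [he']
    congr 2
    ring

end Gap

end Pool.Agent.T2h63.CY
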