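import Pool.Agent.T2h63.CY.Geo3

/-!
# The separation of the varieties of Calabi-Yau type
-/

set_option linter.unusedSectionVars false

open CategoryTheory AlgebraicGeometry TensorProduct

universe u v

namespace Pool.Agent.T2h63.CY

open Module Polynomial
open Pool.Agent.H914 Pool.Agent.H914.VarClass Pool.Agent.H914.VarClass.Obj
  Pool.Agent.H914.WeilCohomology
open Pool.Agent.Y121.AHS (toH)
open Pool.Agent.Y121.AH (CW em em_gr em_add em_zero em_tr ex hodgePred pq_ind tmul_eq top_eq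
  exists_tr_hodge tmul_ind)
open Pool.Agent.T2h63.AH

variable {k : Type u} [Field k] {𝒱 : VarClass k} {ops : CycleOps 𝒱}
  {T : Pool.Agent.Y121.AHS.HodgeTheory ops} {w : ℕ} {X Y : 𝒱.Obj}
  {τ : ℂ ≃ₐ[(toH T).W.K] ℂ} {𝒵 : Set 𝒱.Obj}

/-- The varieties of smaller level. -/
lemma sq_low (hw3 : 3 ≤ w) (hX : CYS (toH T) τ w X) {Ω Ω' : VV (toH T) w X}
    (hT : TopData (ifm (toH T) w X) (nV (toH T) w X) w Ω Ω')
    (hsq : op2 (ifm (toH T) w X) Ω Ω ∈ GZ (toH T) w ∅ X) (h𝒵 : ∀ Z ∈ 𝒵, LevelLE T Z (w - 1)) :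
    op2 (ifm (toH T) w X) Ω Ω ∈ GZ (toH T) w 𝒵 X := by
  obtain ⟨F, hF, -, h1⟩ := hsq
  have h2 : rs w X hF = op2 (ifm (toH T) w X) Ω Ω :=
    LinearMap.ext fun x => Subtype.ext (h1 x).symm
  have h3 := eq_of_deg hX.other hF (m := 2 * w) (h2 ▸ sq_deg hT)
  set P := zp (CW (toH T)).K (Finset.Icc (-(w - 1 : ℕ) : ℤ) (w - 1 : ℕ)) with hP
  have h4 : P.eval ((2 * w : ℤ) : (CW (toH T)).K) ≠ 0 := by
    apply zp_eval_ne
    rw [Finset.mem_Icc]
    omega
  refine ⟨_, (hF.adP P).smul (P.eval ((2 * w : ℤ) : (CW (toH T)).K))⁻¹, fun Z hZ => ?_,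
    fun x => ?_⟩
  · rw [level_vanish (h𝒵 Z hZ) hF, smul_zero]
  · rw [adP_eigen h3, smul_smul, inv_mul_cancel₀ h4, one_smul]
    exact h1 x

/-- The families on two varieties. -/
def G2 (S : Pool.Agent.Y121.AH.HodgeTheory ops) (w : ℕ) (X Y : 𝒱.Obj) :
    Submodule (CW S).K (Module.End (CW S).K (VV S w X) × Module.End (CW S).K (VV S w Y)) where
  carrier := {A | ∃ (F : Fam (CW S)) (hF : FamLie S F), A = (rs w X hF, rs w Y hF)}
  add_mem' := by
    rintro _ _ ⟨F, hF, rfl⟩ ⟨G, hG, rfl⟩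
    exact ⟨_, hF.add hG, rfl⟩
  zero_mem' := ⟨_, FamLie.nop.smul 0, by
    refine Prod.ext ?_ ?_
    · refine LinearMap.ext fun x => Subtype.ext ?_
      change (0 : (CW S).H X) = (0 : (CW S).K) • _
      rw [zero_smul]
    · refine LinearMap.ext fun x => Subtype.ext ?_
      change (0 : (CW S).H Y) = (0 : (CW S).K) • _
      rw [zero_smul]⟩
  smul_mem' := by
    rintro c _ ⟨F, hF, rfl⟩
    exact ⟨_, hF.smul c, rfl⟩

lemma irr2 {S : Pool.Agent.Y121.AH.HodgeTheory ops} (hI : Irr (GZ S w ∅ X))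
    (U : Submodule (CW S).K (VV S w X))
    (h : ∀ (F : Fam (CW S)) (hF : FamLie S F), ∀ x ∈ U, rs w X hF x ∈ U) : U = ⊥ ∨ U = ⊤ := by
  refine hI U ?_
  rintro A ⟨F, hF, -, h1⟩ x hx
  have h2 : A = rs w X hF := LinearMap.ext fun x => Subtype.ext (h1 x)
  rw [h2]
  exact h F hF x hx

/-- There is no nonzero morphism of representations. -/
def NoMor (S : Pool.Agent.Y121.AH.HodgeTheory ops) (w : ℕ) (X Y : 𝒱.Obj) : Prop :=
  ∀ φ : VV S w X →ₗ[(CW S).K] VV S w Y,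
    (∀ (F : Fam (CW S)) (hF : FamLie S F), φ ∘ₗ rs w X hF = rs w Y hF ∘ₗ φ) → φ = 0

lemma span_le {w : ℕ} {X : 𝒱.Obj} {Ω Ω' : VV (toH T) w X}
    (hT : TopData (ifm (toH T) w X) (nV (toH T) w X) w Ω Ω') (x : VV (toH T) w X) :
    x ∈ Submodule.span (CW (toH T)).K {y | ∃ m : ℤ, m ≤ w ∧ Vec (nV (toH T) w X) m y} := by
  refine Submodule.span_mono ?_ (hT.total x)
  rintro y ⟨m, -, h2, -, h4⟩
  exact ⟨m, h2, h4⟩

lemma omega_ne {S : Pool.Agent.Y121.AH.HodgeTheory ops} {w : ℕ} {X : 𝒱.Obj} {Ω Ω' : VV S w X}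
    (hT : TopData (ifm S w X) (nV S w X) w Ω Ω') : Ω ≠ 0 := by
  rintro rfl
  have := hT.pair
  rw [map_zero, LinearMap.zero_apply] at this
  exact zero_ne_one this

/-- The separation from another variety of Calabi-Yau type. -/
lemma sq_sep (hw3 : 3 ≤ w) (hX : CYS (toH T) τ w X) {Ω Ω' : VV (toH T) w X}
    (hT : TopData (ifm (toH T) w X) (nV (toH T) w X) w Ω Ω')
    (hsq : op2 (ifm (toH T) w X) Ω Ω ∈ GZ (toH T) w 𝒵 X)
    (hY : CYS (toH T) τ w Y) {Υ Υ' : VV (toH T) w Y}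
    (hT' : TopData (ifm (toH T) w Y) (nV (toH T) w Y) w Υ Υ') (hXY : NoMor (toH T) w X Y) :
    op2 (ifm (toH T) w X) Ω Ω ∈ GZ (toH T) w (insert Y 𝒵) X := by
  obtain ⟨F₀, hF₀, hZ₀, h0⟩ := hsq
  -- the homogeneous part
  obtain ⟨s, hs, -, hs2⟩ := exists_hom hF₀ X Y w
  have hr0 : rs w X hF₀ = op2 (ifm (toH T) w X) Ω Ω :=
    LinearMap.ext fun x => Subtype.ext (h0 x).symm
  have hd0 := eq_of_deg hX.other hF₀ (m := 2 * w) (hr0 ▸ sq_deg hT)
  have hF := hF₀.adP (lag (CW (toH T)).K s w)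
  have hFX : adP (nop (toH T) X) (lag (CW (toH T)).K s w) (F₀ X) = F₀ X := by
    rw [adP_eigen hd0, lag_eval, one_smul]
  have hdY := hs2 w hs Y (Or.inr rfl)
  have hFZ : ∀ Z ∈ 𝒵, adP (nop (toH T) Z) (lag (CW (toH T)).K s w) (F₀ Z) = 0 := by
    intro Z hZ
    rw [hZ₀ Z hZ, adP_zero_right]
  set F : Fam (CW (toH T)) := fun Y => adP (nop (toH T) Y) (lag (CW (toH T)).K s w) (F₀ Y) with hFd
  have hrX : ∀ x : VV (toH T) w X,
      ((op2 (ifm (toH T) w X) Ω Ω x : VV (toH T) w X) : (CW (toH T)).H X) = F X x := by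
    intro x
    rw [h0, hFd]
    exact congrArg (fun A : Module.End (CW (toH T)).K ((CW (toH T)).H X) => A x) hFX.symm
  have hrX' : rs w X hF = op2 (ifm (toH T) w X) Ω Ω :=
    LinearMap.ext fun x => Subtype.ext (hrX x).symm
  have hrY := deg_of_eq (w := w) hF hdY
  obtain ⟨c, hc⟩ := (t_TOP _ _ _ _ _ (lieS T w Y) (skew w ∅ Y) w (by omega) Υ Υ' hT').2 _
    (rs_mem hF (by simp)) hrY
  by_contra hcon
  -- the characters agree
  have hchar : ∀ (C : Fam (CW (toH T))) (hC : FamLie (toH T) C), Deg (nV (toH T) w X) 0 (rs w X hC) →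
      Deg (nV (toH T) w Y) 0 (rs w Y hC) →
      ∃ c : (CW (toH T)).K, rs w X hC Ω = c • Ω ∧ rs w Y hC Υ = c • Υ := by
    intro C hC hCX hCY
    obtain ⟨a, ha⟩ := hT.top (rs w X hC Ω) (by have := hCX.vec hT.vec; rwa [add_zero] at this)
    obtain ⟨b, hb⟩ := hT'.top (rs w Y hC Υ) (by have := hCY.vec hT'.vec; rwa [add_zero] at this)
    refine ⟨a, ha, ?_⟩
    by_contra hab
    have hab' : a - b ≠ 0 := by
      intro h
      rw [sub_eq_zero.1 h] at hab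
      exact hab hb
    have h2ab : (2 : (CW (toH T)).K) * (a - b) ≠ 0 := mul_ne_zero two_ne_zero hab'
    apply hcon
    have hG : FamLie (toH T) fun Z => (2 * (a - b))⁻¹ • ((C Z * F Z - F Z * C Z) +
        (-(2 * b)) • F Z) := ((hC.bra hF).add (hF.smul (-(2 * b)))).smul _
    have e1 : rs w X hC * rs w X hF - rs w X hF * rs w X hC = (2 * a) • rs w X hF := by
      rw [hrX', op2_comm (skew w ∅ X _ (rs_mem hC (by simp))), ha, op2_smul, op2_smul', ← add_smul,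
        two_mul]
    have e2 : rs w Y hC * rs w Y hF - rs w Y hF * rs w Y hC = (2 * b) • rs w Y hF := by
      rw [hc, ← op2_smul, op2_comm (skew w ∅ Y _ (rs_mem hC (by simp))), map_smul, hb, op2_smul,
        op2_smul, op2_smul, op2_smul', ← smul_add, ← add_smul, ← two_mul, smul_comm, op2_smul]
    refine ⟨_, hG, ?_, ?_⟩
    · rintro Z (rfl | hZ)
      · have h3 : rs w Z hG = 0 := by
          have h4 : rs w Z hG = (2 * (a - b))⁻¹ • ((rs w Z hC * rs w Z hF - rs w Z hF * rs w Z hC) +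
              (-(2 * b)) • rs w Z hF) := rfl
          rw [h4, e2, ← add_smul, add_neg_cancel, zero_smul, smul_zero]
        exact fam_eq_zero hY.other hG h3
      · change (2 * (a - b))⁻¹ • ((C Z * F Z - F Z * C Z) + (-(2 * b)) • F Z) = 0
        have h3 : F Z = 0 := hFZ Z hZ
        rw [h3, mul_zero, zero_mul, sub_zero, smul_zero, add_zero, smul_zero]
    · intro x
      have h4 : rs w X hG = (2 * (a - b))⁻¹ • ((rs w X hC * rs w X hF - rs w X hF * rs w X hC) +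
          (-(2 * b)) • rs w X hF) := rfl
      have h5 : rs w X hG = op2 (ifm (toH T) w X) Ω Ω := by
        rw [h4, e1, ← add_smul, hrX', smul_smul]
        have h6 : (2 * (a - b))⁻¹ * (2 * a + -(2 * b)) = 1 := by
          rw [show 2 * a + -(2 * b) = 2 * (a - b) by ring, inv_mul_cancel₀ h2ab]
        rw [h6, one_smul]
      rw [← h5]
      rfl
  obtain ⟨φ, hφ, hφ'⟩ := t_ISO (CW (toH T)).K (VV (toH T) w X) (VV (toH T) w Y)
    (G2 (toH T) w X Y) (nV (toH T) w X) (nV (toH T) w Y)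
    (by
      rintro _ ⟨F, hF, rfl⟩ _ ⟨G, hG, rfl⟩
      exact ⟨_, hF.bra hG, rfl⟩)
    ⟨_, FamLie.nop, rfl⟩
    (by
      rintro _ ⟨F, hF, rfl⟩
      obtain ⟨s, -, hs, h2⟩ := exists_hom hF X Y 0
      have h3 : ∀ Z, rs w Z hF = ∑ j ∈ s, rs w Z (hF.adP (lag (CW (toH T)).K s j)) := by
        intro Z
        refine LinearMap.ext fun x => Subtype.ext ?_
        rw [rs_apply, LinearMap.sum_apply, Submodule.coe_sum]
        conv_lhs => rw [sum_hom F Z hs]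
        rw [LinearMap.sum_apply]
        rfl
      have h4 : (rs w X hF, rs w Y hF) = ∑ j ∈ s, (rs w X (hF.adP (lag (CW (toH T)).K s j)),
          rs w Y (hF.adP (lag (CW (toH T)).K s j))) := by
        refine Prod.ext ?_ ?_
        · rw [Prod.fst_sum]; exact h3 X
        · rw [Prod.snd_sum]; exact h3 Y
      rw [h4]
      refine Submodule.sum_mem _ fun j hj => Submodule.subset_span
        ⟨⟨_, hF.adP (lag (CW (toH T)).K s j), rfl⟩, 2 * j, ?_, ?_⟩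
      · exact deg_of_eq (hF.adP (lag (CW (toH T)).K s j)) (h2 j hj X (Or.inl rfl))
      · exact deg_of_eq (hF.adP (lag (CW (toH T)).K s j)) (h2 j hj Y (Or.inr rfl)))
    (fun U hU => irr2 hX.irr U fun F hF x hx => hU _ ⟨F, hF, rfl⟩ x hx)
    (fun U hU => irr2 hY.irr U fun F hF x hx => hU _ ⟨F, hF, rfl⟩ x hx)
    w Ω Υ (omega_ne hT) (omega_ne hT') hT.vec hT'.vec (span_le hT) (span_le hT') hT.top hT'.top
    (by
      rintro _ ⟨C, hC, rfl⟩ h1 h2
      exact hchar C hC h1 h2)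
  exact hφ (hXY φ fun F hF => hφ' _ ⟨F, hF, rfl⟩)

section Gen

variable {S : Pool.Agent.Y121.AH.HodgeTheory ops} {w : ℕ} {X : 𝒱.Obj} {τ : ℂ ≃ₐ[S.W.K] ℂ}
  {𝒵 : Set 𝒱.Obj}

/-- All symmetric squares. -/
theorem all_mem (hX : CYS S τ w X) {Ω Ω' : VV S w X}
    (hT : TopData (ifm S w X) (nV S w X) w Ω Ω')
    (hsq : op2 (ifm S w X) Ω Ω ∈ GZ S w 𝒵 X) (x y : VV S w X) :
    op2 (ifm S w X) x y ∈ GZ S w 𝒵 X := by
  refine t_ALL _ _ _ hT.alt (GZ S w ∅ X) (GZ S w 𝒵 X) (skew w ∅ X) hX.irr GZ_le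
    (fun A hA B hB => bra_mem hA hB) Ω Ω' hT.pair hsq ?_ x y
  obtain ⟨F, hF, hZ, h0⟩ := hsq
  -- the conjugate of `Ω`
  have hw0 : (w : ℤ) + 0 = w := by omega
  have hw0' : (0 : ℤ) + w = w := by omega
  have hΩ : (Ω : (CW S).H X) ∈ S.pq X w 0 := pq_vec hw0 (by
    rw [sub_zero]; exact hT.vec)
  have hc := hX.conj _ _ _ hΩ
  obtain ⟨c, hc'⟩ := hT.bot ⟨sg S τ X Ω, S.dec.le X hw0' hc⟩ (by
    have := vec_pq hw0' hc
    rwa [zero_sub] at this)
  have hc'' : sg S τ X Ω = c • (Ω' : (CW S).H X) := congrArg Subtype.val hc'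
  have hc0 : c ≠ 0 := by
    rintro rfl
    rw [zero_smul] at hc''
    have h1 := congrArg (sg S τ.symm X) hc''
    rw [sg_symm', map_zero] at h1
    exact omega_ne hT (Subtype.ext h1)
  have h2 : ∀ x : VV S w X, cop τ (F X) (x : (CW S).H X) =
      (c * c) • ((op2 (ifm S w X) Ω' Ω' x : VV S w X) : (CW S).H X) := by
    intro x
    rw [cop_apply, ← h0 ⟨sg S τ.symm X x, sg_gr τ.symm x.2⟩, op2_apply, op2_apply,
      Submodule.coe_add, Submodule.coe_smul, Submodule.coe_add, Submodule.coe_smul, map_add,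
      sg_smul, hc'', ifm_apply, ifm_apply, ← sg_tr, sg_mul, hc'']
    have h3 : sg S τ X (sg S τ.symm X (x : (CW S).H X)) = x := sg_symm τ _
    rw [show ((⟨sg S τ.symm X x, sg_gr τ.symm x.2⟩ : VV S w X) :
      (CW S).H X) = sg S τ.symm X x from rfl, h3, smul_mul_assoc, map_smul]
    simp only [smul_eq_mul, smul_smul, smul_add]
    congr 1 <;> congr 1 <;> ring
  have h3 : (c * c) • op2 (ifm S w X) Ω' Ω' ∈ GZ S w 𝒵 X :=
    ⟨_, hF.conj τ, fun Z hZ' => by rw [hZ Z hZ', cop_zero], fun x => (h2 x).symm⟩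
  have h4 := Submodule.smul_mem _ (c * c)⁻¹ h3
  rwa [smul_smul, inv_mul_cancel₀ (mul_ne_zero hc0 hc0), one_smul] at h4

/-- **The separation.** -/
theorem exists_nop (hX : CYS S τ w X) {Ω Ω' : VV S w X}
    (hT : TopData (ifm S w X) (nV S w X) w Ω Ω')
    (hsq : op2 (ifm S w X) Ω Ω ∈ GZ S w 𝒵 X) :
    ∃ F, FamLie S F ∧ F X = nop S X ∧ ∀ Z ∈ 𝒵, F Z = 0 := by
  have h1 : nV S w X ∈ GZ S w 𝒵 X :=
    skew_mem hT.alt hT.nondeg (skew w ∅ X _ (rs_mem FamLie.nop (by simp)))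
      (all_mem hX hT hsq)
  obtain ⟨F, hF, hZ, h⟩ := h1
  exact ⟨F, hF, fam_ext hX.other hF FamLie.nop fun x => (h x).symm, hZ⟩

end Gen

end Pool.Agent.T2h63.CY
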