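import Pool.Agent.T2h63.CY.Conv
import Pool.Agent.T2h63.CY.Cpl
import Pool.Agent.T2h63.CY.Defs
import Pool.Agent.T2h63.CY.Pow
import Pool.Agent.T2h63.CY.FFT

/-!
# Varieties of Calabi-Yau type: the level gap and the products
-/

set_option linter.unusedSectionVars false

open CategoryTheory AlgebraicGeometry TensorProduct

universe u v

namespace Pool.Agent.T2h63.CY

open Module
open Pool.Agent.H914 Pool.Agent.H914.VarClass Pool.Agent.H914.VarClass.Obj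
  Pool.Agent.H914.WeilCohomology
open Pool.Agent.Y121.AHS (toH HL IsDeg trL mulL extMap IsHodge)
open Pool.Agent.Y121.AH (CW em em_gr em_add em_zero em_tr em_smul ex hodgePred pq_ind tmul_eq
  top_eq exists_tr_hodge tmul_ind)
open Pool.Agent.Y133.Half (pw)
open Pool.Agent.T2h63.AH

variable {k : Type u} [Field k] {𝒱 : VarClass k} {ops : CycleOps 𝒱}
  {T : Pool.Agent.Y121.AHS.HodgeTheory ops} {w : ℕ} {X Y : 𝒱.Obj}

lemma other_of (h : SpanOutside (T.W.gr X) (IsSomeHodge T X) w) : Other (toH T) w X := h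

/-- The conditions for the varieties of Calabi-Yau type. -/
lemma cys_of (h : IsCY T X) : CYS (toH T) (cjS (toH T)) X.dim X := by
  obtain ⟨ψ, hψ⟩ := h.polar
  refine ⟨rfl, other_of h.other, ?_, ?_, ?_, ?_⟩
  · obtain ⟨v, hv, hv'⟩ := finrank_eq_one_iff'.1 h.one
    refine ⟨toX v.1, v.2, fun h0 => hv (Subtype.ext h0), fun x hx => ?_⟩
    obtain ⟨c, hc⟩ := hv' ⟨ofX x, hx⟩
    exact ⟨toK c, congrArg (fun z => toX (Subtype.val z)) hc.symm⟩
  · intro p q x hx hx0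
    obtain ⟨h1, -, h2, -⟩ := hψ.range p q (ofX x) hx hx0
    exact ⟨h1, h2⟩
  · intro p q x hx
    have h1 := hψ.conj p q (ofX x) hx
    have h2 : Mem (T.pq X) q p (ofX (sg (toH T) (cjS (toH T)) X x)) := (conj_cjS x) ▸ h1
    exact h2
  · exact irr_of (fun f hf => h.scalar f fun a b x hx => hf a b (toX x) hx) (exists_compl hψ)

lemma noMor_of' (h : IsZeroOn (T.pq X) (T.pq Y) (T.W.gr X w)) : NoMor (toH T) w X Y :=
  noMor_of fun f hf => h f fun a b x hx => hf a b (toX x) hx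

lemma level_mono {m n : ℕ} (hmn : m ≤ n) (h : LevelLE T X m) : LevelLE T X n := by
  rintro A ⟨hA, j, hj, hA'⟩
  exact h A ⟨hA, j, by omega, hA'⟩

/-- The level of a variety of Calabi-Yau type. -/
lemma level_dim (h : IsCY T X) : LevelLE T X X.dim := by
  have hX := cys_of h
  obtain ⟨Ω, Ω', hT⟩ := topData h.odd hX
  have h3 := h.three
  have htop := (t_TOP _ _ _ _ _ (lieS T X.dim X) (skew X.dim ∅ X) X.dim (by omega) Ω Ω' hT).1
  rintro A ⟨hA, j, hj, hA'⟩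
  obtain ⟨F, hF, hFA⟩ := exists_fam hA
  have he := eigen_of_type hA'
  rw [← hFA] at he
  have hF0 : F X = 0 := by
    rcases lt_or_ge 0 j with hj0 | hj0
    · rw [abs_of_pos hj0] at hj
      exact fam_eq_zero hX.other hF (htop (2 * j) _ (by omega) (deg_of_eq hF he))
    · rw [abs_of_nonpos hj0] at hj
      exact cop_inj (fam_eq_zero hX.other (hF.conj _)
        (htop (-(2 * j)) _ (by omega) (deg_of_eq (hF.conj _) (cop_deg hX.conj he))))
  have h2 : ofC (toC A) = ofC (0 : Module.End (CW (toH T)).K ((CW (toH T)).H X)) := by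
    rw [← hFA, hF0]
  rwa [ofC_toC, ofC_zero] at h2

/-- All skew operators belong to the Hodge Lie algebra. -/
lemma full_of (hX : CYS (toH T) (cjS (toH T)) X.dim X)
    {Ω Ω' : VV (toH T) X.dim X}
    (hT : TopData (ifm (toH T) X.dim X) (nV (toH T) X.dim X) X.dim Ω Ω')
    (hsq : op2 (ifm (toH T) X.dim X) Ω Ω ∈ GZ (toH T) X.dim ∅ X) : FullSymplectic T X := by
  intro A hA
  set B : Module.End (CW (toH T)).K (VV (toH T) X.dim X) :=
    (toC A).restrict fun x hx => hA.deg (ofX x) hx with hB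
  have h1 : B ∈ GZ (toH T) X.dim ∅ X := by
    refine skew_mem hT.alt hT.nondeg (fun x y => ?_) (all_mem hX hT hsq)
    exact hA.skew (ofX (x : (CW (toH T)).H X)) (ofX (y : (CW (toH T)).H X))
  obtain ⟨F, hF, -, h⟩ := h1
  have h2 : F X = toC A := by
    refine LinearMap.ext fun x => ?_
    refine gr_induction ((CW (toH T)).isInternal X) (p := fun x => F X x = toC A x) ?_ ?_ x
    · intro i x hx
      by_cases hi : i = X.dim
      · subst hi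
        exact (h ⟨x, hx⟩).symm
      · rw [fam_other hX.other hF hi hx]
        exact (hA.zero i hi (ofX x) hx).symm
    · intro a b ha hb
      rw [map_add, map_add, ha, hb]
  have h3 := hodgeLie_of_fam (X := X) hF
  rw [h2, ofC_toC] at h3
  exact h3

/-- **The level gap.** -/
theorem gap (h : IsCY T X) : LevelLE T X (X.dim - 2) ∨ FullSymplectic T X := by
  by_cases hl : LevelLE T X (X.dim - 2)
  · exact Or.inl hl
  · have hX := cys_of h
    obtain ⟨Ω, Ω', hT⟩ := topData h.odd hX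
    exact Or.inr (full_of hX hT (sq_mem h.three hX hT hl))

/-- **The separation from finitely many varieties.** -/
theorem sep_finite {𝒵 𝒳 : Set 𝒱.Obj} (h𝒳 : ∀ X ∈ 𝒳, IsCY T X) (hne : PairwiseDistinct T 𝒳)
    (hX : X ∈ 𝒳) (hl : ¬ LevelLE T X (X.dim - 2)) (h𝒵 : ∀ Z ∈ 𝒵, LevelLE T Z (X.dim - 1))
    (𝒴 : Finset 𝒱.Obj) (h𝒴 : ∀ Y ∈ 𝒴, Y ∈ 𝒳 ∧ Y ≠ X ∧ Y.dim ≤ X.dim) :
    ∃ F, FamLie (toH T) F ∧ F X = nop (toH T) X ∧ ∀ Z, Z ∈ 𝒵 ∪ (𝒴 : Set 𝒱.Obj) → F Z = 0 := by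
  classical
  have hCY := h𝒳 X hX
  have hS := cys_of hCY
  obtain ⟨Ω, Ω', hT⟩ := topData hCY.odd hS
  have h3 := hCY.three
  have h1 : op2 (ifm (toH T) X.dim X) Ω Ω ∈
      GZ (toH T) X.dim (𝒵 ∪ {Y | Y ∈ 𝒴 ∧ Y.dim < X.dim}) X := by
    refine sq_low h3 hS hT (sq_mem h3 hS hT hl) ?_
    rintro Z (hZ | ⟨hZ, hd⟩)
    · exact h𝒵 Z hZ
    · exact level_mono (by omega) (level_dim (h𝒳 Z (h𝒴 Z hZ).1))
  have key : ∀ s : Finset 𝒱.Obj, (∀ Y ∈ s, Y ∈ 𝒴 ∧ Y.dim = X.dim) →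
      op2 (ifm (toH T) X.dim X) Ω Ω ∈
        GZ (toH T) X.dim ((𝒵 ∪ {Y | Y ∈ 𝒴 ∧ Y.dim < X.dim}) ∪ (s : Set 𝒱.Obj)) X := by
    intro s
    induction s using Finset.induction_on with
    | empty =>
      intro _
      rw [Finset.coe_empty, Set.union_empty]
      exact h1
    | insert Y s _ ih =>
      intro hs
      obtain ⟨hY, hd⟩ := hs Y (Finset.mem_insert_self Y s)
      have hYX := h𝒴 Y hY
      have hSY := cys_of (h𝒳 Y hYX.1)
      rw [hd] at hSY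
      obtain ⟨Υ, Υ', hT'⟩ := topData hCY.odd hSY
      rw [Finset.coe_insert, Set.union_insert]
      exact sq_sep h3 hS hT (ih fun Z hZ => hs Z (Finset.mem_insert_of_mem hZ)) hSY hT'
        (noMor_of' (hne X hX Y hYX.1 (Ne.symm hYX.2.1) hd.symm))
  obtain ⟨F, hF, hFX, hF0⟩ := exists_nop hS hT (key (𝒴.filter fun Y => Y.dim = X.dim) (by
    intro Y hY
    exact Finset.mem_filter.1 hY))
  refine ⟨F, hF, hFX, ?_⟩
  rintro Z (hZ | hZ)
  · exact hF0 Z (Or.inl (Or.inl hZ))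
  · rcases lt_or_eq_of_le (h𝒴 Z hZ).2.2 with hd | hd
    · exact hF0 Z (Or.inl (Or.inr ⟨hZ, hd⟩))
    · exact hF0 Z (Or.inr (Finset.mem_coe.2 (Finset.mem_filter.2 ⟨hZ, hd⟩)))

variable {𝒜 : ClassSystem T}

lemma products_finite {𝒵 𝒳 : Set 𝒱.Obj} (h : Products (𝒵 ∪ 𝒳) Y) :
    ∃ s : Finset 𝒱.Obj, (∀ X ∈ s, X ∈ 𝒳) ∧ Products (𝒵 ∪ (s : Set 𝒱.Obj)) Y := by
  classical
  induction h with
  | @mem Z hZ =>
    rcases hZ with hZ | hZ
    · exact ⟨∅, by simp, Products.mem (Or.inl hZ)⟩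
    · exact ⟨{Z}, by simpa using hZ, Products.mem (Or.inr (by simp))⟩
  | prod _ _ h h' =>
    obtain ⟨s, hs, h1⟩ := h
    obtain ⟨t, ht, h2⟩ := h'
    refine ⟨s ∪ t, fun X hX => ?_, Products.prod (h1.mono ?_) (h2.mono ?_)⟩
    · rcases Finset.mem_union.1 hX with h | h
      · exact hs X h
      · exact ht X h
    · rw [Finset.coe_union]
      exact Set.union_subset_union_right _ Set.subset_union_left
    · rw [Finset.coe_union]
      exact Set.union_subset_union_right _ Set.subset_union_right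
  | iso e _ h =>
    obtain ⟨s, hs, h1⟩ := h
    exact ⟨s, hs, Products.iso e h1⟩

/-- **The classes on the products.** -/
theorem all_in {𝒵 𝒳 : Set 𝒱.Obj} (h𝒳 : ∀ X ∈ 𝒳, IsCY T X) (hne : PairwiseDistinct T 𝒳)
    (hl : ∀ X ∈ 𝒳, ¬ LevelLE T X (X.dim - 2))
    (h𝒵 : ∀ Z ∈ 𝒵, ∀ X ∈ 𝒳, LevelLE T Z (X.dim - 1)) (hZ : ∀ Y, Products 𝒵 Y → AllIn 𝒜 Y)
    (hX : ∀ X ∈ 𝒳, AllIn 𝒜 X) (s : Finset 𝒱.Obj) :
    (∀ X ∈ s, X ∈ 𝒳) → ∀ Y, Products (𝒵 ∪ (s : Set 𝒱.Obj)) Y → AllIn 𝒜 Y := by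
  classical
  induction s using Finset.induction_on_max_value (fun X : 𝒱.Obj => X.dim) with
  | empty =>
    intro _ Y hY
    rw [Finset.coe_empty, Set.union_empty] at hY
    exact hZ Y hY
  | insert X s hXs hmax ih =>
    intro hs Y hY
    have hX𝒳 := hs X (Finset.mem_insert_self X s)
    have ih' := ih fun Z hZ => hs Z (Finset.mem_insert_of_mem hZ)
    obtain ⟨F, hF, hFX, hF0⟩ := sep_finite h𝒳 hne hX𝒳 (hl X hX𝒳) (fun Z hZ => h𝒵 Z hZ X hX𝒳) s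
      fun Z hZ => ⟨hs Z (Finset.mem_insert_of_mem hZ), fun h => hXs (h ▸ hZ), hmax Z hZ⟩
    have hS := cys_of (h𝒳 X hX𝒳)
    obtain ⟨Ω, Ω', hT⟩ := topData (h𝒳 X hX𝒳).odd hS
    have hpw : ∀ n, AllIn 𝒜 (pw X n) := abs_pow t_FFT rfl (h𝒳 X hX𝒳).odd hS.other
      (all_mem hS hT (sq_mem (h𝒳 X hX𝒳).three hS hT (hl X hX𝒳))) (hX X hX𝒳)
    rw [Finset.coe_insert, Set.union_insert] at hY
    rcases std_of_products hY with hY | ⟨n, ⟨e⟩⟩ | ⟨Z, n, hZ, ⟨e⟩⟩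
    · exact ih' Y hY
    · exact abs_iso ⟨e.symm⟩ (hpw n)
    · exact abs_iso ⟨e.symm⟩ (abs_of_splits (fun j c hc => splits hF hFX
        (fam_zero hF.isDer hF0 hZ) hc) (ih' Z hZ) (hpw n))

/-- **Full faithfulness.** -/
theorem full_iff {𝒵 𝒳 : Set 𝒱.Obj} (h𝒳 : ∀ X ∈ 𝒳, IsCY T X) (hne : PairwiseDistinct T 𝒳)
    (hl : ∀ X ∈ 𝒳, ¬ LevelLE T X (X.dim - 2))
    (h𝒵 : ∀ Z ∈ 𝒵, ∀ X ∈ 𝒳, LevelLE T Z (X.dim - 1)) :
    FullyFaithfulOn 𝒜 (Products (𝒵 ∪ 𝒳)) ↔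
      FullyFaithfulOn 𝒜 (Products 𝒵) ∧ ∀ X ∈ 𝒳, AllIn 𝒜 X := by
  refine ⟨fun h => ⟨fun A B hA hB => ?_, fun X hX => ?_⟩, fun h => ?_⟩
  · exact h A B (hA.mono Set.subset_union_left) (hB.mono Set.subset_union_left)
  · exact abs_of_full h (Products.mem (Or.inr hX))
  · refine full_of_abs (fun _ _ => Products.prod) fun Y hY => ?_
    obtain ⟨s, hs, h1⟩ := products_finite hY
    exact all_in h𝒳 hne hl h𝒵 (fun Y hY => abs_of_full h.1 hY) h.2 s hs Y h1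

end Pool.Agent.T2h63.CY
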