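import Pool.Agent.T2h63.CY.Geo1
import Pool.Agent.T2h63.AH.Main2
import Pool.Agent.N996.BP.CSys2

/-!
# Words in the cohomology of a power, arrays and derivations
-/

set_option linter.unusedSectionVars false

open CategoryTheory AlgebraicGeometry TensorProduct

universe u

namespace Pool.Agent.T2h63.CY

open Module Matrix
open Pool.Agent.H914 Pool.Agent.H914.VarClass Pool.Agent.H914.VarClass.Obj
  Pool.Agent.H914.WeilCohomology
open Pool.Agent.N996.BP (rei tens AQ ce rei_rei)
open Pool.Agent.N996.BP.Geo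
open Pool.Agent.Y133.Half
open Pool.Agent.Y121.AH (CW em em_gr em_add em_zero em_tr em_mul em_map em_smul ex_rat hodgePred)
open Pool.Agent.T2h63.AH

section Arr

variable {ι : Type} [Fintype ι] [DecidableEq ι]

/-- Families of rational arrays stable under permutations and products. -/
structure PT (A : ∀ n : ℕ, Submodule ℚ ((Fin (n + 1) → ι) → ℚ)) : Prop where
  perm : ∀ (n : ℕ) (σ : Equiv.Perm (Fin (n + 1))) (a : (Fin (n + 1) → ι) → ℚ), a ∈ A n →
    rei σ a ∈ A n
  tens : ∀ (n m : ℕ) (a : (Fin (n + 1) → ι) → ℚ) (b : (Fin (m + 1) → ι) → ℚ), a ∈ A n →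
    b ∈ A m → rei (ce n m) (tens a b) ∈ A (n + m + 1)

variable {A : ∀ n : ℕ, Submodule ℚ ((Fin (n + 1) → ι) → ℚ)}

namespace PT

lemma of (hA : PT A) {κ : Type} {a : (κ → ι) → ℚ} {n : ℕ} (e : κ ≃ Fin (n + 1))
    (h : N996.BP.rei e a ∈ A n) : a ∈ AQ A κ := by
  intro m e'
  obtain rfl : n = m := by
    have := Fintype.card_congr (e.symm.trans e')
    rw [Fintype.card_fin, Fintype.card_fin] at this
    omega
  have h1 := hA.perm n (e.symm.trans e') _ h
  rw [rei_rei] at h1
  have h2 : e.trans (e.symm.trans e') = e' := by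
    ext x; simp
  rwa [h2] at h1

lemma rei {κ l : Type} (e : κ ≃ l) {a : (κ → ι) → ℚ} (ha : a ∈ AQ A κ) :
    N996.BP.rei e a ∈ AQ A l := by
  intro n e'
  rw [rei_rei]
  exact ha n _

lemma empty {κ : Type} [IsEmpty κ] (a : (κ → ι) → ℚ) : a ∈ AQ A κ := by
  intro n e
  exact (IsEmpty.false (e.symm 0)).elim

lemma tensQ (hA : PT A) {κ l : Type} [Fintype κ] [Fintype l] {a : (κ → ι) → ℚ}
    {b : (l → ι) → ℚ} (ha : a ∈ AQ A κ) (hb : b ∈ AQ A l) :
    N996.BP.tens a b ∈ AQ A (κ ⊕ l) := by
  rcases isEmpty_or_nonempty κ with hκ | hκ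
  · have h1 : N996.BP.tens a b = a (fun k => (IsEmpty.false k).elim) •
        N996.BP.rei (Equiv.emptySum κ l).symm b := by
      ext i
      rw [N996.BP.tens, Pi.smul_apply, smul_eq_mul, N996.BP.rei]
      congr 2
      ext k
      exact (IsEmpty.false k).elim
    rw [h1]
    exact Submodule.smul_mem _ _ (rei _ hb)
  rcases isEmpty_or_nonempty l with hl | hl
  · have h1 : N996.BP.tens a b = b (fun k => (IsEmpty.false k).elim) •
        N996.BP.rei (Equiv.sumEmpty κ l).symm a := by
      ext i
      rw [N996.BP.tens, Pi.smul_apply, smul_eq_mul, N996.BP.rei, mul_comm]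
      congr 2
      ext k
      exact (IsEmpty.false k).elim
    rw [h1]
    exact Submodule.smul_mem _ _ (rei _ ha)
  obtain ⟨n, ⟨e⟩⟩ := N996.BP.RFam.exists_eqv κ
  obtain ⟨m, ⟨f⟩⟩ := N996.BP.RFam.exists_eqv l
  refine hA.of ((Equiv.sumCongr e f).trans (ce n m)) ?_
  rw [← rei_rei, N996.BP.RFam.rei_tens]
  exact hA.tens n m _ _ (ha n e) (hb m f)

end PT

end Arr

variable {k : Type u} [Field k] {𝒱 : VarClass k} {ops : CycleOps 𝒱}

/-- There is a homogeneous basis of the cohomology. -/
lemma exists_gbasis (W : WeilCohomology.{u, 0} ops) (X : 𝒱.Obj) :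
    ∃ (ι : Type) (_ : Fintype ι) (_ : DecidableEq ι) (e : Basis ι W.K (W.H X)) (deg : ι → ℕ),
      ∀ j, e j ∈ W.gr X (deg j) := by
  classical
  let b := fun i => Basis.ofVectorSpace W.K (W.gr X i)
  let B := (W.isInternal X).collectedBasis b
  have hfin : Finite (Σ i, Basis.ofVectorSpaceIndex W.K (W.gr X i)) :=
    Module.Finite.finite_basis B
  exact ⟨_, Fintype.ofFinite _, Classical.decEq _, B, fun a => a.1,
    fun j => (W.isInternal X).collectedBasis_mem b j⟩

section Words

variable {S : Pool.Agent.Y121.AH.HodgeTheory ops} {X : 𝒱.Obj}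
  {ι : Type} [Fintype ι] [DecidableEq ι] (e : Basis ι S.W.K (S.W.H X))

/-- The action of a derivation on the words. -/
lemma der_wb {F : Fam (CW S)} (hF : IsDer F) (M : ι → ι → ℂ)
    (hM : ∀ j, F X (em S.W ℂ (e j)) = ∑ i, cc S (M j i) • em S.W ℂ (e i)) (n : ℕ) :
    ∀ w : Fin (n + 1) → ι, F (pw X n) (em S.W ℂ (wb e n w)) =
      ∑ l, ∑ i, cc S (M (w l) i) • em S.W ℂ (wb e n (Function.update w l i)) := by
  induction n with
  | zero =>
    intro w
    have h0 : ∀ w : Fin 1 → ι, wb e 0 w = e (w 0) := fun w => wb_zero e w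
    have h1 : F (pw X 0) (em S.W ℂ (wb e 0 w)) = F X (em S.W ℂ (e (w 0))) :=
      congrArg (fun c => F X (em S.W ℂ c)) (h0 w)
    rw [h1, hM, Fin.sum_univ_one]
    refine Finset.sum_congr rfl fun i _ => ?_
    have h2 : wb e 0 (Function.update w 0 i) = e i := by
      rw [h0, Function.update_self]
    exact congrArg (fun c => cc S (M (w 0) i) • em S.W ℂ c) h2.symm
  | succ n ih =>
    intro w
    have h0 : F (pw X (n + 1)) (em S.W ℂ (wb e (n + 1) w)) =
        (CW S).map (pfst X n) (F (pw X n) (em S.W ℂ (wb e n fun i => w i.castSucc))) *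
          (CW S).map (psnd X n) (em S.W ℂ (e (w (Fin.last _)))) +
        (CW S).map (pfst X n) (em S.W ℂ (wb e n fun i => w i.castSucc)) *
          (CW S).map (psnd X n) (F X (em S.W ℂ (e (w (Fin.last _))))) := by
      rw [wb_succ, em_mul, ← em_map, ← em_map]
      exact hF.ext _ _
    conv_rhs => rw [Fin.sum_univ_castSucc]
    rw [h0, ih, hM, map_sum, Finset.sum_mul, map_sum, Finset.mul_sum]
    congr 1
    · refine Finset.sum_congr rfl fun l _ => ?_
      rw [map_sum, Finset.sum_mul]
      refine Finset.sum_congr rfl fun i _ => ?_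
      rw [map_smul, smul_mul_assoc, wb_succ, em_mul, ← em_map, ← em_map]
      have h1 : (fun j : Fin (n + 1) => Function.update w l.castSucc i j.castSucc) =
          Function.update (fun j : Fin (n + 1) => w j.castSucc) l i := by
        funext j
        by_cases hj : j = l
        · subst hj; rw [Function.update_self, Function.update_self]
        · rw [Function.update_of_ne hj, Function.update_of_ne]
          exact fun h => hj (Fin.castSucc_injective _ h)
      have h2 : Function.update w l.castSucc i (Fin.last _) = w (Fin.last _) := by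
        rw [Function.update_of_ne]
        exact (Fin.castSucc_lt_last l).ne'
      rw [h1, h2]
    · refine Finset.sum_congr rfl fun i _ => ?_
      rw [map_smul, mul_smul_comm, wb_succ, em_mul, ← em_map, ← em_map]
      have h1 : (fun j : Fin (n + 1) => Function.update w (Fin.last _) i j.castSucc) =
          fun j : Fin (n + 1) => w j.castSucc := by
        funext j
        rw [Function.update_of_ne]
        exact (Fin.castSucc_lt_last j).ne
      rw [h1, Function.update_self]

/-- The relation given by a derivation which kills a class. -/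
lemma rel_of_der {F : Fam (CW S)} (hF : IsDer F) (M : ι → ι → ℚ)
    (hM : ∀ j, F X (em S.W ℂ (e j)) = ∑ i, cc S ((M j i : ℚ) : ℂ) • em S.W ℂ (e i)) (n : ℕ)
    (a : (Fin (n + 1) → ι) → ℚ) (h : F (pw X n) (em S.W ℂ (cls e n a)) = 0)
    (w : Fin (n + 1) → ι) :
    ∑ l, ∑ j, M j (w l) * a (Function.update w l j) = 0 := by
  have h1 : emb e n (fun w => ((∑ l, ∑ j, M j (w l) * a (Function.update w l j) : ℚ) : ℂ)) =
      emb e n (fun _ => 0) := by
    have h2 : emb e n (fun _ => 0) = 0 := by
      rw [emb]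
      exact Finset.sum_eq_zero fun w _ => zero_smul (CW S).K (em S.W ℂ (wb e n w))
    rw [h2, ← h, cls, N996.BP.Geo.em_sum, map_sum]
    have h3 : ∀ w, F (pw X n) (em S.W ℂ (((a w : ℚ) : S.W.K) • wb e n w)) =
        ∑ l, ∑ i, cc S ((M (w l) i * a w : ℚ) : ℂ) •
          em S.W ℂ (wb e n (Function.update w l i)) := by
      intro w
      rw [em_smul, map_smul, der_wb e hF (fun j i => ((M j i : ℚ) : ℂ)) hM n w, ex_rat,
        Finset.smul_sum]
      refine Finset.sum_congr rfl fun l _ => ?_
      rw [Finset.smul_sum]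
      refine Finset.sum_congr rfl fun i _ => ?_
      rw [smul_smul]
      congr 1
      rw [mul_comm, Rat.cast_mul]
      rfl
    rw [Finset.sum_congr rfl fun w _ => h3 w, emb]
    have h4 : ∀ l : Fin (n + 1), ∑ w : Fin (n + 1) → ι, ∑ i, cc S ((M (w l) i * a w : ℚ) : ℂ) •
        em S.W ℂ (wb e n (Function.update w l i)) =
        ∑ w : Fin (n + 1) → ι, ∑ j, cc S ((M j (w l) * a (Function.update w l j) : ℚ) : ℂ) •
        em S.W ℂ (wb e n w) := by
      intro l
      rw [← Finset.sum_product', ← Finset.sum_product']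
      refine Finset.sum_bij' (fun x _ => (Function.update x.1 l x.2, x.1 l))
        (fun x _ => (Function.update x.1 l x.2, x.1 l)) (fun _ _ => Finset.mem_univ _)
        (fun _ _ => Finset.mem_univ _) ?_ ?_ ?_
      · rintro ⟨w, i⟩ _
        simp
      · rintro ⟨w, i⟩ _
        simp
      · rintro ⟨w, i⟩ _
        simp
    rw [Finset.sum_comm, Finset.sum_congr rfl fun l _ => h4 l, Finset.sum_comm]
    refine Finset.sum_congr rfl fun w _ => ?_
    rw [Rat.cast_sum]
    have h5 : ∀ (s : Fin (n + 1) → ℂ), cc S (∑ l, s l) = ∑ l, cc S (s l) := fun s => rfl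
    have h6 : ∀ (s : ι → ℂ), cc S (∑ l, s l) = ∑ l, cc S (s l) := fun s => rfl
    rw [h5, Finset.sum_smul]
    refine Finset.sum_congr rfl fun l _ => ?_
    rw [Rat.cast_sum, h6, Finset.sum_smul]
  have h2 := congrFun (emb_inj e n h1) w
  exact_mod_cast h2

end Words

end Pool.Agent.T2h63.CY
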