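import Pool.Agent.T2h63.CY.WORD

/-! Elements of top degree. -/

set_option autoImplicit false
set_option linter.unusedSectionVars false
set_option linter.unusedVariables false

namespace Pool.Agent.T2h63.CY

open Module

section

variable {L : Type} {V : Type} [Field L] [CharZero L] [AddCommGroup V] [Module L V]

/-- A vector of degree `k` in the span of vectors of degrees different from `k` is zero. -/
theorem vec_zero {N : Module.End L V} {k : ℤ} {x : V} (Q : ℤ → Prop) (hk : ¬ Q k)
    (hx : Vec N k x) (hs : x ∈ Submodule.span L {y | ∃ m : ℤ, Q m ∧ Vec N m y}) : x = 0 := by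
  have h1 := (Module.End.eigenspaces_iSupIndep N) (k : L)
  rw [Submodule.disjoint_def] at h1
  refine h1 x (Module.End.mem_eigenspace_iff.2 hx) ?_
  refine (Submodule.span_le.2 ?_) hs
  rintro y ⟨m, hm, hy⟩
  have hne : (m : L) ≠ (k : L) := by
    intro h
    rw [Int.cast_inj] at h
    exact hk (h ▸ hm)
  exact (le_iSup₂_of_le (f := fun (j : L) (_ : j ≠ (k : L)) => N.eigenspace j) (m : L) hne le_rfl)
    (Module.End.mem_eigenspace_iff.2 hy)

variable {ψ : LinearMap.BilinForm L V} {N : Module.End L V} {w : ℤ} {Ω Ω' : V}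

theorem op2_apply (ψ : LinearMap.BilinForm L V) (a b x : V) :
    op2 ψ a b x = ψ a x • b + ψ b x • a := by
  unfold op2
  simp only [LinearMap.add_apply, LinearMap.smulRight_apply]

theorem TopData.van (hT : TopData ψ N w Ω Ω') {k : ℤ} {x : V} (hx : Vec N k x)
    (hk : ¬ (-w ≤ k ∧ k ≤ w ∧ Even (k - w))) : x = 0 := by
  refine vec_zero (fun m => -w ≤ m ∧ m ≤ w ∧ Even (m - w)) hk hx ?_
  have h := hT.total x
  refine Submodule.span_mono ?_ h
  rintro y ⟨m, h1, h2, h3, h4⟩
  exact ⟨m, ⟨h1, h2, h3⟩, h4⟩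

/-- Two operators which agree on homogeneous vectors are equal. -/
theorem TopData.ext (hT : TopData ψ N w Ω Ω') {A B : Module.End L V}
    (h : ∀ (m : ℤ) (y : V), -w ≤ m → m ≤ w → Even (m - w) → Vec N m y → A y = B y) : A = B := by
  refine LinearMap.ext fun x => ?_
  have hx := hT.total x
  induction hx using Submodule.span_induction with
  | mem x h' =>
    obtain ⟨m, h1, h2, h3, h4⟩ := h'
    exact h m x h1 h2 h3 h4
  | zero => rw [map_zero, map_zero]
  | add x y _ _ h1 h2 => rw [map_add, map_add, h1, h2]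
  | smul c x _ h => rw [map_smul, map_smul, h]

/-- Vectors whose degrees do not sum to zero are orthogonal. -/
theorem orth (hS : ∀ x y, ψ (N x) y + ψ x (N y) = 0) {i j : ℤ} (hij : i + j ≠ 0) {x y : V}
    (hx : Vec N i x) (hy : Vec N j y) : ψ x y = 0 := by
  have h := hS x y
  unfold Vec at hx hy
  rw [hx, hy, map_smul, LinearMap.smul_apply, map_smul, smul_eq_mul, smul_eq_mul, ← add_mul,
    ← Int.cast_add] at h
  rcases mul_eq_zero.1 h with h1 | h1
  · exact absurd (Int.cast_eq_zero.1 h1) hij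
  · exact h1

theorem pair' (hT : TopData ψ N w Ω Ω') (hS : ∀ x y, ψ (N x) y + ψ x (N y) = 0) (hw : w ≠ 0) :
    ∀ (m : ℤ) (y : V), m ≠ -w → Vec N m y → ψ Ω y = 0 :=
  fun m y hm hy => orth hS (by omega) hT.vec hy

end

theorem t_TOP : S_TOP := by
  intro L V _ _ _ _ ψ G N hL hS w hw Ω Ω' hT
  constructor
  · intro m B hm hB
    refine hT.ext fun j y h1 h2 h3 h4 => ?_
    rw [LinearMap.zero_apply]
    exact hT.van (hB.vec h4) (by omega)
  · intro B hBG hB
    obtain ⟨c, hc⟩ := hT.top (B Ω') (by
      have := hB.vec hT.vec'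
      rwa [show -w + 2 * w = w by ring] at this)
    refine ⟨c / 2, hT.ext fun j y h1 h2 h3 h4 => ?_⟩
    rw [LinearMap.smul_apply, op2_apply]
    by_cases hj : j = -w
    · subst hj
      obtain ⟨d, rfl⟩ := hT.bot y h4
      rw [map_smul, hc, map_smul, hT.pair, smul_eq_mul, mul_one, ← add_smul, smul_smul, smul_smul]
      congr 1
      ring
    · rw [pair' hT (hS N hL.mem) (by omega) j y hj h4, zero_smul, add_zero, smul_zero]
      exact hT.van (hB.vec h4) (by omega)

end Pool.Agent.T2h63.CY
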