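import Pool.Agent.T2h63.CY.Stm

/-! Words in homogeneous operators of negative degree. -/

set_option autoImplicit false

namespace Pool.Agent.T2h63.CY

open Module

section

variable {L : Type} {V : Type} [Field L] [AddCommGroup V] [Module L V]

/-- The operator `A` of degree `m` maps vectors of degree `s` to vectors of degree `s + m`. -/
theorem Deg.vec {N A : Module.End L V} {m s : ℤ} {x : V} (hA : Deg N m A) (hx : Vec N s x) :
    Vec N (s + m) (A x) := by
  have h := congrArg (fun f : Module.End L V => f x) hA
  simp only [LinearMap.sub_apply, Module.End.mul_apply, LinearMap.smul_apply] at h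
  unfold Vec at hx ⊢
  rw [hx, map_smul] at h
  rw [sub_eq_iff_eq_add.1 h, Int.cast_add, add_smul, add_comm]

theorem Deg.comm {N A B : Module.End L V} {m k : ℤ} (hA : Deg N m A) (hB : Deg N k B) :
    Deg N (m + k) (A * B - B * A) := by
  unfold Deg at hA hB ⊢
  have h1 : N * A = A * N + (m : L) • A := by rw [← hA]; abel
  have h2 : N * B = B * N + (k : L) • B := by rw [← hB]; abel
  have h3 : N * (A * B) = A * B * N + ((m : L) + k) • (A * B) := by
    rw [← mul_assoc, h1, add_mul, mul_assoc A N B, h2, mul_add, add_smul, smul_mul_assoc,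
      mul_smul_comm, mul_assoc]
    abel
  have h4 : N * (B * A) = B * A * N + ((m : L) + k) • (B * A) := by
    rw [← mul_assoc, h2, add_mul, mul_assoc B N A, h1, mul_add, add_smul, smul_mul_assoc,
      mul_smul_comm, mul_assoc]
    abel
  rw [mul_sub, h3, h4, sub_mul, Int.cast_add, smul_sub]
  abel

/-- Words of negative operators applied to elements of `P`. -/
inductive Wd (G : Submodule L (Module.End L V)) (N : Module.End L V) (P : Set V) (t : ℤ) :
    ℤ → V → Prop
  | base (b : V) (hb : b ∈ P) : Wd G N P t t b
  | step (s m : ℤ) (x : V) (A : Module.End L V) (hx : Wd G N P t s x) (hA : A ∈ G) (hm : m < 0)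
      (hd : Deg N m A) : Wd G N P t (s + m) (A x)

end

theorem t_WORD : S_WORD := by
  intro L V _ _ _ _ G N hL P t hP hst
  set U : Submodule L V := Submodule.span L {x | ∃ s, Wd G N P t s x} with hU
  have hvec : ∀ s x, Wd G N P t s x → Vec N s x ∧ (x ∈ P ∨ s < t) ∧ s ≤ t := by
    intro s x h
    induction h with
    | base b hb => exact ⟨hP b hb, Or.inl hb, le_rfl⟩
    | step s m x A _ _ hm hd ih => exact ⟨hd.vec ih.1, Or.inr (by omega), by omega⟩
  have hPU : P ⊆ U := fun b hb => Submodule.subset_span ⟨t, Wd.base b hb⟩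
  have hneg : ∀ A ∈ G, ∀ m : ℤ, m < 0 → Deg N m A → ∀ x ∈ U, A x ∈ U := by
    intro A hA m hm hd x hx
    induction hx using Submodule.span_induction with
    | mem x h =>
      obtain ⟨s, hs⟩ := h
      exact Submodule.subset_span ⟨_, Wd.step s m x A hs hA hm hd⟩
    | zero => rw [map_zero]; exact U.zero_mem
    | add x y _ _ h1 h2 => rw [map_add]; exact U.add_mem h1 h2
    | smul c x _ h => rw [map_smul]; exact U.smul_mem c h
  have key : ∀ s x, Wd G N P t s x → ∀ C ∈ G, ∀ m : ℤ, Deg N m C → C x ∈ U := by
    intro s x h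
    induction h with
    | base b hb =>
      intro C hC m hd
      rcases lt_or_ge m 0 with hm | hm
      · exact hneg C hC m hm hd b (hPU hb)
      · exact (Submodule.span_le.2 hPU) (hst b hb m hm C hC hd)
    | step s m x A hx hA hm hd ih =>
      intro C hC k hk
      have h1 : C (A x) = A (C x) + (C * A - A * C) x := by
        simp only [LinearMap.sub_apply, Module.End.mul_apply]; abel
      rw [h1]
      exact U.add_mem (hneg A hA m hm hd _ (ih C hC k hk))
        (ih _ (hL.bra C hC A hA) (k + m) (hk.comm hd))
  refine ⟨U, hPU, ?_, ?_⟩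
  · intro A hA x hx
    have h1 : ∀ C ∈ G, (∃ m : ℤ, Deg N m C) → C x ∈ U := by
      rintro C hC ⟨m, hm⟩
      induction hx using Submodule.span_induction with
      | mem x h =>
        obtain ⟨s, hs⟩ := h
        exact key s x hs C hC m hm
      | zero => rw [map_zero]; exact U.zero_mem
      | add x y _ _ h1 h2 => rw [map_add]; exact U.add_mem h1 h2
      | smul c x _ h => rw [map_smul]; exact U.smul_mem c h
    have h2 : ∀ A ∈ Submodule.span L {B | B ∈ G ∧ ∃ m : ℤ, Deg N m B}, A x ∈ U := by
      intro A h2
      induction h2 using Submodule.span_induction with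
      | mem B h => exact h1 B h.1 h.2
      | zero => rw [LinearMap.zero_apply]; exact U.zero_mem
      | add B C _ _ h3 h4 => rw [LinearMap.add_apply]; exact U.add_mem h3 h4
      | smul c B _ h => rw [LinearMap.smul_apply]; exact U.smul_mem c h
    exact h2 A (hL.hom A hA)
  · rw [hU, Submodule.span_le]
    rintro x ⟨s, hs⟩
    obtain ⟨h1, h2, -⟩ := hvec s x hs
    rcases h2 with h2 | h2
    · exact Submodule.mem_sup_left (Submodule.subset_span h2)
    · exact Submodule.mem_sup_right (Submodule.subset_span ⟨s, h2, h1⟩)

end Pool.Agent.T2h63.CY
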